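import Pool.Agent.K9h45.PL.Pat2

/-! # The form factor on the interval `(0, 2)` under the alternative hypothesis -/

set_option autoImplicit false

open MeasureTheory Set Filter Topology

namespace Pool.Agent.K9h45.PL

open Pool.Agent.Y749.Rig
open Pool.Agent.Y749.AH
open SG (ord NZ zmult ZS)

variable {l : Filter ℝ}

/-- from tents to means -/
theorem mean_of_tents (hl : l ≤ atTop) {a b c w d δ₀ : ℝ} (hab : a < b) (hc : c = (a + b) / 2)
    (hw : w = (b - a) / 2) (hd : 0 ≤ d) (hδ₀ : 0 < δ₀)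
    (ht : ∀ p : ℝ, 0 < p → |p - w| < δ₀ →
      Tendsto (fun T => ∫ α, max 0 (p - |α - c|) * Fr T α) l (𝓝 (p ^ 2 * d))) :
    Tendsto (fun T => ∫ α in a..b, Fr T α) l (𝓝 (2 * w * d)) := by
  have hw0 : 0 < w := by rw [hw]; linarith
  rw [Metric.tendsto_nhds]
  intro ε hε
  obtain ⟨δ, hδ⟩ : ∃ δ : ℝ, δ = min (w / 2) (min (δ₀ / 2) (ε / (4 * (d + 1)))) := ⟨_, rfl⟩
  have hδ0 : 0 < δ := by
    rw [hδ]
    exact lt_min (by positivity) (lt_min (by positivity) (by positivity))
  have hδ1 : δ ≤ w / 2 := by rw [hδ]; exact min_le_left _ _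
  have hδ2 : δ ≤ δ₀ / 2 := by rw [hδ]; exact (min_le_right _ _).trans (min_le_left _ _)
  have hδ4 : δ * d ≤ ε / 4 := by
    have h1 : δ ≤ ε / (4 * (d + 1)) := by
      rw [hδ]; exact (min_le_right _ _).trans (min_le_right _ _)
    rw [le_div_iff₀ (by positivity)] at h1
    nlinarith
  have hcw : c - w = a := by rw [hc, hw]; ring
  have hcw' : c + w = b := by rw [hc, hw]; ring
  have t1 := ht (w + δ) (by linarith) (by
    rw [add_sub_cancel_left, abs_of_pos hδ0]; linarith)
  have t2 := ht w hw0 (by rw [sub_self, abs_zero]; exact hδ₀)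
  have t3 := ht (w - δ) (by linarith) (by
    rw [sub_sub_cancel_left, abs_neg, abs_of_pos hδ0]; linarith)
  have u1 := (t1.sub t2).const_mul (1 / δ)
  have u2 := (t2.sub t3).const_mul (1 / δ)
  have e1 : 1 / δ * ((w + δ) ^ 2 * d - w ^ 2 * d) = 2 * w * d + δ * d := by
    field_simp
    ring
  have e2 : 1 / δ * (w ^ 2 * d - (w - δ) ^ 2 * d) = 2 * w * d - δ * d := by
    field_simp
    ring
  rw [e1] at u1
  rw [e2] at u2
  filter_upwards [u1.eventually (gt_mem_nhds (show 2 * w * d + δ * d < 2 * w * d + ε / 2 by linarith)),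
    u2.eventually (lt_mem_nhds (show 2 * w * d - ε / 2 < 2 * w * d - δ * d by linarith)),
    hl (eventually_ge_atTop 10)] with T h1 h2 h3
  have hF0 := Fr_nonneg h3
  have hFc := Fr_cont T
  have iF : IntegrableOn (Fr T) (Ioc a b) := hFc.continuousOn.integrableOn_Icc.mono_set
    Ioc_subset_Icc_self
  have mx : ∀ x y : ℝ, x ≤ y → max 0 x ≤ max 0 y := fun x y h => max_le_max le_rfl h
  -- upper bound
  have up : ∫ α in a..b, Fr T α ≤ 1 / δ * ((∫ α, max 0 (w + δ - |α - c|) * Fr T α) -
      ∫ α, max 0 (w - |α - c|) * Fr T α) := by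
    rw [← integral_sub (tent_Fr_int _ _ _) (tent_Fr_int _ _ _), ← integral_const_mul,
      intervalIntegral.integral_of_le hab.le]
    have iG : Integrable fun α => 1 / δ * (max 0 (w + δ - |α - c|) * Fr T α -
        max 0 (w - |α - c|) * Fr T α) :=
      ((tent_Fr_int _ _ _).sub (tent_Fr_int _ _ _)).const_mul _
    refine le_trans ?_ (setIntegral_le_integral (s := Ioc a b) iG (ae_of_all _ fun α => ?_))
    · refine setIntegral_mono_on iF iG.integrableOn measurableSet_Ioc fun α hα => ?_
      have g1 : |α - c| ≤ w := by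
        rw [abs_le]
        constructor <;> linarith [hα.1, hα.2]
      rw [max_eq_right (by linarith), max_eq_right (by linarith)]
      apply le_of_eq
      field_simp
      ring
    · show 0 ≤ 1 / δ * (max 0 (w + δ - |α - c|) * Fr T α - max 0 (w - |α - c|) * Fr T α)
      rw [← sub_mul]
      have := mx (w - |α - c|) (w + δ - |α - c|) (by linarith)
      exact mul_nonneg (by positivity) (mul_nonneg (by linarith) (hF0 α))
  -- lower bound
  have low : 1 / δ * ((∫ α, max 0 (w - |α - c|) * Fr T α) -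
      ∫ α, max 0 (w - δ - |α - c|) * Fr T α) ≤ ∫ α in a..b, Fr T α := by
    rw [← integral_sub (tent_Fr_int _ _ _) (tent_Fr_int _ _ _), ← integral_const_mul,
      intervalIntegral.integral_of_le hab.le]
    have iG : Integrable fun α => 1 / δ * (max 0 (w - |α - c|) * Fr T α -
        max 0 (w - δ - |α - c|) * Fr T α) :=
      ((tent_Fr_int _ _ _).sub (tent_Fr_int _ _ _)).const_mul _
    rw [← setIntegral_eq_integral_of_forall_compl_eq_zero (s := Ioc a b)]
    · refine setIntegral_mono_on iG.integrableOn iF measurableSet_Ioc fun α hα => ?_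
      rw [← sub_mul, ← mul_assoc]
      have g1 : |α - c| ≤ w := by
        rw [abs_le]
        constructor <;> linarith [hα.1, hα.2]
      have g2 : 1 / δ * (max 0 (w - |α - c|) - max 0 (w - δ - |α - c|)) ≤ 1 := by
        rw [one_div, inv_mul_le_iff₀ hδ0, mul_one]
        rw [max_eq_right (by linarith : (0 : ℝ) ≤ w - |α - c|)]
        linarith [le_max_right 0 (w - δ - |α - c|)]
      calc _ ≤ 1 * Fr T α := mul_le_mul_of_nonneg_right g2 (hF0 α)
        _ = Fr T α := one_mul _
    · intro α hα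
      have g1 : w ≤ |α - c| := by
        by_contra hcon
        push Not at hcon
        rw [abs_lt] at hcon
        apply hα
        exact ⟨by linarith [hcon.1], by linarith [hcon.2]⟩
      rw [max_eq_left (by linarith), max_eq_left (by linarith)]
      ring
  rw [Real.dist_eq, abs_lt]
  constructor <;> linarith

/-- the shape of the form factor under the alternative hypothesis -/
noncomputable def HH (α : ℝ) : ℝ := min |α| |2 - α|

lemma HH_cont : Continuous HH := by unfold HH; fun_prop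

lemma HH_nonneg (α : ℝ) : 0 ≤ HH α := le_min (abs_nonneg _) (abs_nonneg _)

lemma HH_left {α : ℝ} (h0 : 0 ≤ α) (h1 : α ≤ 1) : HH α = α := by
  unfold HH
  rw [abs_of_nonneg h0, abs_of_nonneg (by linarith), min_eq_left (by linarith)]

lemma HH_right {α : ℝ} (h0 : 1 ≤ α) (h1 : α ≤ 2) : HH α = 2 - α := by
  unfold HH
  rw [abs_of_nonneg (by linarith), abs_of_nonneg (by linarith), min_eq_right (by linarith)]

/-- tents in `(1, 2)` -/
lemma tent12 (RH : RiemannHypothesis) (hl : l ≤ atTop) (hP : PerL l 2) {p c : ℝ} (hp : 0 < p)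
    (hpc : p ≤ 2 - c) (hc : 2 - c + p < 1) :
    Tendsto (fun T => ∫ α, max 0 (p - |α - c|) * Fr T α) l (𝓝 (p ^ 2 * (2 - c))) := by
  have h1 := (tent01 RH hp hpc hc).mono_left hl
  have hφc : Continuous fun β : ℝ => max 0 (p - |β - (c - 2)|) := by fun_prop
  have hφs : HasCompactSupport fun β : ℝ => max 0 (p - |β - (c - 2)|) := by
    refine HasCompactSupport.of_support_subset_isCompact
      (isCompact_Icc (a := (c - 2) - p) (b := (c - 2) + p)) ?_
    intro x hx
    by_contra hcon
    apply hx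
    have h1 : p < |x - (c - 2)| := by
      by_contra h2
      push Not at h2
      apply hcon
      rw [abs_le] at h2
      exact ⟨by linarith [h2.1], by linarith [h2.2]⟩
    exact max_eq_left (by linarith)
  have h2 := hP _ hφc hφs
  have h3 := h1.add h2
  rw [add_zero] at h3
  refine h3.congr fun T => ?_
  have hFc := Fr_cont T
  have i1 : Integrable fun β => max 0 (p - |β - (c - 2)|) * Fr T (β + 2) := by
    refine Continuous.integrable_of_hasCompactSupport (by fun_prop) hφs.mul_right
  have i2 : Integrable fun β => max 0 (p - |β - (c - 2)|) * Fr T β := by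
    refine Continuous.integrable_of_hasCompactSupport (by fun_prop) hφs.mul_right
  have e1 : ∫ β, max 0 (p - |β - (c - 2)|) * (Fr T (β + 2) - Fr T β) =
      (∫ β, max 0 (p - |β - (c - 2)|) * Fr T (β + 2)) -
        ∫ β, max 0 (p - |β - (c - 2)|) * Fr T β := by
    rw [← integral_sub i1 i2]
    refine integral_congr_ae (ae_of_all _ fun β => ?_)
    simp only
    ring
  have e2 : ∫ β, max 0 (p - |β - (c - 2)|) * Fr T (β + 2) =
      ∫ α, max 0 (p - |α - c|) * Fr T α := by
    rw [← integral_add_right_eq_self (fun α => max 0 (p - |α - c|) * Fr T α) 2]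
    refine integral_congr_ae (ae_of_all _ fun β => ?_)
    simp only
    congr 4
    ring
  have e3 : ∫ β, max 0 (p - |β - (c - 2)|) * Fr T β =
      ∫ α, max 0 (p - |α - (2 - c)|) * Fr T α := by
    rw [← integral_neg_eq_self]
    refine integral_congr_ae (ae_of_all _ fun β => ?_)
    simp only
    rw [Fr_even]
    congr 3
    rw [← abs_neg]
    congr 1
    ring
  rw [e1, e2, e3]
  ring

lemma mean01' (RH : RiemannHypothesis) (hl : l ≤ atTop) {a b : ℝ} (ha : 0 < a) (hab : a < b)
    (hb : b < 1) : Tendsto (fun T => ∫ α in a..b, Fr T α) l (𝓝 (∫ α in a..b, HH α)) := by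
  have h := (mean01 RH ha hab hb).mono_left hl
  have e : ∫ α in a..b, HH α = ∫ α in a..b, |α| := by
    refine intervalIntegral.integral_congr fun α hα => ?_
    rw [uIcc_of_le hab.le] at hα
    show HH α = |α|
    rw [HH_left (by linarith [hα.1]) (by linarith [hα.2]), abs_of_pos (by linarith [hα.1])]
  rwa [e]

lemma mean12 (RH : RiemannHypothesis) (hl : l ≤ atTop) (hP : PerL l 2) {a b : ℝ} (ha : 1 < a)
    (hab : a < b) (hb : b < 2) :
    Tendsto (fun T => ∫ α in a..b, Fr T α) l (𝓝 (∫ α in a..b, HH α)) := by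
  obtain ⟨c, hc⟩ : ∃ c : ℝ, c = (a + b) / 2 := ⟨_, rfl⟩
  obtain ⟨w, hw⟩ : ∃ w : ℝ, w = (b - a) / 2 := ⟨_, rfl⟩
  have h := mean_of_tents hl hab hc hw (d := 2 - c) (by rw [hc]; linarith)
    (δ₀ := min (2 - b) (a - 1)) (lt_min (by linarith) (by linarith)) (fun p hp hpw => by
      have g1 := (abs_lt.1 hpw).2
      have g2 := min_le_left (2 - b) (a - 1)
      have g3 := min_le_right (2 - b) (a - 1)
      refine tent12 RH hl hP hp ?_ ?_
      · rw [hw] at g1
        rw [hc]
        linarith
      · rw [hw] at g1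
        rw [hc]
        linarith)
  have e : ∫ α in a..b, HH α = 2 * w * (2 - c) := by
    have h1 : ∫ α in a..b, HH α = ∫ α in a..b, (2 - α) := by
      refine intervalIntegral.integral_congr fun α hα => ?_
      rw [uIcc_of_le hab.le] at hα
      exact HH_right (by linarith [hα.1]) (by linarith [hα.2])
    rw [h1, intervalIntegral.integral_sub (by simp) (by simp), integral_id,
      intervalIntegral.integral_const, smul_eq_mul, hw, hc]
    ring
  rwa [e]

/-- no mass at `1` -/
lemma mass_one (RH : RiemannHypothesis) (hl : l ≤ atTop) (hP : PerL l 2)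
    (hJ : Tendsto (Pool.Agent.Y763.AH.JJ 2 (1 / 2)) l (𝓝 (Pool.Agent.Y763.AH.jc 2 (1 / 2))))
    {η : ℝ} (hη : 0 < η) (hη1 : η < 1 / 4) :
    ∀ᶠ T in l, ∫ α in (1 - η)..(1 + η), Fr T α ≤ 8 * η := by
  have hG0 : ∀ᶠ T in l, ∀ α, 0 ≤ Fr T α :=
    hl ((eventually_ge_atTop 10).mono fun T hT α => Fr_nonneg hT α)
  have hfc : Continuous fun α : ℝ => 2 - α := by fun_prop
  have L1 := two_weight (l := l) (G := Fr) (H := HH) (f := fun α => 2 - α)
    (a := 1 / 2) (b := 1 - η) Fr_cont hG0 HH_cont HH_nonneg (by linarith)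
    (fun a' b' h1 h2 h3 => mean01' RH hl (by linarith) h2 (by linarith)) hfc
  have L2 := two_weight (l := l) (G := Fr) (H := HH) (f := fun α => 2 - α)
    (a := 1 + η) (b := 2 - η) Fr_cont hG0 HH_cont HH_nonneg (by linarith)
    (fun a' b' h1 h2 h3 => mean12 RH hl hP (by linarith) h2 (by linarith)) hfc
  -- the values
  have V1 : ∫ α in (1 / 2 : ℝ)..(1 - η), (2 - α) * HH α =
      ((1 - η) ^ 2 - (1 - η) ^ 3 / 3) - ((1 / 2) ^ 2 - (1 / 2) ^ 3 / 3) := by
    have h1 : ∫ α in (1 / 2 : ℝ)..(1 - η), (2 - α) * HH α =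
        ∫ α in (1 / 2 : ℝ)..(1 - η), (2 * α - α ^ 2) := by
      refine intervalIntegral.integral_congr fun α hα => ?_
      rw [uIcc_of_le (by linarith)] at hα
      show (2 - α) * HH α = 2 * α - α ^ 2
      rw [HH_left (by linarith [hα.1]) (by linarith [hα.2])]
      ring
    rw [h1, intervalIntegral.integral_sub (by
      exact (continuous_const.mul continuous_id).intervalIntegrable _ _) (by
      exact (continuous_pow 2).intervalIntegrable _ _), intervalIntegral.integral_const_mul,
      integral_id, integral_pow]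
    norm_num
    ring
  have V2 : ∫ α in (1 + η)..(2 - η), (2 - α) * HH α = (1 - η) ^ 3 / 3 - η ^ 3 / 3 := by
    have h1 : ∫ α in (1 + η)..(2 - η), (2 - α) * HH α =
        ∫ α in (1 + η)..(2 - η), (2 - α) ^ 2 := by
      refine intervalIntegral.integral_congr fun α hα => ?_
      rw [uIcc_of_le (by linarith)] at hα
      show (2 - α) * HH α = (2 - α) ^ 2
      rw [HH_right (by linarith [hα.1]) (by linarith [hα.2])]
      ring
    have h2 : ∫ α in (1 + η)..(2 - η), (2 - α) ^ 2 = ∫ x in (2 - (2 - η))..(2 - (1 + η)), x ^ 2 :=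
      intervalIntegral.integral_comp_sub_left (fun x => x ^ 2) 2
    rw [h1, h2, integral_pow]
    norm_num
    ring
  rw [V1] at L1
  rw [V2] at L2
  have hjc : Pool.Agent.Y763.AH.jc 2 (1 / 2) = 19 / 24 := by
    unfold Pool.Agent.Y763.AH.jc
    norm_num
  rw [hjc] at hJ
  filter_upwards [Metric.tendsto_nhds.1 L1 (η / 8) (by positivity),
    Metric.tendsto_nhds.1 L2 (η / 8) (by positivity), Metric.tendsto_nhds.1 hJ (η / 8) (by positivity),
    hG0] with T h1 h2 h3 h4
  rw [Real.dist_eq] at h1 h2 h3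
  obtain ⟨a1, a2⟩ := abs_lt.1 h1
  obtain ⟨b1, b2⟩ := abs_lt.1 h2
  obtain ⟨c1, c2⟩ := abs_lt.1 h3
  unfold Pool.Agent.Y763.AH.JJ at c1 c2
  have hFc := Fr_cont T
  have cS : Continuous fun α => (2 - α) * Fr T α := by fun_prop
  have ci : ∀ a b : ℝ, IntervalIntegrable (fun α => (2 - α) * Fr T α) volume a b :=
    fun a b => cS.intervalIntegrable a b
  have h5 : ∫ α in (1 / 2 : ℝ)..2, (2 - α) * Fr T α =
      (∫ α in (1 / 2 : ℝ)..(1 - η), (2 - α) * Fr T α) +
      (∫ α in (1 - η)..(1 + η), (2 - α) * Fr T α) +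
      (∫ α in (1 + η)..(2 - η), (2 - α) * Fr T α) + ∫ α in (2 - η)..2, (2 - α) * Fr T α := by
    rw [intervalIntegral.integral_add_adjacent_intervals (ci _ _) (ci _ _),
      intervalIntegral.integral_add_adjacent_intervals (ci _ _) (ci _ _),
      intervalIntegral.integral_add_adjacent_intervals (ci _ _) (ci _ _)]
  have h6 : 0 ≤ ∫ α in (2 - η)..2, (2 - α) * Fr T α := by
    refine intervalIntegral.integral_nonneg (by linarith) fun α hα => ?_
    exact mul_nonneg (by linarith [hα.2]) (h4 α)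
  have h7 : (3 / 4) * ∫ α in (1 - η)..(1 + η), Fr T α ≤
      ∫ α in (1 - η)..(1 + η), (2 - α) * Fr T α := by
    rw [← intervalIntegral.integral_const_mul]
    refine intervalIntegral.integral_mono_on (by linarith)
      ((continuous_const.mul hFc).intervalIntegrable _ _) (ci _ _) fun α hα => ?_
    exact mul_le_mul_of_nonneg_right (by linarith [hα.2]) (h4 α)
  have h8 : (0 : ℝ) ≤ η ^ 3 := by positivity
  have h9 : η ^ 2 ≤ η / 4 := by nlinarith
  nlinarith

lemma mean_le1 (RH : RiemannHypothesis) (hl : l ≤ atTop) (hP : PerL l 2)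
    (hJ : Tendsto (Pool.Agent.Y763.AH.JJ 2 (1 / 2)) l (𝓝 (Pool.Agent.Y763.AH.jc 2 (1 / 2))))
    {a : ℝ} (ha : 0 < a) (ha1 : a < 1) :
    Tendsto (fun T => ∫ α in a..1, Fr T α) l (𝓝 (∫ α in a..1, HH α)) := by
  rw [Metric.tendsto_nhds]
  intro ε hε
  obtain ⟨η, hη⟩ : ∃ η : ℝ, η = min (1 / 8) (min ((1 - a) / 2) (ε / 32)) := ⟨_, rfl⟩
  have hη0 : 0 < η := by
    rw [hη]
    exact lt_min (by norm_num) (lt_min (by linarith) (by positivity))
  have hη1 : η ≤ 1 / 8 := by rw [hη]; exact min_le_left _ _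
  have hη2 : η ≤ (1 - a) / 2 := by rw [hη]; exact (min_le_right _ _).trans (min_le_left _ _)
  have hη3 : η ≤ ε / 32 := by rw [hη]; exact (min_le_right _ _).trans (min_le_right _ _)
  have L := mean01' RH hl ha (b := 1 - η) (by linarith) (by linarith)
  filter_upwards [Metric.tendsto_nhds.1 L (ε / 4) (by positivity),
    mass_one RH hl hP hJ hη0 (by linarith), hl (eventually_ge_atTop 10)] with T h1 h2 h3
  rw [Real.dist_eq] at h1 ⊢
  have hFc := Fr_cont T
  have hF0 := Fr_nonneg h3
  have ci : ∀ a b : ℝ, IntervalIntegrable (Fr T) volume a b := fun a b => hFc.intervalIntegrable a b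
  have cH : ∀ a b : ℝ, IntervalIntegrable HH volume a b := fun a b => HH_cont.intervalIntegrable a b
  have e1 := intervalIntegral.integral_add_adjacent_intervals (ci a (1 - η)) (ci (1 - η) 1)
  have e2 := intervalIntegral.integral_add_adjacent_intervals (cH a (1 - η)) (cH (1 - η) 1)
  have e3 := intervalIntegral.integral_add_adjacent_intervals (ci (1 - η) 1) (ci 1 (1 + η))
  have p1 : 0 ≤ ∫ α in (1 - η)..1, Fr T α :=
    intervalIntegral.integral_nonneg (by linarith) fun α _ => hF0 α
  have p2 : 0 ≤ ∫ α in (1 : ℝ)..(1 + η), Fr T α :=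
    intervalIntegral.integral_nonneg (by linarith) fun α _ => hF0 α
  have p3 : 0 ≤ ∫ α in (1 - η)..1, HH α :=
    intervalIntegral.integral_nonneg (by linarith) fun α _ => HH_nonneg α
  have p4 : ∫ α in (1 - η)..1, HH α ≤ η := by
    have : ∫ α in (1 - η)..1, HH α ≤ ∫ _α in (1 - η)..1, (1 : ℝ) := by
      refine intervalIntegral.integral_mono_on (by linarith) (cH _ _) (by simp) fun α hα => ?_
      rw [HH_left (by linarith [hα.1]) hα.2]
      exact hα.2
    rw [intervalIntegral.integral_const, smul_eq_mul, mul_one] at this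
    linarith
  obtain ⟨k1, k2⟩ := abs_lt.1 h1
  rw [abs_lt]
  constructor <;> linarith

lemma mean_ge1 (RH : RiemannHypothesis) (hl : l ≤ atTop) (hP : PerL l 2)
    (hJ : Tendsto (Pool.Agent.Y763.AH.JJ 2 (1 / 2)) l (𝓝 (Pool.Agent.Y763.AH.jc 2 (1 / 2))))
    {b : ℝ} (hb : 1 < b) (hb2 : b < 2) :
    Tendsto (fun T => ∫ α in (1 : ℝ)..b, Fr T α) l (𝓝 (∫ α in (1 : ℝ)..b, HH α)) := by
  rw [Metric.tendsto_nhds]
  intro ε hε
  obtain ⟨η, hη⟩ : ∃ η : ℝ, η = min (1 / 8) (min ((b - 1) / 2) (ε / 32)) := ⟨_, rfl⟩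
  have hη0 : 0 < η := by
    rw [hη]
    exact lt_min (by norm_num) (lt_min (by linarith) (by positivity))
  have hη1 : η ≤ 1 / 8 := by rw [hη]; exact min_le_left _ _
  have hη2 : η ≤ (b - 1) / 2 := by rw [hη]; exact (min_le_right _ _).trans (min_le_left _ _)
  have hη3 : η ≤ ε / 32 := by rw [hη]; exact (min_le_right _ _).trans (min_le_right _ _)
  have L := mean12 RH hl hP (a := 1 + η) (b := b) (by linarith) (by linarith) hb2
  filter_upwards [Metric.tendsto_nhds.1 L (ε / 4) (by positivity),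
    mass_one RH hl hP hJ hη0 (by linarith), hl (eventually_ge_atTop 10)] with T h1 h2 h3
  rw [Real.dist_eq] at h1 ⊢
  have hFc := Fr_cont T
  have hF0 := Fr_nonneg h3
  have ci : ∀ a b : ℝ, IntervalIntegrable (Fr T) volume a b := fun a b => hFc.intervalIntegrable a b
  have cH : ∀ a b : ℝ, IntervalIntegrable HH volume a b := fun a b => HH_cont.intervalIntegrable a b
  have e1 := intervalIntegral.integral_add_adjacent_intervals (ci 1 (1 + η)) (ci (1 + η) b)
  have e2 := intervalIntegral.integral_add_adjacent_intervals (cH 1 (1 + η)) (cH (1 + η) b)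
  have e3 := intervalIntegral.integral_add_adjacent_intervals (ci (1 - η) 1) (ci 1 (1 + η))
  have p1 : 0 ≤ ∫ α in (1 - η)..1, Fr T α :=
    intervalIntegral.integral_nonneg (by linarith) fun α _ => hF0 α
  have p2 : 0 ≤ ∫ α in (1 : ℝ)..(1 + η), Fr T α :=
    intervalIntegral.integral_nonneg (by linarith) fun α _ => hF0 α
  have p3 : 0 ≤ ∫ α in (1 : ℝ)..(1 + η), HH α :=
    intervalIntegral.integral_nonneg (by linarith) fun α _ => HH_nonneg α
  have p4 : ∫ α in (1 : ℝ)..(1 + η), HH α ≤ η := by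
    have : ∫ α in (1 : ℝ)..(1 + η), HH α ≤ ∫ _α in (1 : ℝ)..(1 + η), (1 : ℝ) := by
      refine intervalIntegral.integral_mono_on (by linarith) (cH _ _) (by simp) fun α hα => ?_
      rw [HH_right hα.1 (by linarith [hα.2])]
      linarith [hα.1]
    rw [intervalIntegral.integral_const, smul_eq_mul, mul_one] at this
    linarith
  obtain ⟨k1, k2⟩ := abs_lt.1 h1
  rw [abs_lt]
  constructor <;> linarith

/-- **the means of the form factor on `(0, 2)`** -/
theorem mean02 (RH : RiemannHypothesis) (hl : l ≤ atTop) (hP : PerL l 2)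
    (hJ : Tendsto (Pool.Agent.Y763.AH.JJ 2 (1 / 2)) l (𝓝 (Pool.Agent.Y763.AH.jc 2 (1 / 2))))
    {a b : ℝ} (ha : 0 < a) (hab : a < b) (hb : b < 2) :
    Tendsto (fun T => ∫ α in a..b, Fr T α) l (𝓝 (∫ α in a..b, HH α)) := by
  rcases lt_trichotomy b 1 with h1 | h1 | h1
  · exact mean01' RH hl ha hab h1
  · subst h1
    exact mean_le1 RH hl hP hJ ha hab
  · rcases lt_trichotomy a 1 with h2 | h2 | h2
    · have g1 := mean_le1 RH hl hP hJ ha h2
      have g2 := mean_ge1 RH hl hP hJ h1 hb
      have g3 := g1.add g2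
      rw [intervalIntegral.integral_add_adjacent_intervals (HH_cont.intervalIntegrable _ _)
        (HH_cont.intervalIntegrable _ _)] at g3
      refine g3.congr fun T => ?_
      exact intervalIntegral.integral_add_adjacent_intervals ((Fr_cont T).intervalIntegrable _ _)
        ((Fr_cont T).intervalIntegrable _ _)
    · subst h2
      exact mean_ge1 RH hl hP hJ h1 hb
    · exact mean12 RH hl hP h2 hab hb

open Classical in
/-- the alternative hypothesis for almost all spacings -/
def AH2 (l : Filter ℝ) : Prop := ∀ ε : ℝ, 0 < ε →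
  Tendsto (fun T => ((Pool.Agent.Y763.AH.BT 2 ε T).card : ℝ) / NZ T) l (𝓝 0)

/-- the weak periodicity -/
lemma AH2_per (RH : RiemannHypothesis) (hl : l ≤ atTop) (h : AH2 l) : PerL l 2 := by
  classical
  have hf : AHf l := by
    intro ε η hε hη
    filter_upwards [(h ε hε).eventually (gt_mem_nhds hη), hl (eventually_ge_atTop 10),
      hl (N_asymp (show (0 : ℝ) < 1 / 2 by norm_num))] with T h1 h2 h3
    have hn := nT_pos h2
    have hN : (0 : ℝ) < NZ T := by linarith [h3.1]
    rw [div_lt_iff₀ hN] at h1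
    refine le_trans (le_of_eq ?_) h1.le
    unfold Pool.Agent.Y763.AH.BT II
    congr 2
    refine Finset.filter_congr fun j _ => ?_
    have hd : H177.Lat.del j = dj j := by
      unfold H177.Lat.del dj gt
      ring
    unfold Pool.Agent.Y763.AH.Bad
    rw [hd]
  exact pair_per hl (sin_pair RH hl (by norm_num) (ah_sin hf))

/-- **the law under the alternative hypothesis** -/
theorem lawAH (RH : RiemannHypothesis) (hl : l ≤ atTop) (h : AH2 l) {θ : ℝ} (hθ : 0 < θ)
    (hθ2 : θ < 2) : Law l θ (HH θ) := by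
  have hP := AH2_per RH hl h
  have hJ : Tendsto (Pool.Agent.Y763.AH.JJ 2 (1 / 2)) l (𝓝 (Pool.Agent.Y763.AH.jc 2 (1 / 2))) :=
    (Pool.Agent.Y763.AH.main RH (by norm_num) (by norm_num) (by norm_num) hl).2 h
  refine law_of_near hl (θ := θ) (δ₀ := min (θ / 2) ((2 - θ) / 2))
    (lt_min (by linarith) (by linarith)) HH_cont HH_nonneg fun a' b' h1 h2 h3 => ?_
  have g1 := min_le_left (θ / 2) ((2 - θ) / 2)
  have g2 := min_le_right (θ / 2) ((2 - θ) / 2)
  exact mean02 RH hl hP hJ (by linarith) h2 (by linarith)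

end Pool.Agent.K9h45.PL
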