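import Pool.Agent.Y749.AH.Excl

/-! # Windows and the form factor -/

set_option autoImplicit false

open MeasureTheory Set Filter Topology

namespace Pool.Agent.K9h45.PL

open Pool.Agent.Y749.Rig
open Pool.Agent.Y749.AH

/-- the modulated window -/
noncomputable def kk (r θ x : ℝ) : ℝ := max 0 (r - |x|) * Real.cos (2 * Real.pi * θ * x)

lemma kk_cont (r θ : ℝ) : Continuous (kk r θ) := by unfold kk; fun_prop

lemma kk_qd {r : ℝ} (hr : 0 < r) (θ : ℝ) : QD (kk r θ) := by
  refine ⟨r * (1 + r ^ 2), fun x => ?_⟩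
  unfold kk
  rw [abs_mul, abs_of_nonneg (le_max_left _ _), le_div_iff₀ (by positivity)]
  have h1 := Real.abs_cos_le_one (2 * Real.pi * θ * x)
  rcases le_or_gt r |x| with h | h
  · rw [max_eq_left (by linarith)]
    simp only [zero_mul]
    positivity
  · rw [max_eq_right (by linarith)]
    have h2 : x ^ 2 ≤ r ^ 2 := by
      rw [← sq_abs x]
      exact pow_le_pow_left₀ (abs_nonneg _) h.le 2
    have h3 : (r - |x|) * |Real.cos (2 * Real.pi * θ * x)| ≤ r * 1 := by
      have h4 := abs_nonneg x
      gcongr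
      linarith
    have h4 : 0 ≤ (r - |x|) * |Real.cos (2 * Real.pi * θ * x)| :=
      mul_nonneg (by linarith) (abs_nonneg _)
    nlinarith

lemma fl_modu' {f : ℝ → ℝ} (hf : Integrable f) (ω x : ℝ) :
    fl (modu ω f) x = Real.cos (2 * Real.pi * ω * x) * fl f x := by
  unfold fl modu
  have hb : ∀ (g : ℝ → ℝ), Integrable g → ∀ c : ℝ,
      Integrable fun α : ℝ => g α * Real.cos (2 * Real.pi * (α + c) * x) := by
    intro g hg c
    refine hg.mul_bdd (c := 1) ?_ (ae_of_all _ fun β => ?_)
    · have : Continuous fun β : ℝ => Real.cos (2 * Real.pi * (β + c) * x) := by fun_prop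
      exact this.aestronglyMeasurable
    · rw [Real.norm_eq_abs]
      exact Real.abs_cos_le_one _
  have i1 : Integrable fun α : ℝ => f (α - ω) * Real.cos (2 * Real.pi * α * x) := by
    have := hb _ (hf.comp_sub_right ω) 0
    simpa using this
  have i2 : Integrable fun α : ℝ => f (α + ω) * Real.cos (2 * Real.pi * α * x) := by
    have := hb _ (hf.comp_add_right ω) 0
    simpa using this
  have e1 : ∫ α, f (α - ω) * Real.cos (2 * Real.pi * α * x) =
      ∫ β, f β * Real.cos (2 * Real.pi * (β + ω) * x) := by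
    rw [← integral_sub_right_eq_self (fun β => f β * Real.cos (2 * Real.pi * (β + ω) * x)) ω]
    refine integral_congr_ae (ae_of_all _ fun α => ?_)
    simp only
    rw [sub_add_cancel]
  have e2 : ∫ α, f (α + ω) * Real.cos (2 * Real.pi * α * x) =
      ∫ β, f β * Real.cos (2 * Real.pi * (β + -ω) * x) := by
    rw [← integral_add_right_eq_self (fun β => f β * Real.cos (2 * Real.pi * (β + -ω) * x)) ω]
    refine integral_congr_ae (ae_of_all _ fun α => ?_)
    simp only
    rw [add_neg_cancel_right]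
  have e3 : ∀ α, (f (α - ω) + f (α + ω)) / 2 * Real.cos (2 * Real.pi * α * x) =
      (1 / 2) * (f (α - ω) * Real.cos (2 * Real.pi * α * x)) +
      (1 / 2) * (f (α + ω) * Real.cos (2 * Real.pi * α * x)) := fun α => by ring
  simp_rw [e3]
  rw [integral_add (i1.const_mul _) (i2.const_mul _), integral_const_mul, integral_const_mul, e1, e2,
    ← integral_const_mul, ← integral_const_mul, ← integral_add ((hb f hf ω).const_mul _)
      ((hb f hf (-ω)).const_mul _), ← integral_const_mul]
  refine integral_congr_ae (ae_of_all _ fun α => ?_)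
  simp only
  have h1 := Real.cos_add (2 * Real.pi * α * x) (2 * Real.pi * ω * x)
  have h2 := Real.cos_sub (2 * Real.pi * α * x) (2 * Real.pi * ω * x)
  rw [show 2 * Real.pi * (α + ω) * x = 2 * Real.pi * α * x + 2 * Real.pi * ω * x by ring,
    show 2 * Real.pi * (α + -ω) * x = 2 * Real.pi * α * x - 2 * Real.pi * ω * x by ring, h1, h2]
  ring

/-- the form factor is bounded -/
lemma Fr_bd (T : ℝ) : ∃ M : ℝ, ∀ α, |Fr T α| ≤ M := by
  have := Mp_fin T
  refine ⟨1 * (Mp T).real univ, fun α => ?_⟩
  unfold Fr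
  rw [← Real.norm_eq_abs]
  refine norm_integral_le_of_norm_le_const (ae_of_all _ fun x => ?_)
  rw [norm_mul, Real.norm_eq_abs, Real.norm_eq_abs, abs_of_pos (ww_pos _)]
  have h1 := Real.abs_cos_le_one (2 * Real.pi * α * x)
  have h2 := ww_le (2 * Real.pi * x / Real.log T)
  have h3 := ww_pos (2 * Real.pi * x / Real.log T)
  nlinarith [abs_nonneg (Real.cos (2 * Real.pi * α * x))]

lemma int_Fr {f : ℝ → ℝ} (hf : Integrable f) (T : ℝ) : Integrable fun α => f α * Fr T α := by
  obtain ⟨M, hM⟩ := Fr_bd T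
  exact hf.mul_bdd (c := M) (Fr_cont T).aestronglyMeasurable (ae_of_all _ fun α => hM α)

/-- the pairing with a shifted even function -/
lemma modu_pair' {f : ℝ → ℝ} (hf : Integrable f) (he : ∀ x, f (-x) = f x) (θ T : ℝ) :
    ∫ α, modu θ f α * Fr T α = ∫ α, f (α - θ) * Fr T α := by
  have i1 := int_Fr (hf.comp_sub_right θ) T
  have i2 := int_Fr (hf.comp_add_right θ) T
  have e1 : ∫ α, f (α + θ) * Fr T α = ∫ α, f (α - θ) * Fr T α := by
    rw [← integral_neg_eq_self]
    refine integral_congr_ae (ae_of_all _ fun α => ?_)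
    show f (-α + θ) * Fr T (-α) = _
    rw [Fr_even, show -α + θ = -(α - θ) by ring, he]
  have e2 : ∀ α, modu θ f α * Fr T α = (1 / 2) * (f (α - θ) * Fr T α) +
      (1 / 2) * (f (α + θ) * Fr T α) := by
    intro α
    unfold modu
    ring
  simp_rw [e2]
  rw [integral_add (i1.const_mul _) (i2.const_mul _), integral_const_mul, integral_const_mul, e1]
  ring

/-- the transform of the window -/
noncomputable def sk (r y : ℝ) : ℝ := r ^ 2 * fl (tr r) y

lemma sk_int {r : ℝ} (hr : 0 < r) : Integrable (sk r) := (fl_int (adm_tr hr)).const_mul _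

lemma sk_cont {r : ℝ} (hr : 0 < r) : Continuous (sk r) :=
  continuous_const.mul (fl_cont (tr_int hr))

lemma sk_even (r x : ℝ) : sk r (-x) = sk r x := by unfold sk; rw [fl_even]

lemma sk_nonneg {r : ℝ} (hr : 0 < r) (x : ℝ) : 0 ≤ sk r x := by
  have := fl_tr_nonneg hr x
  unfold sk
  positivity

lemma sk_total {r : ℝ} (hr : 0 < r) : ∫ x, sk r x = r := by
  unfold sk
  rw [integral_const_mul, int_fl (adm_tr hr)]
  unfold tr
  rw [abs_zero, zero_div, sub_zero, max_eq_right zero_le_one]
  field_simp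

lemma fl_sk {r : ℝ} (hr : 0 < r) (x : ℝ) : fl (sk r) x = max 0 (r - |x|) := by
  have h1 : fl (sk r) x = r ^ 2 * fl (fl (tr r)) x := by
    unfold fl sk
    rw [← integral_const_mul]
    refine integral_congr_ae (ae_of_all _ fun α => ?_)
    simp only
    unfold fl
    ring
  rw [h1, inv_four (adm_tr hr), Pool.Agent.Y749.Rig.tent_eq hr]

lemma kk_eq {r : ℝ} (hr : 0 < r) (θ x : ℝ) : fl (modu θ (sk r)) x = kk r θ x := by
  rw [fl_modu' (sk_int hr), fl_sk hr, mul_comm]
  rfl

/-- the windows and the form factor -/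
lemma kk_pair {r : ℝ} (hr : 0 < r) (θ : ℝ) :
    Tendsto (fun T => (∫ α, sk r (α - θ) * Fr T α) - ∫ x, kk r θ x ∂(Mp T)) atTop (𝓝 0) := by
  refine (ww_remove (kk_cont r θ) (kk_qd hr θ)).congr fun T => ?_
  have hm : Integrable (modu θ (sk r)) := by
    unfold modu
    exact (((sk_int hr).comp_sub_right θ).add ((sk_int hr).comp_add_right θ)).div_const 2
  rw [← modu_pair' (sk_int hr) (sk_even r) θ T, Fr_pair hm]
  simp_rw [kk_eq hr]

/-- the decay of the transform -/
lemma sk_dec {r y δ : ℝ} (hr : 0 < r) (hδ : 0 < δ) (hy : δ ≤ |y|) :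
    sk r y ≤ (1 + 1 / δ ^ 2) * (1 / (1 + y ^ 2)) := by
  have hy0 : y ≠ 0 := by
    rintro rfl
    rw [abs_zero] at hy
    linarith
  unfold sk
  rw [fl_tr hr hy0]
  have hpi3 := Real.pi_gt_three
  have h1 := Real.sin_sq_le_one (Real.pi * r * y)
  have h2 : 0 < y ^ 2 := by positivity
  have h3 : δ ^ 2 ≤ y ^ 2 := by
    rw [← sq_abs y]
    exact pow_le_pow_left₀ hδ.le hy 2
  have e1 : r ^ 2 * (Real.sin (Real.pi * r * y) / (Real.pi * r * y)) ^ 2 =
      Real.sin (Real.pi * r * y) ^ 2 / (Real.pi ^ 2 * y ^ 2) := by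
    field_simp
  rw [e1]
  calc Real.sin (Real.pi * r * y) ^ 2 / (Real.pi ^ 2 * y ^ 2) ≤ 1 / (1 * y ^ 2) := by
        gcongr
        nlinarith
    _ = (1 + y ^ 2) / y ^ 2 * (1 / (1 + y ^ 2)) := by
        field_simp
    _ ≤ (1 + 1 / δ ^ 2) * (1 / (1 + y ^ 2)) := by
        gcongr
        have : (1 + y ^ 2) / y ^ 2 = 1 + 1 / y ^ 2 := by
          field_simp
          ring
        rw [this]
        gcongr

/-- the form factor as a measure -/
noncomputable def mF (T : ℝ) : Measure ℝ := volume.withDensity fun α => ENNReal.ofReal (Fr T α)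

/-- the form factor has bounded mass on intervals of length one -/
theorem mass_bdd : ∃ C : ℝ, 0 ≤ C ∧ ∀ᶠ T in atTop, Bdd C (mF T) := by
  obtain ⟨C, hC, hB⟩ := Mp_bdd
  obtain ⟨B, hB2⟩ := fl_bound (adm_tr (show (0 : ℝ) < 2 by norm_num))
  have hB0 : 0 ≤ B := by
    have := (abs_nonneg _).trans (hB2 0)
    simpa using this
  have hD := DD_nonneg 0
  refine ⟨4 * (B * (2 * C * DD 0)), by positivity, ?_⟩
  filter_upwards [hB, eventually_ge_atTop 10] with T hT hT10
  intro a
  have hC0 : 0 ≤ C := by linarith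
  have hfin := Mp_fin T
  have hF0 := Fr_nonneg hT10
  have hFc := Fr_cont T
  have h2 : (0 : ℝ) < 2 := by norm_num
  obtain ⟨c, hc⟩ : ∃ c : ℝ, c = a + 1 / 2 := ⟨_, rfl⟩
  -- the tent
  have h1 : ∫ α, tr 2 (α - c) * Fr T α ≤ B * (2 * C * DD 0) := by
    rw [← modu_pair (adm_tr h2), Fr_pair (adm_modu (adm_tr h2) c).int]
    have i0 : Integrable (fun x : ℝ => 1 / (1 + x ^ 2)) (Mp T) := by
      refine Bdd.integrable hC0 hT ?_ ⟨1, fun x => ?_⟩
      · exact continuous_const.div (by fun_prop) fun x => by positivity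
      · rw [abs_of_pos (by positivity)]
    have i1 : Integrable (fun x => fl (modu c (tr 2)) x * ww (2 * Real.pi * x / Real.log T))
        (Mp T) := by
      have i2 : Integrable (fl (modu c (tr 2))) (Mp T) :=
        Bdd.integrable hC0 hT (fl_cont (adm_modu (adm_tr h2) c).int) (fl_qd (adm_modu (adm_tr h2) c))
      refine i2.mul_bdd (c := 1) ?_ (ae_of_all _ fun x => ?_)
      · have := ww_cont
        have h5 : Continuous fun x : ℝ => ww (2 * Real.pi * x / Real.log T) := by fun_prop
        exact h5.aestronglyMeasurable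
      · rw [Real.norm_eq_abs, abs_of_pos (ww_pos _)]
        exact ww_le _
    calc ∫ x, fl (modu c (tr 2)) x * ww (2 * Real.pi * x / Real.log T) ∂(Mp T) ≤
        ∫ x, B * (1 / (1 + x ^ 2)) ∂(Mp T) := by
          refine integral_mono i1 (i0.const_mul _) fun x => ?_
          simp only
          rw [fl_modu (adm_tr h2)]
          have g1 := hB2 x
          have g2 := ww_le (2 * Real.pi * x / Real.log T)
          have g3 := ww_pos (2 * Real.pi * x / Real.log T)
          have g4 := Real.abs_cos_le_one (2 * Real.pi * c * x)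
          have g5 : fl (tr 2) x * Real.cos (2 * Real.pi * c * x) *
              ww (2 * Real.pi * x / Real.log T) ≤
              |fl (tr 2) x| * |Real.cos (2 * Real.pi * c * x)| * ww (2 * Real.pi * x / Real.log T) := by
            rw [← abs_mul]
            exact mul_le_mul_of_nonneg_right (le_abs_self _) g3.le
          have g6 : |fl (tr 2) x| * |Real.cos (2 * Real.pi * c * x)| *
              ww (2 * Real.pi * x / Real.log T) ≤ |fl (tr 2) x| * 1 * 1 := by
            gcongr
          rw [mul_one, mul_one] at g6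
          rw [mul_one_div]
          linarith
      _ = B * ∫ x, 1 / (1 + x ^ 2) ∂(Mp T) := integral_const_mul _ _
      _ ≤ B * (2 * C * DD 0) := by
          have g1 := lint_le hC0 hT 0
          have g2 : {x : ℝ | ((0 : ℕ) : ℝ) ≤ |x|} = univ := by
            ext x; simp
          rw [g2, setLIntegral_univ] at g1
          have g3 : ∫ x, 1 / (1 + x ^ 2) ∂(Mp T) ≤ 2 * C * DD 0 := by
            rw [integral_eq_lintegral_of_nonneg_ae (ae_of_all _ fun x => by positivity)
              i0.aestronglyMeasurable]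
            exact ENNReal.toReal_le_of_le_ofReal (by positivity) g1
          gcongr
  -- the interval
  unfold mF
  rw [withDensity_apply _ measurableSet_Icc]
  have i3 : IntegrableOn (Fr T) (Icc a (a + 1)) := hFc.continuousOn.integrableOn_Icc
  rw [← ofReal_integral_eq_lintegral_ofReal i3 (ae_of_all _ fun x => hF0 x)]
  apply ENNReal.ofReal_le_ofReal
  have i4 : Integrable fun α => tr 2 (α - c) * Fr T α := int_Fr ((tr_int h2).comp_sub_right c) T
  calc ∫ α in Icc a (a + 1), Fr T α ≤ ∫ α in Icc a (a + 1), 4 * (tr 2 (α - c) * Fr T α) := by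
        refine setIntegral_mono_on i3 (i4.const_mul 4).integrableOn measurableSet_Icc fun α hα => ?_
        have g1 : 1 ≤ 4 * tr 2 (α - c) := by
          unfold tr
          have g2 : |α - c| ≤ 1 := by
            rw [abs_le, hc]
            constructor <;> linarith [hα.1, hα.2]
          rw [max_eq_right (by linarith)]
          linarith
        nlinarith [hF0 α]
    _ ≤ ∫ α, 4 * (tr 2 (α - c) * Fr T α) :=
        setIntegral_le_integral (i4.const_mul 4) (ae_of_all _ fun α => by
          have := tr_nonneg h2 (α - c)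
          have := hF0 α
          positivity)
    _ = 4 * ∫ α, tr 2 (α - c) * Fr T α := integral_const_mul _ _
    _ ≤ _ := by linarith

lemma inv_int' (θ : ℝ) : Integrable fun α : ℝ => 1 / (1 + (α - θ) ^ 2) := by
  exact int_inv.comp_sub_right θ

/-- the form factor against the Cauchy kernel -/
theorem cauchy_bdd : ∃ W : ℝ, 0 ≤ W ∧ ∀ᶠ T in atTop, ∀ θ : ℝ,
    ∫ α, 1 / (1 + (α - θ) ^ 2) * Fr T α ≤ W := by
  obtain ⟨C, hC, hB⟩ := mass_bdd
  have hD := DD_nonneg 0
  refine ⟨2 * C * DD 0, by positivity, ?_⟩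
  filter_upwards [hB, eventually_ge_atTop 10] with T hT hT10
  intro θ
  have hF0 := Fr_nonneg hT10
  have hFc := Fr_cont T
  have g1 := lint_le hC (bdd_map hT θ) 0
  have g2 : {x : ℝ | ((0 : ℕ) : ℝ) ≤ |x|} = univ := by
    ext x; simp
  rw [g2, setLIntegral_univ, lintegral_map (by fun_prop) (by fun_prop)] at g1
  unfold mF at g1
  rw [lintegral_withDensity_eq_lintegral_mul _ (by fun_prop) (by fun_prop)] at g1
  rw [integral_eq_lintegral_of_nonneg_ae (ae_of_all _ fun x => mul_nonneg (by positivity) (hF0 x))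
    (int_Fr (inv_int' θ) T).aestronglyMeasurable]
  refine ENNReal.toReal_le_of_le_ofReal (by positivity) (le_trans (le_of_eq ?_) g1)
  refine lintegral_congr fun x => ?_
  rw [Pi.mul_apply, mul_comm (ENNReal.ofReal (Fr T x)), ← ENNReal.ofReal_mul (by positivity)]

end Pool.Agent.K9h45.PL
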