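import Pool.Agent.K9h45.PL.Ana

/-! # The mean squares over windows in the known range of the form factor -/

set_option autoImplicit false

open MeasureTheory Set Filter Topology

namespace Pool.Agent.K9h45.PL

open Pool.Agent.Y749.Rig
open Pool.Agent.Y749.AH

/-- tents in the known range -/
lemma tent01 (RH : RiemannHypothesis) {p c : ℝ} (hp : 0 < p) (hpc : p ≤ c) (hc : c + p < 1) :
    Tendsto (fun T => ∫ α, max 0 (p - |α - c|) * Fr T α) atTop (𝓝 (p ^ 2 * c)) := by
  have hc0 : 0 < c := by linarith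
  have h := (Pool.Agent.Y749.AH.tent_lim RH hp (c := c) (by rw [abs_of_pos hc0]; exact hpc)
    (by rw [abs_of_pos hc0]; exact hc)).const_mul (p ^ 2)
  rw [abs_of_pos hc0] at h
  refine h.congr fun T => ?_
  rw [← integral_const_mul]
  refine integral_congr_ae (ae_of_all _ fun α => ?_)
  simp only
  rw [← Pool.Agent.Y749.Rig.tent_eq hp]
  ring

lemma tent_Fr_int (p c T : ℝ) : Integrable fun α => max 0 (p - |α - c|) * Fr T α := by
  apply int_Fr
  refine Continuous.integrable_of_hasCompactSupport (by fun_prop) ?_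
  refine HasCompactSupport.of_support_subset_isCompact (isCompact_Icc (a := c - |p|) (b := c + |p|)) ?_
  intro x hx
  by_contra hcon
  apply hx
  have h1 : |p| < |x - c| := by
    by_contra h2
    push Not at h2
    apply hcon
    rw [abs_le] at h2
    exact ⟨by linarith [h2.1], by linarith [h2.2]⟩
  have := le_abs_self p
  exact max_eq_left (by linarith)

/-- the means of the form factor in the known range -/
theorem mean01 (RH : RiemannHypothesis) {a b : ℝ} (ha : 0 < a) (hab : a < b) (hb : b < 1) :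
    Tendsto (fun T => ∫ α in a..b, Fr T α) atTop (𝓝 (∫ α in a..b, |α|)) := by
  obtain ⟨c, hc⟩ : ∃ c : ℝ, c = (a + b) / 2 := ⟨_, rfl⟩
  obtain ⟨w, hw⟩ : ∃ w : ℝ, w = (b - a) / 2 := ⟨_, rfl⟩
  have hc0 : 0 < c := by rw [hc]; linarith
  have hc1 : c < 1 := by rw [hc]; linarith
  have hw0 : 0 < w := by rw [hw]; linarith
  have hval : ∫ α in a..b, |α| = 2 * w * c := by
    have h1 : ∫ α in a..b, |α| = ∫ α in a..b, α := by
      refine intervalIntegral.integral_congr fun α hα => ?_
      rw [uIcc_of_le hab.le] at hα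
      exact abs_of_pos (by linarith [hα.1])
    rw [h1, integral_id, hw, hc]
    ring
  rw [hval, Metric.tendsto_nhds]
  intro ε hε
  obtain ⟨δ, hδ⟩ : ∃ δ : ℝ, δ = min (w / 2) (min a (min ((1 - b) / 2) (ε / 4))) := ⟨_, rfl⟩
  have hδ0 : 0 < δ := by
    rw [hδ]
    exact lt_min (by positivity) (lt_min ha (lt_min (by linarith) (by positivity)))
  have hδ1 : δ ≤ w / 2 := by rw [hδ]; exact min_le_left _ _
  have hδ2 : δ ≤ a := by rw [hδ]; exact (min_le_right _ _).trans (min_le_left _ _)
  have hδ3 : δ ≤ (1 - b) / 2 := by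
    rw [hδ]; exact (min_le_right _ _).trans ((min_le_right _ _).trans (min_le_left _ _))
  have hδ4 : δ ≤ ε / 4 := by
    rw [hδ]; exact (min_le_right _ _).trans ((min_le_right _ _).trans (min_le_right _ _))
  have hcw : c - w = a := by rw [hc, hw]; ring
  have hcw' : c + w = b := by rw [hc, hw]; ring
  have t1 := tent01 RH (p := w + δ) (c := c) (by linarith) (by linarith) (by linarith)
  have t2 := tent01 RH (p := w) (c := c) hw0 (by linarith) (by linarith)
  have t3 := tent01 RH (p := w - δ) (c := c) (by linarith) (by linarith) (by linarith)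
  have u1 := (t1.sub t2).const_mul (1 / δ)
  have u2 := (t2.sub t3).const_mul (1 / δ)
  have e1 : 1 / δ * ((w + δ) ^ 2 * c - w ^ 2 * c) = 2 * w * c + δ * c := by
    field_simp
    ring
  have e2 : 1 / δ * (w ^ 2 * c - (w - δ) ^ 2 * c) = 2 * w * c - δ * c := by
    field_simp
    ring
  rw [e1] at u1
  rw [e2] at u2
  have hδc : δ * c ≤ ε / 4 := by nlinarith
  filter_upwards [u1.eventually (gt_mem_nhds (show 2 * w * c + δ * c < 2 * w * c + ε / 2 by linarith)),
    u2.eventually (lt_mem_nhds (show 2 * w * c - ε / 2 < 2 * w * c - δ * c by linarith)),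
    eventually_ge_atTop 10] with T h1 h2 h3
  have hF0 := Fr_nonneg h3
  have hFc := Fr_cont T
  have iF : IntegrableOn (Fr T) (Ioc a b) := hFc.continuousOn.integrableOn_Icc.mono_set
    Ioc_subset_Icc_self
  have mx : ∀ x y : ℝ, x ≤ y → max 0 x ≤ max 0 y := fun x y h => max_le_max le_rfl h
  -- upper bound
  have up : ∫ α in a..b, Fr T α ≤ 1 / δ * ((∫ α, max 0 (w + δ - |α - c|) * Fr T α) -
      ∫ α, max 0 (w - |α - c|) * Fr T α) := by
    rw [← integral_sub (tent_Fr_int _ _ _) (tent_Fr_int _ _ _), ← integral_const_mul,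
      intervalIntegral.integral_of_le hab.le]
    have iG : Integrable fun α => 1 / δ * (max 0 (w + δ - |α - c|) * Fr T α -
        max 0 (w - |α - c|) * Fr T α) :=
      ((tent_Fr_int _ _ _).sub (tent_Fr_int _ _ _)).const_mul _
    refine le_trans ?_ (setIntegral_le_integral (s := Ioc a b) iG (ae_of_all _ fun α => ?_))
    · refine setIntegral_mono_on iF iG.integrableOn measurableSet_Ioc fun α hα => ?_
      have g1 : |α - c| ≤ w := by
        rw [abs_le]
        constructor <;> linarith [hα.1, hα.2]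
      rw [max_eq_right (by linarith), max_eq_right (by linarith)]
      apply le_of_eq
      field_simp
      ring
    · show 0 ≤ 1 / δ * (max 0 (w + δ - |α - c|) * Fr T α - max 0 (w - |α - c|) * Fr T α)
      rw [← sub_mul]
      have := mx (w - |α - c|) (w + δ - |α - c|) (by linarith)
      exact mul_nonneg (by positivity) (mul_nonneg (by linarith) (hF0 α))
  -- lower bound
  have low : 1 / δ * ((∫ α, max 0 (w - |α - c|) * Fr T α) -
      ∫ α, max 0 (w - δ - |α - c|) * Fr T α) ≤ ∫ α in a..b, Fr T α := by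
    rw [← integral_sub (tent_Fr_int _ _ _) (tent_Fr_int _ _ _), ← integral_const_mul,
      intervalIntegral.integral_of_le hab.le]
    have iG : Integrable fun α => 1 / δ * (max 0 (w - |α - c|) * Fr T α -
        max 0 (w - δ - |α - c|) * Fr T α) :=
      ((tent_Fr_int _ _ _).sub (tent_Fr_int _ _ _)).const_mul _
    rw [← setIntegral_eq_integral_of_forall_compl_eq_zero (s := Ioc a b)]
    · refine setIntegral_mono_on iG.integrableOn iF measurableSet_Ioc fun α hα => ?_
      rw [← sub_mul, ← mul_assoc]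
      have g1 : |α - c| ≤ w := by
        rw [abs_le]
        constructor <;> linarith [hα.1, hα.2]
      have g2 : 1 / δ * (max 0 (w - |α - c|) - max 0 (w - δ - |α - c|)) ≤ 1 := by
        rw [one_div, inv_mul_le_iff₀ hδ0, mul_one]
        rw [max_eq_right (by linarith : (0 : ℝ) ≤ w - |α - c|)]
        linarith [le_max_right 0 (w - δ - |α - c|)]
      calc _ ≤ 1 * Fr T α := mul_le_mul_of_nonneg_right g2 (hF0 α)
        _ = Fr T α := one_mul _
    · intro α hα
      have g1 : w ≤ |α - c| := by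
        by_contra hcon
        push Not at hcon
        rw [abs_lt] at hcon
        apply hα
        exact ⟨by linarith [hcon.1], by linarith [hcon.2]⟩
      rw [max_eq_left (by linarith), max_eq_left (by linarith)]
      ring
  rw [Real.dist_eq, abs_lt]
  constructor <;> linarith

/-- the mean square over long windows is asymptotic to `c r` -/
def Law (l : Filter ℝ) (θ c : ℝ) : Prop := ∀ ε : ℝ, 0 < ε → ∃ K : ℝ, 0 ≤ K ∧ ∀ r : ℝ, 0 < r →
  ∀ᶠ T in l, |(∫ x, kk r θ x ∂(Mp T)) - c * r| ≤ ε * r + K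

lemma inv_total : ∫ x : ℝ, 1 / (1 + x ^ 2) = Real.pi := by
  have := integral_univ_inv_one_add_sq
  simp only [one_div]
  exact this

/-- the part of the pairing away from `θ` -/
lemma out_le {r δ W T θ : ℝ} (hr : 0 < r) (hδ : 0 < δ) (hT : 10 ≤ T)
    (hW : ∀ θ : ℝ, ∫ α, 1 / (1 + (α - θ) ^ 2) * Fr T α ≤ W) :
    0 ≤ ∫ α in (Ioc (θ - δ) (θ + δ))ᶜ, sk r (α - θ) * Fr T α ∧
    ∫ α in (Ioc (θ - δ) (θ + δ))ᶜ, sk r (α - θ) * Fr T α ≤ (1 + 1 / δ ^ 2) * W := by
  have hF0 := Fr_nonneg hT
  have iS := int_Fr ((sk_int hr).comp_sub_right θ) T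
  have iI := int_Fr (inv_int' θ) T
  refine ⟨integral_nonneg fun α => mul_nonneg (sk_nonneg hr _) (hF0 α), ?_⟩
  calc ∫ α in (Ioc (θ - δ) (θ + δ))ᶜ, sk r (α - θ) * Fr T α ≤
      ∫ α in (Ioc (θ - δ) (θ + δ))ᶜ, (1 + 1 / δ ^ 2) * (1 / (1 + (α - θ) ^ 2) * Fr T α) := by
        refine setIntegral_mono_on iS.integrableOn (iI.const_mul _).integrableOn
          measurableSet_Ioc.compl fun α hα => ?_
        rw [← mul_assoc]
        apply mul_le_mul_of_nonneg_right _ (hF0 α)
        apply sk_dec hr hδ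
        by_contra hcon
        push Not at hcon
        rw [abs_lt] at hcon
        apply hα
        exact ⟨by linarith [hcon.1], by linarith [hcon.2]⟩
    _ ≤ ∫ α, (1 + 1 / δ ^ 2) * (1 / (1 + (α - θ) ^ 2) * Fr T α) :=
        setIntegral_le_integral (iI.const_mul _) (ae_of_all _ fun α => by
          have := hF0 α
          positivity)
    _ = (1 + 1 / δ ^ 2) * ∫ α, 1 / (1 + (α - θ) ^ 2) * Fr T α := integral_const_mul _ _
    _ ≤ _ := by
        apply mul_le_mul_of_nonneg_left (hW θ)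
        positivity

/-- local knowledge of the form factor implies the law -/
theorem law_of_near {l : Filter ℝ} (hl : l ≤ atTop) {θ δ₀ : ℝ} (hδ₀ : 0 < δ₀) {H : ℝ → ℝ}
    (hH : Continuous H) (hH0 : ∀ α, 0 ≤ H α)
    (hn : ∀ a' b' : ℝ, θ - δ₀ ≤ a' → a' < b' → b' ≤ θ + δ₀ →
      Tendsto (fun T => ∫ α in a'..b', Fr T α) l (𝓝 (∫ α in a'..b', H α))) :
    Law l θ (H θ) := by
  intro ε hε
  obtain ⟨W, hW0, hW⟩ := cauchy_bdd
  have hpi := Real.pi_pos
  -- continuity
  obtain ⟨δ₁, hδ₁, hcont⟩ := Metric.continuous_iff.1 hH θ (ε / 2) (by positivity)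
  obtain ⟨δ, hδ⟩ : ∃ δ : ℝ, δ = min δ₀ (δ₁ / 2) := ⟨_, rfl⟩
  have hδ0 : 0 < δ := by rw [hδ]; exact lt_min hδ₀ (by positivity)
  have hδa : δ ≤ δ₀ := by rw [hδ]; exact min_le_left _ _
  have hδb : δ < δ₁ := by
    have : δ ≤ δ₁ / 2 := by rw [hδ]; exact min_le_right _ _
    linarith
  have hθ0 := hH0 θ
  refine ⟨H θ * ((1 + 1 / δ ^ 2) * Real.pi) + (1 + 1 / δ ^ 2) * W + 1, by positivity,
    fun r hr => ?_⟩
  have hle : θ - δ ≤ θ + δ := by linarith
  have hskc : Continuous fun α => sk r (α - θ) := (sk_cont hr).comp (by fun_prop)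
  have hG0 : ∀ᶠ T in l, ∀ α, 0 ≤ Fr T α :=
    hl ((eventually_ge_atTop 10).mono fun T hT α => Fr_nonneg hT α)
  have lim := two_weight (l := l) (G := Fr) (H := H) (f := fun α => sk r (α - θ))
    (a := θ - δ) (b := θ + δ) Fr_cont hG0 hH hH0 (by linarith)
    (fun a' b' h1 h2 h3 => hn a' b' (by linarith) h2 (by linarith)) hskc
  -- the limit
  obtain ⟨J, hJ⟩ : ∃ J : ℝ, J = ∫ α in (θ - δ)..(θ + δ), sk r (α - θ) * H α := ⟨_, rfl⟩
  rw [← hJ] at lim
  have isk := (sk_int hr).comp_sub_right θ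
  have tot : ∫ α, sk r (α - θ) = r := by
    rw [integral_sub_right_eq_self (sk r) θ, sk_total hr]
  obtain ⟨I, hI⟩ : ∃ I : ℝ, I = ∫ α in (θ - δ)..(θ + δ), sk r (α - θ) := ⟨_, rfl⟩
  have hIr : 0 ≤ r - I ∧ r - I ≤ (1 + 1 / δ ^ 2) * Real.pi := by
    have h1 := integral_add_compl (μ := volume) (s := Ioc (θ - δ) (θ + δ)) measurableSet_Ioc isk
    rw [tot, ← intervalIntegral.integral_of_le hle, ← hI] at h1
    have h2 : r - I = ∫ α in (Ioc (θ - δ) (θ + δ))ᶜ, sk r (α - θ) := by linarith
    rw [h2]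
    refine ⟨integral_nonneg fun α => sk_nonneg hr _, ?_⟩
    calc ∫ α in (Ioc (θ - δ) (θ + δ))ᶜ, sk r (α - θ) ≤
        ∫ α in (Ioc (θ - δ) (θ + δ))ᶜ, (1 + 1 / δ ^ 2) * (1 / (1 + (α - θ) ^ 2)) := by
          refine setIntegral_mono_on isk.integrableOn ((inv_int' θ).const_mul _).integrableOn
            measurableSet_Ioc.compl fun α hα => ?_
          apply sk_dec hr hδ0
          by_contra hcon
          push Not at hcon
          rw [abs_lt] at hcon
          apply hα
          exact ⟨by linarith [hcon.1], by linarith [hcon.2]⟩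
      _ ≤ ∫ α, (1 + 1 / δ ^ 2) * (1 / (1 + (α - θ) ^ 2)) :=
          setIntegral_le_integral ((inv_int' θ).const_mul _) (ae_of_all _ fun α => by positivity)
      _ = (1 + 1 / δ ^ 2) * Real.pi := by
          rw [integral_const_mul, integral_sub_right_eq_self (fun x : ℝ => 1 / (1 + x ^ 2)) θ,
            inv_total]
  have hJI : |J - H θ * I| ≤ ε / 2 * r := by
    have c1 : Continuous fun α => sk r (α - θ) * H α := hskc.mul hH
    have c2 : Continuous fun α => H θ * sk r (α - θ) := continuous_const.mul hskc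
    have h1 : J - H θ * I = ∫ α in (θ - δ)..(θ + δ), sk r (α - θ) * (H α - H θ) := by
      rw [hJ, hI, ← intervalIntegral.integral_const_mul,
        ← intervalIntegral.integral_sub (c1.intervalIntegrable _ _) (c2.intervalIntegrable _ _)]
      refine intervalIntegral.integral_congr fun x _ => ?_
      ring
    have h2 : |∫ α in (θ - δ)..(θ + δ), sk r (α - θ) * (H α - H θ)| ≤
        ∫ α in (θ - δ)..(θ + δ), ε / 2 * sk r (α - θ) := by
      refine (intervalIntegral.abs_integral_le_integral_abs hle).trans ?_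
      have c3 : Continuous fun α => |sk r (α - θ) * (H α - H θ)| :=
        (hskc.mul (hH.sub continuous_const)).abs
      have c4 : Continuous fun α => ε / 2 * sk r (α - θ) := continuous_const.mul hskc
      refine intervalIntegral.integral_mono_on hle (c3.intervalIntegrable _ _)
        (c4.intervalIntegrable _ _) fun α hα => ?_
      rw [abs_mul, abs_of_nonneg (sk_nonneg hr _), mul_comm]
      apply mul_le_mul_of_nonneg_right _ (sk_nonneg hr _)
      have h3 := hcont α (by
        rw [Real.dist_eq]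
        refine lt_of_le_of_lt (abs_le.2 ⟨?_, ?_⟩) hδb
        · linarith [hα.1]
        · linarith [hα.2])
      rw [Real.dist_eq] at h3
      exact h3.le
    rw [h1]
    refine h2.trans ?_
    rw [intervalIntegral.integral_const_mul, ← hI]
    have : I ≤ r := by linarith [hIr.1]
    gcongr
  have hJr : |J - H θ * r| ≤ ε / 2 * r + H θ * ((1 + 1 / δ ^ 2) * Real.pi) := by
    have h1 : J - H θ * r = (J - H θ * I) - H θ * (r - I) := by ring
    rw [h1]
    refine (abs_sub _ _).trans ?_
    rw [abs_mul, abs_of_nonneg hθ0, abs_of_nonneg hIr.1]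
    have := mul_le_mul_of_nonneg_left hIr.2 hθ0
    linarith
  have kp := (kk_pair hr θ).mono_left hl
  filter_upwards [Metric.tendsto_nhds.1 lim (1 / 2) (by norm_num),
    Metric.tendsto_nhds.1 kp (1 / 2) (by norm_num), hl hW, hl (eventually_ge_atTop 10)]
    with T h1 h2 h3 h4
  rw [Real.dist_eq] at h1 h2
  rw [sub_zero] at h2
  obtain ⟨o1, o2⟩ := out_le (θ := θ) hr hδ0 h4 h3
  have iS := int_Fr isk T
  have h5 := integral_add_compl (μ := volume) (s := Ioc (θ - δ) (θ + δ)) measurableSet_Ioc iS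
  rw [← intervalIntegral.integral_of_le hle] at h5
  obtain ⟨k1, k2⟩ := abs_lt.1 h1
  obtain ⟨k3, k4⟩ := abs_lt.1 h2
  obtain ⟨k5, k6⟩ := abs_le.1 hJr
  have hr' : 0 ≤ ε / 2 * r := by positivity
  have hp : 0 ≤ H θ * ((1 + 1 / δ ^ 2) * Real.pi) := by positivity
  rw [abs_le]
  constructor <;> linarith

/-- **the law in the known range** -/
theorem law01 (RH : RiemannHypothesis) {θ : ℝ} (hθ : 0 < θ) (hθ1 : θ < 1) : Law atTop θ θ := by
  have h := law_of_near (l := atTop) (θ := θ) (δ₀ := min (θ / 2) ((1 - θ) / 2)) le_rfl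
    (lt_min (by linarith) (by linarith)) (H := fun α => |α|) continuous_abs (fun α => abs_nonneg _)
    (fun a' b' h1 h2 h3 => by
      have g1 := min_le_left (θ / 2) ((1 - θ) / 2)
      have g2 := min_le_right (θ / 2) ((1 - θ) / 2)
      exact mean01 RH (by linarith) h2 (by linarith))
  simp only [abs_of_pos hθ] at h
  exact h

/-- **the number of zeros in windows** -/
theorem law0 (RH : RiemannHypothesis) {ε : ℝ} (hε : 0 < ε) : ∃ K : ℝ, 0 ≤ K ∧ ∀ r : ℝ, 1 ≤ r →
    ∀ᶠ T in atTop, ∫ x, kk r 0 x ∂(Mp T) ≤ r ^ 2 + ε * r + K := by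
  obtain ⟨W, hW0, hW⟩ := cauchy_bdd
  obtain ⟨δ, hδ⟩ : ∃ δ : ℝ, δ = min (ε / 4) (1 / 2) := ⟨_, rfl⟩
  have hδ0 : 0 < δ := by rw [hδ]; exact lt_min (by positivity) (by norm_num)
  have hδ1 : δ ≤ ε / 4 := by rw [hδ]; exact min_le_left _ _
  have hδ2 : δ ≤ 1 / 2 := by rw [hδ]; exact min_le_right _ _
  refine ⟨(1 + 1 / δ ^ 2) * W + 4, by positivity, fun r hr => ?_⟩
  have hr0 : 0 < r := by linarith
  obtain ⟨h, hh⟩ : ∃ h : ℝ, h = min (1 / (2 * r)) δ := ⟨_, rfl⟩
  have hh0 : 0 < h := by rw [hh]; exact lt_min (by positivity) hδ0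
  have hh1 : h ≤ 1 / (2 * r) := by rw [hh]; exact min_le_left _ _
  have hh2 : h ≤ δ := by rw [hh]; exact min_le_right _ _
  have hhr : 2 * (h * r) ≤ 1 := by
    rw [le_div_iff₀ (by positivity)] at hh1
    linarith
  have hh3 : h ^ 3 < δ := by
    have : h ^ 3 ≤ h * (1 / 4) := by
      have g1 : h ^ 2 ≤ 1 / 4 := by nlinarith
      have g2 : h ^ 3 = h * h ^ 2 := by ring
      rw [g2]
      gcongr
    linarith
  have hh4 : 0 < h ^ 3 := by positivity
  have hskc : Continuous fun α => sk r α := sk_cont hr0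
  have lim := two_weight (l := atTop) (G := Fr) (H := fun α => |α|) (f := fun α => sk r α)
    (a := h ^ 3) (b := δ) Fr_cont ((eventually_ge_atTop 10).mono fun T hT α => Fr_nonneg hT α)
    continuous_abs (fun α => abs_nonneg _) hh3
    (fun a' b' h1 h2 h3 => mean01 RH (by linarith) h2 (by linarith)) hskc
  have limJ : ∫ α in (h ^ 3)..δ, sk r α * |α| ≤ δ * r := by
    have c1 : Continuous fun α => sk r α * |α| := hskc.mul continuous_abs
    have c2 : Continuous fun α => δ * sk r α := continuous_const.mul hskc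
    calc ∫ α in (h ^ 3)..δ, sk r α * |α| ≤ ∫ α in (h ^ 3)..δ, δ * sk r α := by
          refine intervalIntegral.integral_mono_on hh3.le (c1.intervalIntegrable _ _)
            (c2.intervalIntegrable _ _) fun α hα => ?_
          rw [mul_comm]
          apply mul_le_mul_of_nonneg_right _ (sk_nonneg hr0 _)
          rw [abs_of_nonneg (by linarith [hα.1])]
          exact hα.2
      _ ≤ ∫ α, δ * sk r α := by
          rw [intervalIntegral.integral_of_le hh3.le]
          exact setIntegral_le_integral ((sk_int hr0).const_mul _) (ae_of_all _ fun α =>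
            mul_nonneg hδ0.le (sk_nonneg hr0 _))
      _ = δ * r := by rw [integral_const_mul, sk_total hr0]
  have kp := kk_pair hr0 0
  -- the mass at the origin
  have t1 := Fr_lim (tr_int hh0) (fl_qd (adm_tr hh0)) le_rfl
    (test_limRH RH (adm_tr hh0) hh0 (by linarith))
  have hcc := (cc_tr_le hh0).1
  filter_upwards [lim.eventually (gt_mem_nhds (show ∫ α in (h ^ 3)..δ, sk r α * |α| <
      δ * r + 1 by linarith)), Metric.tendsto_nhds.1 kp 1 (by norm_num), hW,
      eventually_ge_atTop 10, t1.eventually (gt_mem_nhds (show cc (tr h) < 1 / h + 2 * h by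
        linarith))] with T h1 h2 h3 h4 h5
  have hF0 := Fr_nonneg h4
  have hFc := Fr_cont T
  rw [Real.dist_eq, sub_zero] at h2
  have hmass : r ^ 2 * ∫ α in (-(h ^ 3))..(h ^ 3), Fr T α ≤ r ^ 2 + 1 := by
    have g0 : h ^ 3 ≤ h := by
      have g1 : h ^ 2 ≤ 1 := by nlinarith
      calc h ^ 3 = h * h ^ 2 := by ring
        _ ≤ h * 1 := by gcongr
        _ = h := mul_one h
    have g1 := tent_low (θ := 0) (T := T) hh0 hh4 g0 h4
    simp only [sub_zero, zero_sub, zero_add] at g1
    have g2 : 1 - h ^ 3 / h = 1 - h ^ 2 := by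
      congr 1
      field_simp
    rw [g2] at g1
    have g3 : (1 - h ^ 2) / h * ∫ α in (-(h ^ 3))..(h ^ 3), Fr T α ≤ 1 / h + 2 * h :=
      g1.trans h5.le
    have g4 : (1 - h ^ 2) * ∫ α in (-(h ^ 3))..(h ^ 3), Fr T α ≤ 1 + 2 * h ^ 2 := by
      have g5 := mul_le_mul_of_nonneg_left g3 hh0.le
      have g6 : h * ((1 - h ^ 2) / h * ∫ α in (-(h ^ 3))..(h ^ 3), Fr T α) =
          (1 - h ^ 2) * ∫ α in (-(h ^ 3))..(h ^ 3), Fr T α := by field_simp
      have g7 : h * (1 / h + 2 * h) = 1 + 2 * h ^ 2 := by field_simp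
      rw [g6, g7] at g5
      exact g5
    have g5 : h ^ 2 ≤ 1 / 4 := by nlinarith
    have g6 : ∫ α in (-(h ^ 3))..(h ^ 3), Fr T α ≤ 1 + 4 * h ^ 2 := by
      have g7 : 0 < 1 - h ^ 2 := by linarith
      have g8 : 1 + 2 * h ^ 2 ≤ (1 - h ^ 2) * (1 + 4 * h ^ 2) := by nlinarith [sq_nonneg h]
      exact le_of_mul_le_mul_left (g4.trans g8) g7
    have g7 : r ^ 2 * ∫ α in (-(h ^ 3))..(h ^ 3), Fr T α ≤ r ^ 2 * (1 + 4 * h ^ 2) := by gcongr
    have g8 : 4 * (h * r) ^ 2 ≤ 1 := by
      have : 0 ≤ h * r := by positivity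
      nlinarith
    nlinarith
  -- the decomposition
  have iS := int_Fr ((sk_int hr0).comp_sub_right 0) T
  have h6 := integral_add_compl (μ := volume) (s := Ioc (0 - δ) (0 + δ)) measurableSet_Ioc iS
  rw [← intervalIntegral.integral_of_le (by linarith)] at h6
  obtain ⟨o1, o2⟩ := out_le (θ := 0) hr0 hδ0 h4 h3
  simp only [sub_zero, zero_sub, zero_add] at h6 o1 o2 h2
  have cS : Continuous fun α => sk r α * Fr T α := hskc.mul hFc
  have ci : ∀ a b : ℝ, IntervalIntegrable (fun α => sk r α * Fr T α) volume a b :=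
    fun a b => cS.intervalIntegrable a b
  have h7 : ∫ α in (-δ)..δ, sk r α * Fr T α = (∫ α in (-δ)..(-(h ^ 3)), sk r α * Fr T α) +
      (∫ α in (-(h ^ 3))..(h ^ 3), sk r α * Fr T α) + ∫ α in (h ^ 3)..δ, sk r α * Fr T α := by
    rw [intervalIntegral.integral_add_adjacent_intervals (ci _ _) (ci _ _),
      intervalIntegral.integral_add_adjacent_intervals (ci _ _) (ci _ _)]
  have h8 : ∫ α in (-δ)..(-(h ^ 3)), sk r α * Fr T α = ∫ α in (h ^ 3)..δ, sk r α * Fr T α := by
    rw [← intervalIntegral.integral_comp_neg]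
    refine intervalIntegral.integral_congr fun α _ => ?_
    show sk r (-α) * Fr T (-α) = _
    rw [sk_even, Fr_even]
  have h9 : ∫ α in (-(h ^ 3))..(h ^ 3), sk r α * Fr T α ≤
      r ^ 2 * ∫ α in (-(h ^ 3))..(h ^ 3), Fr T α := by
    rw [← intervalIntegral.integral_const_mul]
    refine intervalIntegral.integral_mono_on (by linarith) (ci _ _)
      ((continuous_const.mul hFc).intervalIntegrable _ _) fun α _ => ?_
    apply mul_le_mul_of_nonneg_right _ (hF0 α)
    unfold sk
    have := fl_tr_le hr0 α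
    nlinarith [sq_nonneg r]
  obtain ⟨k1, k2⟩ := abs_lt.1 h2
  have h10 : 2 * (δ * r) ≤ ε * r := by nlinarith
  linarith

end Pool.Agent.K9h45.PL
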