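import Mathlib

/-! # Windows of consecutive points and windows of the line -/

set_option autoImplicit false

open MeasureTheory Set

namespace Pool.Agent.K9h45.PL

/-- the number of the points `y 1, …, y N` in `(-∞, t]` -/
noncomputable def nu (y : ℕ → ℝ) (N : ℕ) (t : ℝ) : ℕ :=
  ((Finset.Ioc 0 N).filter (fun i => y i ≤ t)).card

variable {y : ℕ → ℝ} {N : ℕ}

/-- the points are in increasing order -/
def Mon (y : ℕ → ℝ) (N : ℕ) : Prop := ∀ i j : ℕ, 1 ≤ i → i ≤ j → j ≤ N → y i ≤ y j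

lemma nu_le (t : ℝ) : nu y N t ≤ N := by
  unfold nu
  refine (Finset.card_filter_le _ _).trans ?_
  rw [Nat.card_Ioc]
  omega

lemma nu_mono : Monotone (nu y N) := by
  intro s t h
  unfold nu
  apply Finset.card_le_card
  intro i hi
  rw [Finset.mem_filter] at hi ⊢
  exact ⟨hi.1, hi.2.trans h⟩

lemma nu_meas : Measurable (nu y N) := nu_mono.measurable

lemma nu_set (hy : Mon y N) (t : ℝ) :
    (Finset.Ioc 0 N).filter (fun i => y i ≤ t) = Finset.Ioc 0 (nu y N t) := by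
  -- the filter is an initial segment
  classical
  obtain ⟨S, hS⟩ : ∃ S, S = (Finset.Ioc 0 N).filter (fun i => y i ≤ t) := ⟨_, rfl⟩
  have hdown : ∀ i ∈ S, ∀ j, 1 ≤ j → j ≤ i → j ∈ S := by
    intro i hi j h1 h2
    rw [hS, Finset.mem_filter, Finset.mem_Ioc] at hi ⊢
    exact ⟨⟨by omega, by omega⟩, (hy j i h1 h2 hi.1.2).trans hi.2⟩
  have hcard : S.card = nu y N t := by rw [hS]; rfl
  rw [← hS]
  apply Finset.eq_of_subset_of_card_le
  · intro i hi
    rw [Finset.mem_Ioc, ← hcard]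
    have h1 : Finset.Ioc 0 i ⊆ S := by
      intro j hj
      rw [Finset.mem_Ioc] at hj
      exact hdown i hi j (by omega) hj.2
    have h2 := Finset.card_le_card h1
    rw [Nat.card_Ioc] at h2
    have h3 : 1 ≤ i := by
      rw [hS, Finset.mem_filter, Finset.mem_Ioc] at hi
      omega
    omega
  · rw [hcard, Nat.card_Ioc]
    omega

lemma le_nu (hy : Mon y N) {i : ℕ} (h1 : 1 ≤ i) (h2 : i ≤ N) (t : ℝ) :
    i ≤ nu y N t ↔ y i ≤ t := by
  have h := nu_set hy t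
  constructor
  · intro hi
    have : i ∈ Finset.Ioc 0 (nu y N t) := Finset.mem_Ioc.2 ⟨by omega, hi⟩
    rw [← h, Finset.mem_filter] at this
    exact this.2
  · intro hi
    have : i ∈ (Finset.Ioc 0 N).filter (fun i => y i ≤ t) :=
      Finset.mem_filter.2 ⟨Finset.mem_Ioc.2 ⟨by omega, h2⟩, hi⟩
    rw [h, Finset.mem_Ioc] at this
    exact this.2

/-- functions of finitely many counts are integrable on bounded sets -/
lemma int_cnt {k : ℕ} (F : (Fin k → ℕ) → ℝ) (r : Fin k → ℝ) (a b : ℝ) :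
    Integrable (fun t => F (fun i => nu y N (t + r i))) (volume.restrict (Icc a b)) := by
  have hm : Measurable fun t => F (fun i => nu y N (t + r i)) := by
    have h1 : Measurable F := measurable_of_countable F
    have h2 : Measurable fun t : ℝ => (fun i : Fin k => nu y N (t + r i)) := by
      refine measurable_pi_lambda _ fun i => ?_
      exact nu_meas.comp (measurable_id.add_const (r i))
    exact h1.comp h2
  have hfin : {v : Fin k → ℕ | ∀ i, v i ∈ Set.Iic N}.Finite :=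
    Set.Finite.pi' fun _ => Set.finite_Iic N
  obtain ⟨C, hC⟩ := (hfin.image (fun v => |F v|)).bddAbove
  refine Integrable.of_bound (C := C) hm.aestronglyMeasurable (ae_of_all _ fun t => ?_)
  rw [Real.norm_eq_abs]
  apply hC
  exact ⟨fun i => nu y N (t + r i), fun i => nu_le _, rfl⟩

/-! ### the pointwise inequality -/

variable {D : ℕ → ℂ}

/-- increments at most one -/
def Lip (D : ℕ → ℂ) : Prop := ∀ m, ‖D (m + 1) - D m‖ ≤ 1

lemma Lip.add (hD : Lip D) (m k : ℕ) : ‖D (m + k) - D m‖ ≤ k := by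
  induction k with
  | zero => simp
  | succ k ih =>
    have h1 := norm_add_le (D (m + (k + 1)) - D (m + k)) (D (m + k) - D m)
    have h2 := hD (m + k)
    rw [sub_add_sub_cancel] at h1
    push_cast
    have h3 : m + k + 1 = m + (k + 1) := by ring
    rw [h3] at h2
    linarith

lemma Lip.le (hD : Lip D) (a b : ℕ) : ‖D a - D b‖ ≤ |(a : ℝ) - b| := by
  rcases le_total a b with h | h
  · obtain ⟨k, rfl⟩ := Nat.exists_eq_add_of_le h
    rw [norm_sub_rev]
    refine (hD.add a k).trans ?_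
    push_cast
    rw [show (a : ℝ) - (a + k) = -k by ring, abs_neg, abs_of_nonneg (Nat.cast_nonneg k)]
  · obtain ⟨k, rfl⟩ := Nat.exists_eq_add_of_le h
    refine (hD.add b k).trans ?_
    push_cast
    rw [show (b : ℝ) + k - b = k by ring, abs_of_nonneg (Nat.cast_nonneg k)]

/-- the square of a window sum -/
noncomputable def G (D : ℕ → ℂ) (R m : ℕ) : ℝ := ‖D (m + R) - D m‖ ^ 2

/-- the square of the difference of two window sums -/
noncomputable def E (D : ℕ → ℂ) (R A m : ℕ) : ℝ := ‖(D (m + R) - D m) - (D (A + R) - D A)‖ ^ 2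

lemma G_nonneg (D : ℕ → ℂ) (R m : ℕ) : 0 ≤ G D R m := by unfold G; positivity

lemma E_nonneg (D : ℕ → ℂ) (R A m : ℕ) : 0 ≤ E D R A m := by unfold E; positivity

lemma G_le (hD : Lip D) (R m : ℕ) : G D R m ≤ (R : ℝ) ^ 2 := by
  unfold G
  exact pow_le_pow_left₀ (norm_nonneg _) (hD.add m R) 2

lemma E_le (hD : Lip D) (R A m : ℕ) : E D R A m ≤ 4 * (R : ℝ) ^ 2 := by
  unfold E
  have h1 := hD.add m R
  have h2 := hD.add A R
  have h3 := norm_sub_le (D (m + R) - D m) (D (A + R) - D A)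
  have h4 : ‖(D (m + R) - D m) - (D (A + R) - D A)‖ ≤ 2 * R := by linarith
  calc _ ≤ (2 * (R : ℝ)) ^ 2 := pow_le_pow_left₀ (norm_nonneg _) h4 2
    _ = _ := by ring

/-- comparison of the squares of two norms -/
lemma sq_cmp (a b : ℂ) {κ : ℝ} (hκ : 0 < κ) :
    |‖a‖ ^ 2 - ‖b‖ ^ 2| ≤ κ * ‖b‖ ^ 2 + (1 + 1 / κ) * ‖a - b‖ ^ 2 := by
  have h1 : |‖a‖ - ‖b‖| ≤ ‖a - b‖ := abs_norm_sub_norm_le a b
  obtain ⟨d, hd⟩ : ∃ d : ℝ, d = ‖a‖ - ‖b‖ := ⟨_, rfl⟩
  rw [← hd] at h1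
  have e1 : ‖a‖ ^ 2 - ‖b‖ ^ 2 = d ^ 2 + 2 * d * ‖b‖ := by rw [hd]; ring
  have h2 : d ^ 2 ≤ ‖a - b‖ ^ 2 := by
    rw [← sq_abs]
    exact pow_le_pow_left₀ (abs_nonneg _) h1 2
  have h3 : |2 * d * ‖b‖| ≤ κ * ‖b‖ ^ 2 + 1 / κ * d ^ 2 := by
    have h4 : 0 ≤ (κ * ‖b‖ - |d|) ^ 2 / κ := by positivity
    have h5 : (κ * ‖b‖ - |d|) ^ 2 / κ = κ * ‖b‖ ^ 2 + 1 / κ * d ^ 2 - 2 * |d| * ‖b‖ := by
      rw [← sq_abs d]
      field_simp
      ring
    rw [abs_mul, abs_mul, abs_of_nonneg (norm_nonneg b), abs_of_pos (by norm_num : (0 : ℝ) < 2)]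
    linarith
  have h6 : 0 ≤ 1 / κ := by positivity
  rw [e1]
  calc |d ^ 2 + 2 * d * ‖b‖| ≤ |d ^ 2| + |2 * d * ‖b‖| := abs_add_le _ _
    _ ≤ d ^ 2 + (κ * ‖b‖ ^ 2 + 1 / κ * d ^ 2) := by
        rw [abs_of_nonneg (sq_nonneg d)]
        linarith
    _ ≤ _ := by nlinarith

/-- **the pointwise inequality** -/
lemma pointwise (hD : Lip D) {R L A B : ℕ} (hR : 1 ≤ R) (hL : 1 ≤ L) (hAB : A ≤ B) {κ : ℝ} (hκ : 0 < κ)
    (hκ1 : κ ≤ 1) :
    |∑ m ∈ Finset.Ico A B, G D R m - L * G D R A| ≤ 3 * κ * L * G D R A +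
      (R : ℝ) ^ 2 / (2 * κ * L) * ((B : ℝ) - A - L) ^ 2 +
      (1 + 1 / κ) * (∑ k ∈ Finset.range (2 * L), E D R A (A + k) +
        4 * (R : ℝ) ^ 2 / L * ((B : ℝ) - A - L) ^ 2) := by
  obtain ⟨X, hX⟩ := Nat.exists_eq_add_of_le hAB
  have hL0 : (0 : ℝ) < L := by exact_mod_cast hL
  have hR0 : (0 : ℝ) < R := by exact_mod_cast hR
  have hBA : (B : ℝ) - A = X := by rw [hX]; push_cast; ring
  rw [hBA]
  have hG0 := G_nonneg D R A
  -- the terms
  have h1 : ∀ m, |G D R m - G D R A| ≤ κ * G D R A + (1 + 1 / κ) * E D R A m := by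
    intro m
    exact sq_cmp _ _ hκ
  have hcard : ((Finset.Ico A B).card : ℝ) = X := by
    rw [Nat.card_Ico, hX]
    congr 1
    omega
  have e1 : ∑ m ∈ Finset.Ico A B, G D R m - L * G D R A =
      ∑ m ∈ Finset.Ico A B, (G D R m - G D R A) + ((X : ℝ) - L) * G D R A := by
    rw [Finset.sum_sub_distrib, Finset.sum_const, nsmul_eq_mul, hcard]
    ring
  have h2 : |∑ m ∈ Finset.Ico A B, (G D R m - G D R A)| ≤
      κ * X * G D R A + (1 + 1 / κ) * ∑ m ∈ Finset.Ico A B, E D R A m := by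
    refine (Finset.abs_sum_le_sum_abs _ _).trans ((Finset.sum_le_sum fun m _ => h1 m).trans ?_)
    rw [Finset.sum_add_distrib, Finset.sum_const, nsmul_eq_mul, hcard, ← Finset.mul_sum]
    linarith
  -- the error terms
  have h3 : ∑ m ∈ Finset.Ico A B, E D R A m ≤ ∑ k ∈ Finset.range (2 * L), E D R A (A + k) +
        4 * (R : ℝ) ^ 2 / L * ((X : ℝ) - L) ^ 2 := by
    have e2 : ∑ m ∈ Finset.Ico A B, E D R A m = ∑ k ∈ Finset.range X, E D R A (A + k) := by
      rw [Finset.sum_Ico_eq_sum_range, hX]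
      congr 2
      omega
    rw [e2]
    have h4 : (0 : ℝ) ≤ 4 * (R : ℝ) ^ 2 / L * ((X : ℝ) - L) ^ 2 := by positivity
    rcases le_or_gt X (2 * L) with h | h
    · have h5 : ∑ k ∈ Finset.range X, E D R A (A + k) ≤ ∑ k ∈ Finset.range (2 * L), E D R A (A + k) :=
        Finset.sum_le_sum_of_subset_of_nonneg (Finset.range_mono h) fun k _ _ => E_nonneg _ _ _ _
      linarith
    · have h5 : ∑ k ∈ Finset.range X, E D R A (A + k) = ∑ k ∈ Finset.range (2 * L), E D R A (A + k) +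
          ∑ k ∈ Finset.Ico (2 * L) X, E D R A (A + k) :=
        (Finset.sum_range_add_sum_Ico _ h.le).symm
      have h6 : ∑ k ∈ Finset.Ico (2 * L) X, E D R A (A + k) ≤ ((X : ℝ) - 2 * L) * (4 * (R : ℝ) ^ 2) := by
        refine (Finset.sum_le_card_nsmul _ _ (4 * (R : ℝ) ^ 2) fun k _ => E_le hD R A _).trans ?_
        rw [Nat.card_Ico, nsmul_eq_mul, Nat.cast_sub h.le]
        push_cast
        exact le_rfl
      have h7 : (X : ℝ) - 2 * L ≤ ((X : ℝ) - L) ^ 2 / L := by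
        have h8 : (2 : ℝ) * L ≤ X := by exact_mod_cast h.le
        rw [le_div_iff₀ hL0]
        nlinarith
      have h9 : ((X : ℝ) - 2 * L) * (4 * (R : ℝ) ^ 2) ≤ ((X : ℝ) - L) ^ 2 / L * (4 * (R : ℝ) ^ 2) :=
        mul_le_mul_of_nonneg_right h7 (by positivity)
      have h10 : ((X : ℝ) - L) ^ 2 / L * (4 * (R : ℝ) ^ 2) =
          4 * (R : ℝ) ^ 2 / L * ((X : ℝ) - L) ^ 2 := by ring
      linarith
  -- the weights
  have h4 : |((X : ℝ) - L) * G D R A| = |(X : ℝ) - L| * G D R A := by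
    rw [abs_mul, abs_of_nonneg hG0]
  have h5 : κ * X * G D R A ≤ κ * L * G D R A + |(X : ℝ) - L| * G D R A := by
    have h6 : (X : ℝ) ≤ L + |(X : ℝ) - L| := by linarith [le_abs_self ((X : ℝ) - L)]
    have h7 : κ * X ≤ κ * L + |(X : ℝ) - L| := by
      have h8 := mul_le_mul_of_nonneg_left h6 hκ.le
      nlinarith [abs_nonneg ((X : ℝ) - L)]
    nlinarith [mul_le_mul_of_nonneg_right h7 hG0]
  have h6 : 2 * (|(X : ℝ) - L| * G D R A) ≤ 2 * κ * L * G D R A +
      (R : ℝ) ^ 2 / (2 * κ * L) * ((X : ℝ) - L) ^ 2 := by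
    obtain ⟨c, hc⟩ : ∃ c : ℝ, c = 2 * κ * L / (R : ℝ) ^ 2 := ⟨_, rfl⟩
    have hc0 : 0 < c := by rw [hc]; positivity
    have h7 : 0 ≤ (|(X : ℝ) - L| - c * G D R A) ^ 2 / c := by positivity
    have h8 : (|(X : ℝ) - L| - c * G D R A) ^ 2 / c =
        ((X : ℝ) - L) ^ 2 / c + c * G D R A ^ 2 - 2 * (|(X : ℝ) - L| * G D R A) := by
      rw [← sq_abs ((X : ℝ) - L)]
      field_simp
      ring
    have h9 : c * G D R A ^ 2 ≤ 2 * κ * L * G D R A := by
      have h10 := G_le hD R A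
      calc c * G D R A ^ 2 = c * G D R A * G D R A := by ring
        _ ≤ c * G D R A * (R : ℝ) ^ 2 := by gcongr
        _ = 2 * κ * L * G D R A := by
          rw [hc]
          field_simp
    have h10 : ((X : ℝ) - L) ^ 2 / c = (R : ℝ) ^ 2 / (2 * κ * L) * ((X : ℝ) - L) ^ 2 := by
      rw [hc]
      field_simp
    rw [← h10]
    linarith
  have h7 : 0 ≤ 1 + 1 / κ := by positivity
  have h8 := mul_le_mul_of_nonneg_left h3 h7
  rw [e1]
  refine (abs_add_le _ _).trans ?_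
  rw [h4]
  linarith

end Pool.Agent.K9h45.PL
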