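import Pool.Agent.K9h45.PL.Det

/-! # Windows: the integrals -/

set_option autoImplicit false

open MeasureTheory Set

namespace Pool.Agent.K9h45.PL

variable {y : ℕ → ℝ} {N : ℕ}

/-- the indicator of `[a - r, a)` -/
noncomputable def win (r a t : ℝ) : ℝ := (Ico (a - r) a).indicator (fun _ => (1 : ℝ)) t

lemma win_of {r a t : ℝ} (h1 : t < a) (h2 : a ≤ t + r) : win r a t = 1 := by
  unfold win
  rw [indicator_of_mem]
  exact ⟨by linarith, h1⟩

lemma win_not {r a t : ℝ} (h : ¬ (t < a ∧ a ≤ t + r)) : win r a t = 0 := by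
  unfold win
  rw [indicator_of_notMem]
  rintro ⟨h1, h2⟩
  exact h ⟨h2, by linarith⟩

lemma win_nonneg (r a t : ℝ) : 0 ≤ win r a t := by
  unfold win
  exact indicator_nonneg (fun _ _ => zero_le_one) _

lemma win_mul (r a b t : ℝ) : win r a t * win r b t =
    (Ico (max a b - r) (min a b)).indicator (fun _ => (1 : ℝ)) t := by
  unfold win
  rw [← inter_indicator_mul]
  have : Ico (a - r) a ∩ Ico (b - r) b = Ico (max a b - r) (min a b) := by
    rw [Ico_inter_Ico, ← max_sub_sub_right]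
  rw [this]
  simp

lemma win_int (r a : ℝ) : Integrable (win r a) := by
  unfold win
  rw [integrable_indicator_iff measurableSet_Ico]
  exact integrableOn_const (by rw [Real.volume_Ico]; exact ENNReal.ofReal_ne_top)

lemma win_mul_int (r a b : ℝ) : Integrable (fun t => win r a t * win r b t) := by
  simp_rw [win_mul]
  rw [integrable_indicator_iff measurableSet_Ico]
  exact integrableOn_const (by rw [Real.volume_Ico]; exact ENNReal.ofReal_ne_top)

lemma win_mul_integral (r a b : ℝ) : ∫ t, win r a t * win r b t = max 0 (r - |a - b|) := by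
  simp_rw [win_mul]
  rw [integral_indicator measurableSet_Ico, setIntegral_const, smul_eq_mul, mul_one,
    measureReal_def, Real.volume_Ico, ENNReal.toReal_ofReal']
  have h1 : min a b - (max a b - r) = r - |a - b| := by
    rw [← max_sub_min_eq_abs' a b]
    ring
  rw [h1, max_comm]

lemma win_integral {r a Y : ℝ} (hr : 0 ≤ r) (h1 : r ≤ a) (h2 : a ≤ Y) :
    ∫ t in Icc 0 Y, win r a t = r := by
  unfold win
  rw [setIntegral_indicator measurableSet_Ico, setIntegral_const, smul_eq_mul, mul_one]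
  have : Icc 0 Y ∩ Ico (a - r) a = Ico (a - r) a := by
    apply inter_eq_right.2
    rintro x ⟨h3, h4⟩
    exact ⟨by linarith, by linarith⟩
  rw [this, measureReal_def, Real.volume_Ico, ENNReal.toReal_ofReal (by linarith)]
  ring

/-- membership of an index in a window -/
lemma mem_win (hy : Mon y N) {i : ℕ} (h1 : 1 ≤ i) (h2 : i ≤ N) (t r : ℝ) :
    (nu y N t < i ∧ i ≤ nu y N (t + r)) ↔ (t < y i ∧ y i ≤ t + r) := by
  rw [le_nu hy h1 h2]
  have := le_nu hy h1 h2 t
  constructor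
  · rintro ⟨a, b⟩
    refine ⟨?_, b⟩
    by_contra hc
    push Not at hc
    have := this.2 hc
    omega
  · rintro ⟨a, b⟩
    refine ⟨?_, b⟩
    by_contra hc
    push Not at hc
    have := this.1 hc
    linarith

/-- sums over the indices in a window -/
lemma sum_win {M : Type*} [AddCommMonoid M] [Module ℝ M] (hy : Mon y N) (z : ℕ → M) (t : ℝ)
    (r : ℝ) :
    ∑ i ∈ Finset.Ioc (nu y N t) (nu y N (t + r)), z i =
      ∑ i ∈ Finset.Ioc 0 N, win r (y i) t • z i := by
  classical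
  have h1 : ∀ i ∈ Finset.Ioc 0 N, win r (y i) t • z i =
      if (nu y N t < i ∧ i ≤ nu y N (t + r)) then z i else 0 := by
    intro i hi
    rw [Finset.mem_Ioc] at hi
    have := mem_win hy (by omega : 1 ≤ i) hi.2 t r
    split_ifs with h
    · rw [this] at h
      rw [win_of h.1 h.2, one_smul]
    · rw [this] at h
      rw [win_not h, zero_smul]
  rw [Finset.sum_congr rfl h1, ← Finset.sum_filter]
  refine Finset.sum_congr ?_ fun _ _ => rfl
  ext i
  rw [Finset.mem_filter, Finset.mem_Ioc, Finset.mem_Ioc]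
  have := nu_le (y := y) (N := N) (t + r)
  omega

/-- the partial sums -/
noncomputable def DS (z : ℕ → ℂ) (m : ℕ) : ℂ := ∑ i ∈ Finset.Ioc 0 m, z i

lemma DS_sub (z : ℕ → ℂ) {a b : ℕ} (h : a ≤ b) : DS z b - DS z a = ∑ i ∈ Finset.Ioc a b, z i := by
  unfold DS
  rw [← Finset.sum_Ioc_consecutive z (Nat.zero_le a) h]
  ring

lemma DS_lip {z : ℕ → ℂ} (hz : ∀ i, ‖z i‖ ≤ 1) : Lip (DS z) := by
  intro m
  rw [DS_sub z (Nat.le_succ m), Nat.succ_eq_add_one, Finset.sum_Ioc_succ_top (le_refl m)]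
  simpa using hz (m + 1)

lemma DS_win (hy : Mon y N) (z : ℕ → ℂ) (t : ℝ) {r : ℝ} (hr : 0 ≤ r) :
    DS z (nu y N (t + r)) - DS z (nu y N t) = ∑ i ∈ Finset.Ioc 0 N, win r (y i) t • z i := by
  rw [DS_sub z (nu_mono (by linarith)), sum_win hy z t r]

/-- the square of a sum -/
lemma sq_sum' (I : Finset ℕ) (w : ℕ → ℝ) (z : ℕ → ℂ) :
    ‖∑ i ∈ I, w i • z i‖ ^ 2 = ∑ i ∈ I, ∑ j ∈ I, (z i * (starRingEnd ℂ) (z j)).re * (w i * w j) := by
  have h1 : ‖∑ i ∈ I, w i • z i‖ ^ 2 =
      ((∑ i ∈ I, w i • z i) * (starRingEnd ℂ) (∑ i ∈ I, w i • z i)).re := by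
    rw [Complex.mul_conj, Complex.ofReal_re, Complex.normSq_eq_norm_sq]
  rw [h1, map_sum, Finset.sum_mul_sum, Complex.re_sum]
  refine Finset.sum_congr rfl fun i _ => ?_
  rw [Complex.re_sum]
  refine Finset.sum_congr rfl fun j _ => ?_
  have h2 : (starRingEnd ℂ) (w j • z j) = w j • (starRingEnd ℂ) (z j) := by
    rw [Complex.real_smul, Complex.real_smul, map_mul, Complex.conj_ofReal]
  rw [h2, smul_mul_smul_comm, Complex.real_smul, Complex.re_ofReal_mul]
  ring

/-- the mean square over the windows of length `r` -/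
noncomputable def Qw (y : ℕ → ℝ) (N : ℕ) (z : ℕ → ℂ) (r : ℝ) : ℝ :=
  ∑ i ∈ Finset.Ioc 0 N, ∑ j ∈ Finset.Ioc 0 N,
    (z i * (starRingEnd ℂ) (z j)).re * max 0 (r - |y i - y j|)

theorem mean_sq (hy : Mon y N) (z : ℕ → ℂ) {r : ℝ} (hr : 0 ≤ r) :
    Integrable (fun t => ‖DS z (nu y N (t + r)) - DS z (nu y N t)‖ ^ 2) ∧
    ∫ t, ‖DS z (nu y N (t + r)) - DS z (nu y N t)‖ ^ 2 = Qw y N z r := by
  have h1 : ∀ t, ‖DS z (nu y N (t + r)) - DS z (nu y N t)‖ ^ 2 =
      ∑ i ∈ Finset.Ioc 0 N, ∑ j ∈ Finset.Ioc 0 N,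
        (z i * (starRingEnd ℂ) (z j)).re * (win r (y i) t * win r (y j) t) := by
    intro t
    rw [DS_win hy z t hr]
    exact sq_sum' _ (fun i => win r (y i) t) z
  have h2 : ∀ i j, Integrable fun t => (z i * (starRingEnd ℂ) (z j)).re *
      (win r (y i) t * win r (y j) t) := fun i j => (win_mul_int r (y i) (y j)).const_mul _
  simp_rw [h1]
  refine ⟨integrable_finsetSum _ fun i _ => integrable_finsetSum _ fun j _ => h2 i j, ?_⟩
  rw [integral_finsetSum _ fun i _ => integrable_finsetSum _ fun j _ => h2 i j]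
  unfold Qw
  refine Finset.sum_congr rfl fun i _ => ?_
  rw [integral_finsetSum _ fun j _ => h2 i j]
  refine Finset.sum_congr rfl fun j _ => ?_
  rw [integral_const_mul, win_mul_integral]

/-- the sum over windows as an integral -/
theorem sum_id (hy : Mon y N) {L Y : ℝ} (hL : 0 ≤ L) (h1 : ∀ i, 1 ≤ i → i ≤ N → L ≤ y i)
    (h2 : ∀ i, 1 ≤ i → i ≤ N → y i ≤ Y) (F : ℕ → ℝ) :
    ∫ t in Icc 0 Y, ∑ m ∈ Finset.Ico (nu y N t) (nu y N (t + L)), F m =
      L * ∑ m ∈ Finset.range N, F m := by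
  have e1 : ∀ t, ∑ m ∈ Finset.Ico (nu y N t) (nu y N (t + L)), F m =
      ∑ i ∈ Finset.Ioc 0 N, win L (y i) t * F (i - 1) := by
    intro t
    have := sum_win hy (fun i => F (i - 1)) t L
    simp only [smul_eq_mul] at this
    rw [← this]
    refine Finset.sum_bij (fun m _ => m + 1) ?_ ?_ ?_ ?_
    · intro m hm
      rw [Finset.mem_Ico] at hm
      rw [Finset.mem_Ioc]
      omega
    · intro a _ b _ hab
      have : a + 1 = b + 1 := hab
      omega
    · intro b hb
      rw [Finset.mem_Ioc] at hb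
      exact ⟨b - 1, by rw [Finset.mem_Ico]; omega, by show b - 1 + 1 = b; omega⟩
    · intro m _
      simp
  simp_rw [e1]
  rw [integral_finsetSum _ fun i _ => ((win_int L (y i)).mul_const _).integrableOn]
  have e2 : ∀ i ∈ Finset.Ioc 0 N, ∫ t in Icc 0 Y, win L (y i) t * F (i - 1) = L * F (i - 1) := by
    intro i hi
    rw [Finset.mem_Ioc] at hi
    rw [integral_mul_const, win_integral hL (h1 i (by omega) hi.2) (h2 i (by omega) hi.2)]
  rw [Finset.sum_congr rfl e2, ← Finset.mul_sum]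
  congr 1
  refine Finset.sum_bij (fun i _ => i - 1) ?_ ?_ ?_ ?_
  · intro m hm
    rw [Finset.mem_Ioc] at hm
    rw [Finset.mem_range]
    show m - 1 < N
    omega
  · intro a ha b hb hab
    rw [Finset.mem_Ioc] at ha hb
    have : a - 1 = b - 1 := hab
    omega
  · intro b hb
    rw [Finset.mem_range] at hb
    exact ⟨b + 1, by rw [Finset.mem_Ioc]; omega, by show b + 1 - 1 = b; omega⟩
  · intro m _
    rfl

end Pool.Agent.K9h45.PL
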