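import Pool.Agent.K9h45.PL.Det2

/-! # Windows of consecutive points and windows of the line: comparison of the mean squares -/

set_option autoImplicit false

open MeasureTheory Set

namespace Pool.Agent.K9h45.PL

variable {y : ℕ → ℝ} {N : ℕ}

/-- the variance of the number of points in the windows of length `r` -/
noncomputable def vv (y : ℕ → ℝ) (N : ℕ) (Y r : ℝ) : ℝ :=
  ∫ t in Icc 0 Y, ((nu y N (t + r) : ℝ) - nu y N t - r) ^ 2

lemma vv_nonneg (Y r : ℝ) : 0 ≤ vv y N Y r := integral_nonneg fun _ => sq_nonneg _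

lemma vv_int (Y r : ℝ) :
    Integrable (fun t => ((nu y N (t + r) : ℝ) - nu y N t - r) ^ 2) (volume.restrict (Icc 0 Y)) := by
  have := int_cnt (y := y) (N := N) (k := 2)
    (fun v => ((v 0 : ℝ) - v 1 - r) ^ 2) (fun i => if i = 0 then r else 0) 0 Y
  simpa using this

/-- evaluation of the variance -/
theorem vv_eq (hy : Mon y N) {r Y : ℝ} (hr : 0 ≤ r) (hY : 0 ≤ Y)
    (h1 : ∀ i, 1 ≤ i → i ≤ N → r ≤ y i)
    (h2 : ∀ i, 1 ≤ i → i ≤ N → y i ≤ Y) :
    vv y N Y r ≤ Qw y N (fun _ => 1) r - 2 * r ^ 2 * N + r ^ 2 * Y := by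
  have hDS : ∀ a b : ℕ, a ≤ b → ‖DS (fun _ => 1) b - DS (fun _ => 1) a‖ = (b : ℝ) - a := by
    intro a b hab
    rw [DS_sub _ hab, Finset.sum_const, Nat.card_Ioc, nsmul_eq_mul, mul_one, Complex.norm_natCast,
      Nat.cast_sub hab]
  have hs : ∀ t : ℝ, nu y N t ≤ nu y N (t + r) := fun t => nu_mono (by linarith)
  obtain ⟨hi, he⟩ := mean_sq hy (fun _ => (1 : ℂ)) hr
  have e1 : ∀ t : ℝ, ((nu y N (t + r) : ℝ) - nu y N t - r) ^ 2 =
      ‖DS (fun _ => 1) (nu y N (t + r)) - DS (fun _ => 1) (nu y N t)‖ ^ 2 -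
        (2 * r * ((nu y N (t + r) : ℝ) - nu y N t) - r ^ 2) := by
    intro t
    rw [hDS _ _ (hs t)]
    ring
  have e2 : ∫ t in Icc 0 Y, ((nu y N (t + r) : ℝ) - nu y N t) = r * N := by
    have := sum_id hy hr h1 h2 (fun _ => (1 : ℝ))
    rw [Finset.sum_const, Finset.card_range, nsmul_eq_mul, mul_one] at this
    rw [← this]
    refine integral_congr_ae (ae_of_all _ fun t => ?_)
    show (nu y N (t + r) : ℝ) - nu y N t = ∑ m ∈ Finset.Ico (nu y N t) (nu y N (t + r)), (1 : ℝ)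
    rw [Finset.sum_const, Nat.card_Ico, nsmul_eq_mul, mul_one, Nat.cast_sub (hs t)]
  have i2 : Integrable (fun t => (nu y N (t + r) : ℝ) - nu y N t) (volume.restrict (Icc 0 Y)) := by
    have := int_cnt (y := y) (N := N) (k := 2)
      (fun v => ((v 0 : ℝ) - v 1)) (fun i => if i = 0 then r else 0) 0 Y
    simpa using this
  have i3 : Integrable (fun t => 2 * r * ((nu y N (t + r) : ℝ) - nu y N t) - r ^ 2)
      (volume.restrict (Icc 0 Y)) := by
    exact (i2.const_mul _).sub (integrable_const _)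
  unfold vv
  simp_rw [e1]
  rw [integral_sub hi.integrableOn i3]
  have e3 : ∫ t in Icc 0 Y, (2 * r * ((nu y N (t + r) : ℝ) - nu y N t) - r ^ 2) =
      2 * r ^ 2 * N - r ^ 2 * Y := by
    rw [integral_sub (i2.const_mul _) (integrable_const _), integral_const_mul, e2,
      setIntegral_const, smul_eq_mul, measureReal_def, Real.volume_Icc,
      ENNReal.toReal_ofReal (by linarith)]
    ring
  rw [e3]
  have e4 : ∫ t in Icc 0 Y, ‖DS (fun _ => 1) (nu y N (t + r)) - DS (fun _ => 1) (nu y N t)‖ ^ 2 ≤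
      Qw y N (fun _ => 1) r := by
    rw [← he]
    exact setIntegral_le_integral hi (ae_of_all _ fun t => by positivity)
  linarith

lemma sq5 (a b c d e : ℂ) : ‖a + b + c + d + e‖ ^ 2 ≤
    5 * (‖a‖ ^ 2 + ‖b‖ ^ 2 + ‖c‖ ^ 2 + ‖d‖ ^ 2 + ‖e‖ ^ 2) := by
  have h1 : ‖a + b + c + d + e‖ ≤ ‖a‖ + ‖b‖ + ‖c‖ + ‖d‖ + ‖e‖ := by
    refine (norm_add_le _ _).trans ?_
    have := norm_add_le (a + b + c) d
    have := norm_add_le (a + b) c
    have := norm_add_le a b
    linarith
  have h2 : ‖a + b + c + d + e‖ ^ 2 ≤ (‖a‖ + ‖b‖ + ‖c‖ + ‖d‖ + ‖e‖) ^ 2 :=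
    pow_le_pow_left₀ (norm_nonneg _) h1 2
  nlinarith [sq_nonneg (‖a‖ - ‖b‖), sq_nonneg (‖a‖ - ‖c‖), sq_nonneg (‖a‖ - ‖d‖),
    sq_nonneg (‖a‖ - ‖e‖), sq_nonneg (‖b‖ - ‖c‖), sq_nonneg (‖b‖ - ‖d‖), sq_nonneg (‖b‖ - ‖e‖),
    sq_nonneg (‖c‖ - ‖d‖), sq_nonneg (‖c‖ - ‖e‖), sq_nonneg (‖d‖ - ‖e‖)]

lemma int5 {μ : Measure ℝ} {f₁ f₂ f₃ f₄ f₅ : ℝ → ℝ} (i₁ : Integrable f₁ μ) (i₂ : Integrable f₂ μ)
    (i₃ : Integrable f₃ μ) (i₄ : Integrable f₄ μ) (i₅ : Integrable f₅ μ) :
    Integrable (fun t => 5 * (f₁ t + f₂ t + f₃ t + f₄ t + f₅ t)) μ ∧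
    ∫ t, 5 * (f₁ t + f₂ t + f₃ t + f₄ t + f₅ t) ∂μ =
      5 * ((∫ t, f₁ t ∂μ) + (∫ t, f₂ t ∂μ) + (∫ t, f₃ t ∂μ) + (∫ t, f₄ t ∂μ) + ∫ t, f₅ t ∂μ) := by
  have j2 : Integrable (fun t => f₁ t + f₂ t) μ := i₁.add i₂
  have j3 : Integrable (fun t => f₁ t + f₂ t + f₃ t) μ := j2.add i₃
  have j4 : Integrable (fun t => f₁ t + f₂ t + f₃ t + f₄ t) μ := j3.add i₄
  have j5 : Integrable (fun t => f₁ t + f₂ t + f₃ t + f₄ t + f₅ t) μ := j4.add i₅
  refine ⟨j5.const_mul 5, ?_⟩
  rw [integral_const_mul, integral_add j4 i₅, integral_add j3 i₄, integral_add j2 i₃,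
    integral_add i₁ i₂]

lemma int4 {μ : Measure ℝ} {f₁ f₂ f₃ : ℝ → ℝ} (a b c d : ℝ) (i₁ : Integrable f₁ μ)
    (i₂ : Integrable f₂ μ) (i₃ : Integrable f₃ μ) :
    Integrable (fun t => a * f₁ t + b * f₂ t + c * (f₃ t + d * f₂ t)) μ ∧
    ∫ t, (a * f₁ t + b * f₂ t + c * (f₃ t + d * f₂ t)) ∂μ =
      a * (∫ t, f₁ t ∂μ) + b * (∫ t, f₂ t ∂μ) + c * ((∫ t, f₃ t ∂μ) + d * ∫ t, f₂ t ∂μ) := by
  have j1 : Integrable (fun t => a * f₁ t) μ := i₁.const_mul a
  have j2 : Integrable (fun t => b * f₂ t) μ := i₂.const_mul b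
  have j3 : Integrable (fun t => d * f₂ t) μ := i₂.const_mul d
  have j4 : Integrable (fun t => f₃ t + d * f₂ t) μ := i₃.add j3
  have j5 : Integrable (fun t => c * (f₃ t + d * f₂ t)) μ := j4.const_mul c
  have j6 : Integrable (fun t => a * f₁ t + b * f₂ t) μ := j1.add j2
  refine ⟨j6.add j5, ?_⟩
  rw [integral_add j6 j5, integral_add j1 j2, integral_const_mul, integral_const_mul,
    integral_const_mul, integral_add i₃ j3, integral_const_mul]

lemma err_sq {D : ℕ → ℂ} (hD : Lip D) (A a : ℕ) (j : ℝ) (k : ℕ) (hk : (k : ℝ) = j) :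
    ‖D (A + k) - D a‖ ^ 2 ≤ ((a : ℝ) - A - j) ^ 2 := by
  have h1 := hD.le (A + k) a
  have h2 : ((A + k : ℕ) : ℝ) - a = -((a : ℝ) - A - j) := by
    push_cast
    rw [hk]; ring
  rw [h2, abs_neg] at h1
  calc _ ≤ |(a : ℝ) - A - j| ^ 2 := pow_le_pow_left₀ (norm_nonneg _) h1 2
    _ = _ := sq_abs _

/-- **comparison of the mean squares over windows of indices and over windows of the line** -/
theorem compare (hy : Mon y N) {z : ℕ → ℂ} (hz : ∀ i, ‖z i‖ ≤ 1) {R L : ℕ} (hR : 1 ≤ R)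
    (hL : 1 ≤ L) (hLR : 2 * L ≤ R) {Y : ℝ} (hY : 0 ≤ Y)
    (h1 : ∀ i, 1 ≤ i → i ≤ N → (R : ℝ) ≤ y i)
    (h2 : ∀ i, 1 ≤ i → i ≤ N → y i ≤ Y)
    {κ v q : ℝ} (hκ : 0 < κ) (hκ1 : κ ≤ 1) (hv : ∀ j : ℕ, j ≤ 2 * R → vv y N Y j ≤ v)
    (hq : ∀ k : ℕ, k ≤ 2 * L → Qw y N z k ≤ q) :
    |∑ m ∈ Finset.range N, ‖∑ i ∈ Finset.range R, z (m + 1 + i)‖ ^ 2 - Qw y N z R| ≤
      7 * κ * Qw y N z R + (40 * q + 68 * v) / κ + 9 * (R : ℝ) ^ 2 / (L : ℝ) ^ 2 * v / κ := by
  have hD := DS_lip hz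
  obtain ⟨D, hDd⟩ : ∃ D, D = DS z := ⟨_, rfl⟩
  rw [← hDd] at hD
  have hL0 : (0 : ℝ) < L := by exact_mod_cast hL
  have hR0 : (0 : ℝ) < R := by exact_mod_cast hR
  have hv0 : 0 ≤ v := (vv_nonneg Y ((0 : ℕ) : ℝ)).trans (hv 0 (by omega))
  have hs : ∀ t : ℝ, nu y N t ≤ nu y N (t + L) := fun t => nu_mono (by linarith)
  -- the window sums
  have hG : ∀ m, ‖∑ i ∈ Finset.range R, z (m + 1 + i)‖ ^ 2 = G D R m := by
    intro m
    unfold G
    rw [hDd, DS_sub z (by omega : m ≤ m + R)]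
    congr 2
    refine Finset.sum_bij (fun i _ => m + 1 + i) ?_ ?_ ?_ ?_
    · intro i hi
      rw [Finset.mem_range] at hi
      rw [Finset.mem_Ioc]
      omega
    · intro a _ b _ hab
      have : m + 1 + a = m + 1 + b := hab
      omega
    · intro b hb
      rw [Finset.mem_Ioc] at hb
      exact ⟨b - (m + 1), by rw [Finset.mem_range]; omega, by show m + 1 + (b - (m + 1)) = b; omega⟩
    · intro i _
      rfl
  simp_rw [hG]
  -- the line windows
  have hQ : ∀ k : ℕ, Integrable (fun t => ‖D (nu y N (t + k)) - D (nu y N t)‖ ^ 2) ∧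
      ∫ t, ‖D (nu y N (t + k)) - D (nu y N t)‖ ^ 2 = Qw y N z k := by
    intro k
    rw [hDd]
    exact mean_sq hy z (Nat.cast_nonneg k)
  have hQ0 : ∀ k : ℕ, 0 ≤ Qw y N z k := by
    intro k
    rw [← (hQ k).2]
    exact integral_nonneg fun t => by positivity
  have hq0 : 0 ≤ q := (hQ0 0).trans (hq 0 (by omega))
  -- the integral of `G`
  obtain ⟨M, hM⟩ : ∃ M : ℝ, M = ∫ t in Icc 0 Y, G D R (nu y N t) := ⟨_, rfl⟩
  have iG : Integrable (fun t => G D R (nu y N t)) (volume.restrict (Icc 0 Y)) := by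
    have := int_cnt (y := y) (N := N) (k := 1) (fun v => G D R (v 0)) (fun _ => 0) 0 Y
    simpa using this
  have hM0 : 0 ≤ M := by
    rw [hM]
    exact integral_nonneg fun t => G_nonneg _ _ _
  -- first comparison
  have c1 : |M - Qw y N z R| ≤ κ * Qw y N z R + 2 / κ * v := by
    have a1 : ∀ t : ℝ, |G D R (nu y N t) - ‖D (nu y N (t + R)) - D (nu y N t)‖ ^ 2| ≤
        κ * ‖D (nu y N (t + R)) - D (nu y N t)‖ ^ 2 +
          (1 + 1 / κ) * ((nu y N (t + R) : ℝ) - nu y N t - R) ^ 2 := by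
      intro t
      unfold G
      refine (sq_cmp _ (D (nu y N (t + R)) - D (nu y N t)) hκ).trans ?_
      have b1 := err_sq hD (nu y N t) (nu y N (t + R)) R R rfl
      have b2 : D (nu y N t + R) - D (nu y N t) - (D (nu y N (t + R)) - D (nu y N t)) =
          D (nu y N t + R) - D (nu y N (t + R)) := by ring
      rw [b2]
      have b3 : 0 ≤ 1 + 1 / κ := by positivity
      have := mul_le_mul_of_nonneg_left b1 b3
      linarith
    have a2 : ∫ t in Icc 0 Y, ‖D (nu y N (t + R)) - D (nu y N t)‖ ^ 2 = Qw y N z R := by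
      rw [← (hQ R).2]
      refine setIntegral_eq_integral_of_forall_compl_eq_zero fun t ht => ?_
      have : nu y N (t + R) = nu y N t := by
        apply le_antisymm _ (nu_mono (by linarith))
        by_contra hcon
        push Not at hcon
        obtain ⟨i, hi⟩ : ∃ i, i = nu y N t + 1 := ⟨_, rfl⟩
        have b1 := nu_le (y := y) (N := N) (t + R)
        have b2 : nu y N t < i ∧ i ≤ nu y N (t + R) := by omega
        have b3 := (mem_win hy (by omega : 1 ≤ i) (by omega) t R).1 b2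
        have b4 := h1 i (by omega) (by omega)
        have b5 := h2 i (by omega) (by omega)
        apply ht
        exact ⟨by linarith, by linarith⟩
      rw [this, sub_self, norm_zero]
      norm_num
    have iS := (hQ R).1.integrableOn (s := Icc (0 : ℝ) Y)
    have iV := vv_int (y := y) (N := N) Y R
    have a3 : M - Qw y N z R = ∫ t in Icc 0 Y,
        (G D R (nu y N t) - ‖D (nu y N (t + R)) - D (nu y N t)‖ ^ 2) := by
      rw [integral_sub iG iS, a2, hM]
    rw [a3]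
    calc |∫ t in Icc 0 Y, (G D R (nu y N t) - ‖D (nu y N (t + R)) - D (nu y N t)‖ ^ 2)| ≤
        ∫ t in Icc 0 Y, |G D R (nu y N t) - ‖D (nu y N (t + R)) - D (nu y N t)‖ ^ 2| :=
          abs_integral_le_integral_abs
      _ ≤ ∫ t in Icc 0 Y, (κ * ‖D (nu y N (t + R)) - D (nu y N t)‖ ^ 2 +
          (1 + 1 / κ) * ((nu y N (t + R) : ℝ) - nu y N t - R) ^ 2) :=
          integral_mono (iG.sub iS).abs ((iS.const_mul _).add (iV.const_mul _)) a1
      _ = κ * Qw y N z R + (1 + 1 / κ) * vv y N Y R := by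
          rw [integral_add (iS.const_mul _) (iV.const_mul _), integral_const_mul,
            integral_const_mul, a2]
          rfl
      _ ≤ κ * Qw y N z R + (1 + 1 / κ) * v := by
          have b3 : 0 ≤ 1 + 1 / κ := by positivity
          have := mul_le_mul_of_nonneg_left (hv R (by omega)) b3
          linarith
      _ ≤ _ := by
          have b4 : 1 + 1 / κ ≤ 2 / κ := by
            rw [← sub_nonneg]
            have : 2 / κ - (1 + 1 / κ) = (1 - κ) / κ := by field_simp; ring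
            rw [this]
            exact div_nonneg (by linarith) hκ.le
          have := mul_le_mul_of_nonneg_right b4 hv0
          linarith
  -- the shifts
  have c2 : ∀ k : ℕ, k < 2 * L → ∫ t in Icc 0 Y, E D R (nu y N t) (nu y N t + k) ≤
      5 * (2 * q + 3 * v) := by
    intro k hk
    have a1 : ∀ t : ℝ, E D R (nu y N t) (nu y N t + k) ≤
        5 * (‖D (nu y N (t + R + k)) - D (nu y N (t + R))‖ ^ 2 +
          ‖D (nu y N (t + k)) - D (nu y N t)‖ ^ 2 +
          ((nu y N (t + (R + k : ℕ)) : ℝ) - nu y N t - (R + k : ℕ)) ^ 2 +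
          ((nu y N (t + R) : ℝ) - nu y N t - R) ^ 2 +
          ((nu y N (t + k) : ℝ) - nu y N t - k) ^ 2) := by
      intro t
      unfold E
      have b1 := err_sq hD (nu y N t) (nu y N (t + (R + k : ℕ))) (R + k : ℕ) (R + k) rfl
      have b2 := err_sq hD (nu y N t) (nu y N (t + R)) R R rfl
      have b3 := err_sq hD (nu y N t) (nu y N (t + k)) k k rfl
      have b4 : D (nu y N t + k + R) - D (nu y N t + k) - (D (nu y N t + R) - D (nu y N t)) =
          (D (nu y N (t + R + k)) - D (nu y N (t + R))) +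
          -(D (nu y N (t + k)) - D (nu y N t)) +
          (D (nu y N t + (R + k)) - D (nu y N (t + (R + k : ℕ)))) +
          -(D (nu y N t + R) - D (nu y N (t + R))) +
          -(D (nu y N t + k) - D (nu y N (t + k))) := by
        have b5 : t + ((R + k : ℕ) : ℝ) = t + R + k := by push_cast; ring
        have b6 : nu y N t + k + R = nu y N t + (R + k) := by ring
        rw [b5, b6]
        ring
      rw [b4]
      refine (sq5 _ _ _ _ _).trans ?_
      rw [norm_neg, norm_neg, norm_neg]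
      linarith
    have iE : Integrable (fun t => E D R (nu y N t) (nu y N t + k)) (volume.restrict (Icc 0 Y)) := by
      have := int_cnt (y := y) (N := N) (k := 1) (fun v => E D R (v 0) (v 0 + k)) (fun _ => 0) 0 Y
      simpa using this
    have iS := (hQ k).1.integrableOn (s := Icc (0 : ℝ) Y)
    have iT' : Integrable (fun t => ‖D (nu y N (t + R + k)) - D (nu y N (t + R))‖ ^ 2) :=
      (hQ k).1.comp_add_right (R : ℝ)
    have iT := iT'.integrableOn (s := Icc (0 : ℝ) Y)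
    have iV1 := vv_int (y := y) (N := N) Y ((R + k : ℕ) : ℝ)
    have iV2 := vv_int (y := y) (N := N) Y R
    have iV3 := vv_int (y := y) (N := N) Y k
    have a2 : ∫ t in Icc 0 Y, ‖D (nu y N (t + k)) - D (nu y N t)‖ ^ 2 ≤ q := by
      refine le_trans ?_ (hq k hk.le)
      rw [← (hQ k).2]
      exact setIntegral_le_integral (hQ k).1 (ae_of_all _ fun t => by positivity)
    have a3 : ∫ t in Icc 0 Y, ‖D (nu y N (t + R + k)) - D (nu y N (t + R))‖ ^ 2 ≤ q := by
      refine le_trans ?_ (hq k hk.le)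
      rw [← (hQ k).2, ← integral_add_right_eq_self (fun t => ‖D (nu y N (t + k)) - D (nu y N t)‖ ^ 2)
        (R : ℝ)]
      exact setIntegral_le_integral iT' (ae_of_all _ fun t => by positivity)
    obtain ⟨k1, k2⟩ := int5 iT iS iV1 iV2 iV3
    refine (integral_mono iE k1 a1).trans ?_
    rw [k2]
    change 5 * ((∫ t in Icc 0 Y, ‖D (nu y N (t + R + k)) - D (nu y N (t + R))‖ ^ 2) +
        (∫ t in Icc 0 Y, ‖D (nu y N (t + k)) - D (nu y N t)‖ ^ 2) +
        vv y N Y (R + k : ℕ) + vv y N Y R + vv y N Y k) ≤ _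
    have g1 := hv (R + k) (by omega)
    have g2 := hv R (by omega)
    have g3 := hv k (by omega)
    linarith
  -- the second comparison
  have c3 : |(L : ℝ) * ∑ m ∈ Finset.range N, G D R m - L * M| ≤
      3 * κ * L * M + (R : ℝ) ^ 2 / (2 * κ * L) * v +
      (1 + 1 / κ) * (2 * L * (5 * (2 * q + 3 * v)) + 4 * (R : ℝ) ^ 2 / L * v) := by
    have hle : ∀ i, 1 ≤ i → i ≤ N → (L : ℝ) ≤ y i := by
      intro i g1 g2
      have g3 : (L : ℝ) ≤ R := by
        have : L ≤ R := by omega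
        exact_mod_cast this
      exact g3.trans (h1 i g1 g2)
    have iX : Integrable (fun t => ∑ m ∈ Finset.Ico (nu y N t) (nu y N (t + L)), G D R m)
        (volume.restrict (Icc 0 Y)) := by
      have := int_cnt (y := y) (N := N) (k := 2) (fun v => ∑ m ∈ Finset.Ico (v 0) (v 1), G D R m)
        (fun i => if i = 0 then 0 else (L : ℝ)) 0 Y
      simpa using this
    have iE : ∀ k : ℕ, Integrable (fun t => E D R (nu y N t) (nu y N t + k))
        (volume.restrict (Icc 0 Y)) := by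
      intro k
      have := int_cnt (y := y) (N := N) (k := 1) (fun v => E D R (v 0) (v 0 + k)) (fun _ => 0) 0 Y
      simpa using this
    have iV := vv_int (y := y) (N := N) Y L
    have iES : Integrable (fun t => ∑ k ∈ Finset.range (2 * L), E D R (nu y N t) (nu y N t + k))
        (volume.restrict (Icc 0 Y)) := integrable_finsetSum _ fun k _ => iE k
    have e0 : (L : ℝ) * ∑ m ∈ Finset.range N, G D R m - L * M =
        ∫ t in Icc 0 Y, (∑ m ∈ Finset.Ico (nu y N t) (nu y N (t + L)), G D R m -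
          L * G D R (nu y N t)) := by
      rw [integral_sub iX (iG.const_mul _), integral_const_mul, sum_id hy hL0.le hle h2 (G D R), hM]
    obtain ⟨k1, k2⟩ := int4 (3 * κ * L) ((R : ℝ) ^ 2 / (2 * κ * L)) (1 + 1 / κ)
      (4 * (R : ℝ) ^ 2 / L) iG iV iES
    rw [e0]
    calc |∫ t in Icc 0 Y, (∑ m ∈ Finset.Ico (nu y N t) (nu y N (t + L)), G D R m -
          L * G D R (nu y N t))| ≤
        ∫ t in Icc 0 Y, |∑ m ∈ Finset.Ico (nu y N t) (nu y N (t + L)), G D R m -
          L * G D R (nu y N t)| := abs_integral_le_integral_abs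
      _ ≤ ∫ t in Icc 0 Y, (3 * κ * L * G D R (nu y N t) +
          (R : ℝ) ^ 2 / (2 * κ * L) * ((nu y N (t + L) : ℝ) - nu y N t - L) ^ 2 +
          (1 + 1 / κ) * (∑ k ∈ Finset.range (2 * L), E D R (nu y N t) (nu y N t + k) +
            4 * (R : ℝ) ^ 2 / L * ((nu y N (t + L) : ℝ) - nu y N t - L) ^ 2)) := by
          exact integral_mono (iX.sub (iG.const_mul _)).abs k1 fun t =>
            pointwise hD hR hL (hs t) hκ hκ1
      _ = 3 * κ * L * M + (R : ℝ) ^ 2 / (2 * κ * L) * vv y N Y L +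
          (1 + 1 / κ) * ((∑ k ∈ Finset.range (2 * L), ∫ t in Icc 0 Y,
            E D R (nu y N t) (nu y N t + k)) + 4 * (R : ℝ) ^ 2 / L * vv y N Y L) := by
          rw [k2, integral_finsetSum _ fun k _ => iE k, hM]
          rfl
      _ ≤ _ := by
          have g1 : ∑ k ∈ Finset.range (2 * L), ∫ t in Icc 0 Y, E D R (nu y N t) (nu y N t + k) ≤
              2 * L * (5 * (2 * q + 3 * v)) := by
            refine (Finset.sum_le_card_nsmul _ _ (5 * (2 * q + 3 * v)) fun k hk =>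
              c2 k (Finset.mem_range.1 hk)).trans ?_
            rw [Finset.card_range, nsmul_eq_mul]
            push_cast
            exact le_rfl
          have g2 := hv L (by omega)
          have g3 : (0 : ℝ) ≤ (R : ℝ) ^ 2 / (2 * κ * L) := by positivity
          have g4 : (0 : ℝ) ≤ 4 * (R : ℝ) ^ 2 / L := by positivity
          have g5 : 0 ≤ 1 + 1 / κ := by positivity
          have g6 := mul_le_mul_of_nonneg_left g2 g3
          have g7 := mul_le_mul_of_nonneg_left g2 g4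
          have g8 := mul_le_mul_of_nonneg_left (add_le_add g1 g7) g5
          linarith
  -- division by `L`
  have c4 : |∑ m ∈ Finset.range N, G D R m - M| ≤
      3 * κ * M + 9 * (R : ℝ) ^ 2 / (L : ℝ) ^ 2 * v / κ + 20 / κ * (2 * q + 3 * v) := by
    have g0 : |(L : ℝ) * ∑ m ∈ Finset.range N, G D R m - L * M| =
        L * |∑ m ∈ Finset.range N, G D R m - M| := by
      rw [← mul_sub, abs_mul, abs_of_pos hL0]
    rw [g0] at c3
    have b4 : 1 + 1 / κ ≤ 2 / κ := by
      rw [← sub_nonneg]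
      have : 2 / κ - (1 + 1 / κ) = (1 - κ) / κ := by field_simp; ring
      rw [this]
      exact div_nonneg (by linarith) hκ.le
    have g1 : 0 ≤ 2 * L * (5 * (2 * q + 3 * v)) + 4 * (R : ℝ) ^ 2 / L * v := by positivity
    have g2 := mul_le_mul_of_nonneg_right b4 g1
    have g3 : L * |∑ m ∈ Finset.range N, G D R m - M| ≤
        L * (3 * κ * M + 9 * (R : ℝ) ^ 2 / (L : ℝ) ^ 2 * v / κ + 20 / κ * (2 * q + 3 * v)) := by
      have g4 : L * (3 * κ * M + 9 * (R : ℝ) ^ 2 / (L : ℝ) ^ 2 * v / κ + 20 / κ * (2 * q + 3 * v)) =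
          3 * κ * L * M + (R : ℝ) ^ 2 / (2 * κ * L) * v +
          2 / κ * (2 * L * (5 * (2 * q + 3 * v)) + 4 * (R : ℝ) ^ 2 / L * v) +
          (R : ℝ) ^ 2 / (2 * κ * L) * v := by
        field_simp
        ring
      have g5 : 0 ≤ (R : ℝ) ^ 2 / (2 * κ * L) * v := by positivity
      rw [g4]
      linarith
    exact le_of_mul_le_mul_left g3 hL0
  -- conclusion
  have g1 := (abs_le.1 c1).2
  have g2 : M ≤ 2 * Qw y N z R + 2 / κ * v := by
    have := hQ0 R
    nlinarith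
  have g3 : 3 * κ * M ≤ 6 * κ * Qw y N z R + 6 * v := by
    have := mul_le_mul_of_nonneg_left g2 (by positivity : 0 ≤ 3 * κ)
    have e : 3 * κ * (2 * Qw y N z R + 2 / κ * v) = 6 * κ * Qw y N z R + 6 * v := by
      field_simp
      ring
    linarith
  have g4 : v ≤ v / κ := by
    rw [le_div_iff₀ hκ]
    nlinarith
  calc |∑ m ∈ Finset.range N, G D R m - Qw y N z R| ≤
      |∑ m ∈ Finset.range N, G D R m - M| + |M - Qw y N z R| := abs_sub_le _ _ _
    _ ≤ (6 * κ * Qw y N z R + 6 * (v / κ) + 9 * (R : ℝ) ^ 2 / (L : ℝ) ^ 2 * v / κ +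
        20 / κ * (2 * q + 3 * v)) + (κ * Qw y N z R + 2 / κ * v) := by
        have : 6 * v ≤ 6 * (v / κ) := by linarith
        linarith
    _ = _ := by
        field_simp
        ring

end Pool.Agent.K9h45.PL
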