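import Pool.Agent.K9h45.PL.Pat

/-! # The law for patterns -/

set_option autoImplicit false

open MeasureTheory Set Filter Topology

namespace Pool.Agent.K9h45.PL

open Pool.Agent.Y749.Rig
open Pool.Agent.Y749.AH
open SG (ord NZ zmult ZS)

lemma e1_zero : e1 0 = 1 := by unfold e1; simp

lemma e1_int (k : ℤ) : e1 k = 1 := by
  unfold e1
  rw [Complex.exp_eq_one_iff]
  exact ⟨k, by push_cast; ring⟩

lemma e1_sub_norm (x y : ℝ) : ‖e1 x - e1 y‖ = ‖e1 (x - y) - 1‖ := by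
  have h : e1 x - e1 y = (e1 (x - y) - 1) * e1 y := by
    rw [sub_mul, ← e1_add, sub_add_cancel, one_mul]
  rw [h, norm_mul, e1_norm, mul_one]

lemma e1_one_norm (x : ℝ) : ‖e1 x - 1‖ ≤ 2 * Real.pi * |x| := by
  have h := Real.norm_exp_I_mul_ofReal_sub_one_le (x := 2 * Real.pi * x)
  have hpi := Real.pi_pos
  rw [Real.norm_eq_abs, abs_mul, abs_of_pos (by positivity : 0 < 2 * Real.pi)] at h
  unfold e1
  rw [mul_comm]
  exact h

lemma e1_add_one (x y : ℝ) : ‖e1 (x + y) - 1‖ ≤ ‖e1 x - 1‖ + ‖e1 y - 1‖ := by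
  have h : e1 (x + y) - 1 = (e1 x - 1) * e1 y + (e1 y - 1) := by
    rw [e1_add]; ring
  rw [h]
  refine (norm_add_le _ _).trans ?_
  rw [norm_mul, e1_norm, mul_one]

/-- the phases of a pattern -/
noncomputable def PP (θ : ℝ) (a : ℕ → ℝ) (n : ℕ) : ℂ := e1 (θ * ∑ j ∈ Finset.range n, a j)

lemma PP_norm (θ : ℝ) (a : ℕ → ℝ) (n : ℕ) : ‖PP θ a n‖ = 1 := e1_norm _

lemma er_eq (θ T : ℝ) (a : ℕ → ℝ) (j : ℕ) :
    er (fun i => e1 (θ * pt T i)) (PP θ a) j = ‖e1 (θ * (xx T (j + 1) j - a j)) - 1‖ := by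
  unfold er PP
  rw [e1_conj, e1_conj, ← e1_add, ← e1_add, e1_sub_norm, Finset.sum_range_succ, ← pt_xx]
  congr 3
  ring

/-- almost all spacings follow the pattern, at the frequency `θ` -/
def NearL (l : Filter ℝ) (θ : ℝ) (a : ℕ → ℝ) : Prop := ∀ ε η : ℝ, 0 < ε → 0 < η → ∀ᶠ T in l,
  (((Finset.Ioc 0 (NZ T)).filter (fun j => ε < ‖e1 (θ * (dj j - a j)) - 1‖)).card : ℝ) ≤ η * nT T

/-- **the law for patterns** -/
theorem pat_law (hRH : RiemannHypothesis) {l : Filter ℝ} (hl : l ≤ atTop) {θ c : ℝ} (hc : 0 ≤ c)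
    (hlaw : Law l θ c) {a : ℕ → ℝ} (ha : NearL l θ a) {ε : ℝ} (hε : 0 < ε) :
    ∃ R₀ : ℕ, ∀ R : ℕ, R₀ ≤ R → ∀ᶠ T in l,
      |∑ m ∈ Finset.range (NZ T), ‖∑ i ∈ Finset.range R, PP θ a (m + 1 + i)‖ ^ 2 -
        c * R * nT T| ≤ ε * R * nT T := by
  classical
  obtain ⟨R₀, h⟩ := idx_law hRH hl hc hlaw (show 0 < ε / 2 by positivity)
  refine ⟨max R₀ 1, fun R hR => ?_⟩
  have hR1 : 1 ≤ R := (le_max_right _ _).trans hR
  have hR0 : (0 : ℝ) < R := by exact_mod_cast hR1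
  have hpi := Real.pi_pos
  obtain ⟨ε', hε'⟩ : ∃ ε' : ℝ, ε' = ε / (32 * (R : ℝ) ^ 2) := ⟨_, rfl⟩
  have hε'0 : 0 < ε' := by rw [hε']; positivity
  obtain ⟨ε₁, hε₁⟩ : ∃ ε₁ : ℝ, ε₁ = ε' / (4 * Real.pi * (|θ| + 1)) := ⟨_, rfl⟩
  have hε₁0 : 0 < ε₁ := by rw [hε₁]; positivity
  obtain ⟨η, hη⟩ : ∃ η : ℝ, η = ε / (32 * (R : ℝ) ^ 2) := ⟨_, rfl⟩
  have hη0 : 0 < η := by rw [hη]; positivity
  filter_upwards [h R ((le_max_left _ _).trans hR), ha (ε' / 2) η (by positivity) hη0,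
    hl (norm_close hε₁0 hη0), hl (eventually_ge_atTop 10), hl (N_asymp one_pos),
    hl (Pool.Agent.Y763.AH.nT_atTop.eventually_ge_atTop (8 * (R : ℝ) ^ 3 / ε))]
    with T h1 h2 h3 h4 h5 h6
  have hn := nT_pos h4
  have hN : (NZ T : ℝ) ≤ 2 * nT T := by linarith [h5.2]
  have key := pat_diff (z := fun i => e1 (θ * pt T i)) (p := PP θ a) (fun i => e1_norm _)
    (fun i => PP_norm θ a i) (NZ T) R hε'0.le
  -- the bad indices
  have hsub : (Finset.Ioc 0 (NZ T)).filter (fun j => ε' < er (fun i => e1 (θ * pt T i)) (PP θ a) j) ⊆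
      (Finset.Ioc 0 (NZ T)).filter (fun j => ε₁ < |xx T (j + 1) j - dj j|) ∪
      (Finset.Ioc 0 (NZ T)).filter (fun j => ε' / 2 < ‖e1 (θ * (dj j - a j)) - 1‖) := by
    intro j hj
    rw [Finset.mem_filter] at hj
    rw [Finset.mem_union, Finset.mem_filter, Finset.mem_filter]
    by_contra hcon
    push Not at hcon
    have g1 := hcon.1 hj.1
    have g2 := hcon.2 hj.1
    have g3 := hj.2
    rw [er_eq] at g3
    have e : θ * (xx T (j + 1) j - a j) = θ * (xx T (j + 1) j - dj j) + θ * (dj j - a j) := by ring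
    rw [e] at g3
    have g4 := e1_add_one (θ * (xx T (j + 1) j - dj j)) (θ * (dj j - a j))
    have g5 := e1_one_norm (θ * (xx T (j + 1) j - dj j))
    have g6 : 2 * Real.pi * |θ * (xx T (j + 1) j - dj j)| ≤ ε' / 2 := by
      rw [abs_mul]
      calc 2 * Real.pi * (|θ| * |xx T (j + 1) j - dj j|) ≤
          2 * Real.pi * ((|θ| + 1) * ε₁) := by
            gcongr
            linarith
        _ = ε' / 2 := by
            rw [hε₁]
            field_simp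
            ring
    linarith
  have hcard : (((Finset.Ioc 0 (NZ T)).filter
      (fun j => ε' < er (fun i => e1 (θ * pt T i)) (PP θ a) j)).card : ℝ) ≤ 2 * η * nT T := by
    have := (Finset.card_le_card hsub).trans (Finset.card_union_le _ _)
    have h7 : (((Finset.Ioc 0 (NZ T)).filter
        (fun j => ε' < er (fun i => e1 (θ * pt T i)) (PP θ a) j)).card : ℝ) ≤
        (((Finset.Ioc 0 (NZ T)).filter (fun j => ε₁ < |xx T (j + 1) j - dj j|)).card : ℝ) +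
        (((Finset.Ioc 0 (NZ T)).filter
          (fun j => ε' / 2 < ‖e1 (θ * (dj j - a j)) - 1‖)).card : ℝ) := by exact_mod_cast this
    linarith
  have k1 : 2 * (R : ℝ) ^ 3 * ε' * NZ T ≤ ε / 8 * R * nT T := by
    calc 2 * (R : ℝ) ^ 3 * ε' * NZ T ≤ 2 * (R : ℝ) ^ 3 * ε' * (2 * nT T) := by gcongr
      _ = ε / 8 * R * nT T := by
          rw [hε']
          field_simp
          ring
  have k2 : (R : ℝ) ^ 3 * (2 * η * nT T) = ε / 16 * R * nT T := by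
    rw [hη]
    field_simp
    ring
  have k3 : (R : ℝ) ^ 3 * R ≤ ε / 8 * R * nT T := by
    rw [div_le_iff₀ hε] at h6
    have : (R : ℝ) ^ 3 ≤ ε / 8 * nT T := by linarith
    calc (R : ℝ) ^ 3 * R ≤ (ε / 8 * nT T) * R := by gcongr
      _ = _ := by ring
  have k4 : (R : ℝ) ^ 3 * ((((Finset.Ioc 0 (NZ T)).filter
      (fun j => ε' < er (fun i => e1 (θ * pt T i)) (PP θ a) j)).card : ℝ) + R) ≤
      ε / 16 * R * nT T + ε / 8 * R * nT T := by
    rw [mul_add, ← k2]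
    have : (R : ℝ) ^ 3 * (((Finset.Ioc 0 (NZ T)).filter
      (fun j => ε' < er (fun i => e1 (θ * pt T i)) (PP θ a) j)).card : ℝ) ≤
      (R : ℝ) ^ 3 * (2 * η * nT T) := by gcongr
    linarith
  have hfin := abs_sub_le (∑ m ∈ Finset.range (NZ T), ‖∑ i ∈ Finset.range R, PP θ a (m + 1 + i)‖ ^ 2)
    (∑ m ∈ Finset.range (NZ T), ‖∑ i ∈ Finset.range R, e1 (θ * pt T (m + 1 + i))‖ ^ 2)
    (c * R * nT T)
  rw [abs_sub_comm] at key
  have hpos : 0 ≤ ε * R * nT T := by positivity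
  have e3 : ε / 2 * R * nT T = ε * R * nT T / 2 := by ring
  have e4 : ε / 8 * R * nT T = ε * R * nT T / 8 := by ring
  have e5 : ε / 16 * R * nT T = ε * R * nT T / 16 := by ring
  rw [e3] at h1
  rw [e4] at k1 k4
  rw [e5] at k4
  linarith

/-- the number of zeros up to the `N`-th ordinate -/
theorem ord_asymp {ε : ℝ} (hε : 0 < ε) : ∀ᶠ N : ℕ in atTop,
    |nT (ord N) - N| ≤ ε * N ∧ (NZ (ord N) : ℝ) ≤ (1 + ε) * N ∧ N ≤ NZ (ord N) := by
  obtain ⟨δ, hδ⟩ : ∃ δ : ℝ, δ = min (1 / 4) (ε / 16) := ⟨_, rfl⟩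
  have hδ0 : 0 < δ := by rw [hδ]; exact lt_min (by norm_num) (by positivity)
  have hδ1 : δ ≤ 1 / 4 := by rw [hδ]; exact min_le_left _ _
  have hδ2 : δ ≤ ε / 16 := by rw [hδ]; exact min_le_right _ _
  have ht := SG.ord_tendsto
  have ht2 : Tendsto (fun N : ℕ => (1 - δ) * ord N) atTop atTop :=
    ht.const_mul_atTop (by linarith)
  filter_upwards [ht.eventually (N_asymp hδ0), ht2.eventually (N_asymp hδ0),
    ht.eventually (eventually_ge_atTop 20), eventually_ge_atTop 1,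
    (Real.tendsto_log_atTop.comp ht).eventually_ge_atTop (|Real.log (1 - δ)| / δ)]
    with N h1 h2 h3 h4 h5
  obtain ⟨x, hx⟩ : ∃ x : ℝ, x = ord N := ⟨_, rfl⟩
  simp only [Function.comp] at h5
  rw [← hx] at h1 h2 h3 h5 ⊢
  have hpi := Real.pi_pos
  have hx0 : 0 < x := by linarith
  have hN1 : N ≤ NZ x := by rw [hx]; exact SG.le_NZ_ord h4
  have hN1' : (N : ℝ) ≤ NZ x := by exact_mod_cast hN1
  have hN2 : NZ ((1 - δ) * x) < N := by
    by_contra hcon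
    push Not at hcon
    have h6 := (SG.ord_le_iff h4 _).2 hcon
    rw [← hx] at h6
    nlinarith
  have hN2' : (NZ ((1 - δ) * x) : ℝ) ≤ N := by exact_mod_cast hN2.le
  have hn := nT_pos (show (10 : ℝ) ≤ x by linarith)
  have h6 : (1 - δ) * (1 - δ) * nT x ≤ nT ((1 - δ) * x) := by
    unfold nT
    rw [Real.log_mul (by linarith) hx0.ne']
    rw [div_le_iff₀ hδ0] at h5
    have h7 : -(δ * Real.log x) ≤ Real.log (1 - δ) := by
      have := neg_abs_le (Real.log (1 - δ))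
      linarith
    rw [mul_div_assoc', div_le_div_iff_of_pos_right (by positivity)]
    have h8 : (1 - δ) * Real.log x ≤ Real.log (1 - δ) + Real.log x := by linarith
    have h9 : 0 ≤ (1 - δ) * x := by nlinarith
    have := mul_le_mul_of_nonneg_left h8 h9
    linarith
  have h7 : (1 - δ) * ((1 - δ) * (1 - δ) * nT x) ≤ N := by
    have := mul_le_mul_of_nonneg_left h6 (by linarith : (0 : ℝ) ≤ 1 - δ)
    linarith [h2.1]
  have h8 : (1 - 3 * δ) * nT x ≤ N := by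
    have : (1 - 3 * δ) ≤ (1 - δ) * ((1 - δ) * (1 - δ)) := by nlinarith [sq_nonneg δ, hδ0]
    have := mul_le_mul_of_nonneg_right this hn.le
    linarith
  have h9 : (N : ℝ) ≤ (1 + δ) * nT x := hN1'.trans h1.2
  have hnN : nT x ≤ 4 * N := by nlinarith
  have h10 : δ * nT x ≤ ε / 4 * N := by
    calc δ * nT x ≤ δ * (4 * N) := by gcongr
      _ ≤ ε / 16 * (4 * N) := by gcongr
      _ = _ := by ring
  have hN0 : (0 : ℝ) ≤ N := Nat.cast_nonneg N
  refine ⟨?_, ?_, hN1⟩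
  · rw [abs_le]
    have h11 : 0 ≤ ε * N := by positivity
    constructor <;> linarith
  · have := h1.2
    linarith

/-- the mean square of the sums over `R` consecutive terms, divided by `R` -/
noncomputable def VV (w : ℕ → ℂ) (R N : ℕ) : ℝ :=
  (∑ n ∈ Finset.Icc 1 N, ‖∑ i ∈ Finset.range R, w (n + i)‖ ^ 2) / (N * R)

/-- the mean squares tend to `c` -/
def MS (l : Filter ℕ) (w : ℕ → ℂ) (c : ℝ) : Prop := ∀ ε : ℝ, 0 < ε → ∃ R₀ : ℕ, ∀ R : ℕ, R₀ ≤ R →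
  ∀ᶠ N in l, |VV w R N - c| < ε

lemma sum_shift (f : ℕ → ℝ) (N : ℕ) :
    ∑ n ∈ Finset.Icc 1 N, f n = ∑ m ∈ Finset.range N, f (m + 1) := by
  rw [Finset.range_eq_Ico, Finset.sum_Ico_add' f 0 N 1]
  refine Finset.sum_congr ?_ fun _ _ => rfl
  ext k
  rw [Finset.mem_Icc, Finset.mem_Ico]
  omega

/-- from heights to indices -/
theorem to_idx {l : Filter ℕ} (hl : l ≤ atTop) {w : ℕ → ℂ} (hw : ∀ n, ‖w n‖ = 1) {c : ℝ}
    (hc : 0 ≤ c)
    (h : ∀ ε : ℝ, 0 < ε → ∃ R₀ : ℕ, ∀ R : ℕ, R₀ ≤ R → ∀ᶠ T in l.map ord,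
      |∑ m ∈ Finset.range (NZ T), ‖∑ i ∈ Finset.range R, w (m + 1 + i)‖ ^ 2 - c * R * nT T| ≤
        ε * R * nT T) : MS l w c := by
  intro ε hε
  obtain ⟨R₀, h1⟩ := h (ε / 4) (by positivity)
  refine ⟨max R₀ 1, fun R hR => ?_⟩
  have hR1 : 1 ≤ R := (le_max_right _ _).trans hR
  have hR0 : (0 : ℝ) < R := by exact_mod_cast hR1
  obtain ⟨δ, hδ⟩ : ∃ δ : ℝ, δ = min 1 (ε / (8 * (R + c + 1))) := ⟨_, rfl⟩
  have hδ0 : 0 < δ := by rw [hδ]; exact lt_min one_pos (by positivity)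
  have hδ1 : δ ≤ 1 := by rw [hδ]; exact min_le_left _ _
  have hδ2 : δ * (R + c + 1) ≤ ε / 8 := by
    have : δ ≤ ε / (8 * (R + c + 1)) := by rw [hδ]; exact min_le_right _ _
    rw [le_div_iff₀ (by positivity)] at this
    linarith
  have h2 := h1 R ((le_max_left _ _).trans hR)
  rw [Filter.eventually_map] at h2
  filter_upwards [h2, hl (ord_asymp hδ0), hl (eventually_ge_atTop 1)] with N g1 g2 g3
  obtain ⟨g4, g5, g6⟩ := g2
  have hN0 : (0 : ℝ) < N := by exact_mod_cast g3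
  -- the sums
  obtain ⟨S, hS⟩ : ∃ S : ℝ, S = ∑ n ∈ Finset.Icc 1 N, ‖∑ i ∈ Finset.range R, w (n + i)‖ ^ 2 :=
    ⟨_, rfl⟩
  have e1 : S = ∑ m ∈ Finset.range N, ‖∑ i ∈ Finset.range R, w (m + 1 + i)‖ ^ 2 := by
    rw [hS]
    exact sum_shift (fun n => ‖∑ i ∈ Finset.range R, w (n + i)‖ ^ 2) N
  have e2 : ∑ m ∈ Finset.range (NZ (ord N)), ‖∑ i ∈ Finset.range R, w (m + 1 + i)‖ ^ 2 =
      S + ∑ m ∈ Finset.Ico N (NZ (ord N)), ‖∑ i ∈ Finset.range R, w (m + 1 + i)‖ ^ 2 := by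
    rw [e1, Finset.sum_range_add_sum_Ico _ g6]
  have e3 : ∑ m ∈ Finset.Ico N (NZ (ord N)), ‖∑ i ∈ Finset.range R, w (m + 1 + i)‖ ^ 2 ≤
      δ * N * (R : ℝ) ^ 2 := by
    refine (Finset.sum_le_card_nsmul _ _ ((R : ℝ) ^ 2) fun m _ => ?_).trans ?_
    · apply pow_le_pow_left₀ (norm_nonneg _)
      refine (norm_sum_le _ _).trans ?_
      rw [Finset.sum_congr rfl (fun i _ => hw (m + 1 + i))]
      simp
    · rw [Nat.card_Ico, nsmul_eq_mul, Nat.cast_sub g6]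
      gcongr
      linarith
  have e4 : 0 ≤ ∑ m ∈ Finset.Ico N (NZ (ord N)), ‖∑ i ∈ Finset.range R, w (m + 1 + i)‖ ^ 2 :=
    Finset.sum_nonneg fun _ _ => by positivity
  rw [e2] at g1
  obtain ⟨k1, k2⟩ := abs_le.1 g1
  obtain ⟨k3, k4⟩ := abs_le.1 g4
  have hnT : nT (ord N) ≤ 2 * N := by nlinarith
  have q1 : ε / 4 * R * nT (ord N) ≤ ε / 4 * R * (2 * N) := by gcongr
  have q2 : |c * R * nT (ord N) - c * R * N| ≤ c * R * (δ * N) := by
    rw [← mul_sub, abs_mul, abs_of_nonneg (by positivity)]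
    gcongr
  obtain ⟨k5, k6⟩ := abs_le.1 q2
  have q3 : δ * N * (R : ℝ) ^ 2 + c * R * (δ * N) ≤ ε / 8 * (N * R) := by
    have : δ * N * (R : ℝ) ^ 2 + c * R * (δ * N) = δ * (R + c) * (N * R) := by ring
    rw [this]
    have : δ * (R + c) ≤ ε / 8 := by linarith
    gcongr
  have hNR : 0 < (N : ℝ) * R := by positivity
  have q4 : VV w R N - c = (S - c * R * N) / (N * R) := by
    unfold VV
    rw [← hS]
    field_simp
  rw [q4, abs_div, abs_of_pos hNR, div_lt_iff₀ hNR, abs_lt]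
  have q5 : ε / 4 * R * (2 * N) = ε / 2 * (N * R) := by ring
  rw [q5] at q1
  have q6 : 0 < ε * (N * R) := by positivity
  constructor <;> linarith

end Pool.Agent.K9h45.PL
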