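import Pool.Agent.H238R3.UL.Poly
import Pool.Agent.K9h45.PL.Pat2

/-! # Weyl sums of polynomials with an irrational coefficient -/

set_option autoImplicit false

open Filter Topology Polynomial

namespace Pool.Agent.K9h45.PL

lemma e_eq (t : ℝ) : Pool.Agent.H332R2.Lit.e t = e1 t := by
  unfold Pool.Agent.H332R2.Lit.e e1
  congr 1
  push_cast
  ring

/-- the field of rational numbers inside `ℝ` -/
noncomputable def KQ : Subfield ℝ := (Rat.castHom ℝ).fieldRange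

lemma mem_KQ {x : ℝ} : x ∈ KQ ↔ ¬ Irrational x := by
  unfold KQ Irrational
  rw [not_not]
  exact Iff.rfl

lemma not_mem_KQ {x : ℝ} : x ∉ KQ ↔ Irrational x := by
  rw [mem_KQ, not_not]

/-- leading coefficient irrational -/
theorem weyl_top (P : ℝ[X]) {d : ℕ} (hd : P.natDegree ≤ d + 1) (hP : Irrational (P.coeff (d + 1)))
    {κ : ℝ} (hκ : 0 < κ) :
    ∃ N₀ : ℕ, ∀ N ≥ N₀, ‖∑ n ∈ Finset.range N, e1 (P.eval (n : ℝ))‖ ≤ κ * N := by
  obtain ⟨M, hM, h⟩ := Pool.Agent.H238R3.UL.weyl_unif d κ hκ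
  have hne : ∀ m ∈ Finset.Icc 1 M,
      0 < |(m : ℝ) * P.coeff (d + 1) - round ((m : ℝ) * P.coeff (d + 1))| := by
    intro m hm
    have h1 : 1 ≤ m := (Finset.mem_Icc.1 hm).1
    have h2 : Irrational ((m : ℝ) * P.coeff (d + 1)) := by
      rw [irrational_natCast_mul_iff]
      exact ⟨by omega, hP⟩
    rw [abs_pos, sub_ne_zero]
    exact h2.ne_int _
  obtain ⟨η, hη, hη2⟩ : ∃ η : ℝ, 0 < η ∧ ∀ m ∈ Finset.Icc 1 M,
      η ≤ |(m : ℝ) * P.coeff (d + 1) - round ((m : ℝ) * P.coeff (d + 1))| := by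
    have hne2 : (Finset.Icc 1 M).Nonempty := ⟨1, Finset.mem_Icc.2 ⟨le_rfl, hM⟩⟩
    obtain ⟨m₀, hm₀, hmin⟩ := Finset.exists_min_image (Finset.Icc 1 M)
      (fun m : ℕ => |(m : ℝ) * P.coeff (d + 1) - round ((m : ℝ) * P.coeff (d + 1))|) hne2
    exact ⟨_, hne m₀ hm₀, hmin⟩
  obtain ⟨N₀, hN⟩ := h η hη
  refine ⟨N₀, fun N hN' => ?_⟩
  have := hN P hd hη2 N hN'
  simpa only [e_eq] using this

lemma sum_mul_range (f : ℕ → ℂ) (D M : ℕ) :
    ∑ n ∈ Finset.range (D * M), f n =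
      ∑ r ∈ Finset.range D, ∑ m ∈ Finset.range M, f (D * m + r) := by
  rw [Finset.sum_comm]
  induction M with
  | zero => simp
  | succ M ih =>
      rw [Finset.sum_range_succ, ← ih, Nat.mul_succ, Finset.sum_range_add]

/-- sums over residue classes -/
lemma residues {f : ℕ → ℂ} (hf : ∀ n, ‖f n‖ ≤ 1) {D : ℕ} (hD : 1 ≤ D)
    (h : ∀ r < D, ∀ κ : ℝ, 0 < κ → ∃ N₀ : ℕ, ∀ N ≥ N₀,
      ‖∑ m ∈ Finset.range N, f (D * m + r)‖ ≤ κ * N) {κ : ℝ} (hκ : 0 < κ) :
    ∃ N₀ : ℕ, ∀ N ≥ N₀, ‖∑ n ∈ Finset.range N, f n‖ ≤ κ * N := by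
  have h1 : ∀ r : ℕ, ∃ N₀ : ℕ, r < D → ∀ N ≥ N₀,
      ‖∑ m ∈ Finset.range N, f (D * m + r)‖ ≤ κ / 2 * N := by
    intro r
    by_cases hr : r < D
    · obtain ⟨N₀, h2⟩ := h r hr (κ / 2) (by positivity)
      exact ⟨N₀, fun _ => h2⟩
    · exact ⟨0, fun h2 => absurd h2 hr⟩
  choose g hg using h1
  obtain ⟨G, hG⟩ : ∃ G : ℕ, ∀ r < D, g r ≤ G := by
    refine ⟨∑ r ∈ Finset.range D, g r, fun r hr => ?_⟩
    exact Finset.single_le_sum (f := g) (fun _ _ => Nat.zero_le _) (Finset.mem_range.2 hr)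
  obtain ⟨A, hA⟩ := exists_nat_ge (2 * (D : ℝ) / κ)
  refine ⟨D * (G + 1) + A, fun N hN => ?_⟩
  have hN1 : N = D * (N / D) + N % D := (Nat.div_add_mod N D).symm
  have hM : G ≤ N / D := by
    rw [Nat.le_div_iff_mul_le (by omega)]
    have : G * D ≤ D * (G + 1) := by nlinarith
    omega
  have h2 : ∑ n ∈ Finset.range N, f n = ∑ n ∈ Finset.range (D * (N / D)), f n +
      ∑ k ∈ Finset.range (N % D), f (D * (N / D) + k) := by
    conv_lhs => rw [hN1, Finset.sum_range_add]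
  have h3 : ‖∑ k ∈ Finset.range (N % D), f (D * (N / D) + k)‖ ≤ D := by
    refine (norm_sum_le _ _).trans ((Finset.sum_le_card_nsmul _ _ 1 fun k _ => hf _).trans ?_)
    rw [Finset.card_range, nsmul_eq_mul, mul_one]
    exact_mod_cast (Nat.mod_lt N (by omega)).le
  have h4 : ‖∑ n ∈ Finset.range (D * (N / D)), f n‖ ≤ D * (κ / 2 * ((N / D : ℕ) : ℝ)) := by
    rw [sum_mul_range]
    refine (norm_sum_le _ _).trans ((Finset.sum_le_card_nsmul _ _ (κ / 2 * ((N / D : ℕ) : ℝ))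
      fun r hr => ?_).trans ?_)
    · have hr' := Finset.mem_range.1 hr
      exact hg r hr' _ ((hG r hr').trans hM)
    · rw [Finset.card_range, nsmul_eq_mul]
  have h5 : (D : ℝ) * ((N / D : ℕ) : ℝ) ≤ N := by
    have : D * (N / D) ≤ N := Nat.mul_div_le N D
    exact_mod_cast this
  have h6 : 2 * (D : ℝ) / κ ≤ N := hA.trans (by exact_mod_cast (by omega : A ≤ N))
  rw [div_le_iff₀ hκ] at h6
  rw [h2]
  refine (norm_add_le _ _).trans ?_
  have h7 : (D : ℝ) * (κ / 2 * ((N / D : ℕ) : ℝ)) ≤ κ / 2 * N := by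
    calc (D : ℝ) * (κ / 2 * ((N / D : ℕ) : ℝ)) = κ / 2 * ((D : ℝ) * ((N / D : ℕ) : ℝ)) := by ring
      _ ≤ κ / 2 * N := by gcongr
  linarith

/-- common denominators -/
lemma common_den (p : ℕ → ℝ) (s : Finset ℕ) (hp : ∀ j ∈ s, p j ∈ KQ) :
    ∃ D : ℕ, 1 ≤ D ∧ ∀ j ∈ s, ∃ z : ℤ, (D : ℝ) * p j = z := by
  classical
  induction s using Finset.induction_on with
  | empty => exact ⟨1, le_rfl, fun j hj => absurd hj (Finset.notMem_empty j)⟩
  | insert a s ha ih =>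
      obtain ⟨D, hD, h⟩ := ih fun j hj => hp j (Finset.mem_insert_of_mem hj)
      obtain ⟨q, hq⟩ : ∃ q : ℚ, (q : ℝ) = p a := hp a (Finset.mem_insert_self a s)
      refine ⟨D * q.den, Nat.mul_pos hD q.den_pos, fun j hj => ?_⟩
      rcases Finset.mem_insert.1 hj with h1 | h1
      · subst h1
        refine ⟨D * q.num, ?_⟩
        rw [← hq]
        have h2 : ((q.den : ℝ)) * (q : ℝ) = q.num := by
          have := Rat.den_mul_eq_num q
          exact_mod_cast this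
        push_cast
        rw [mul_assoc, h2]
      · obtain ⟨z, hz⟩ := h j h1
        refine ⟨z * q.den, ?_⟩
        push_cast
        rw [mul_right_comm, hz]

lemma e1_eq_of_int {x y : ℝ} (h : ∃ z : ℤ, x - y = z) : e1 x = e1 y := by
  obtain ⟨z, hz⟩ := h
  have : x = y + z := by linarith
  rw [this, e1_add, e1_int, mul_one]

/-- **Weyl's theorem** for polynomials with an irrational coefficient -/
theorem weyl_gen (P : ℝ[X]) {i : ℕ} (hi : 1 ≤ i) (hP : Irrational (P.coeff i))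
    (hrat : ∀ j, i < j → P.coeff j ∈ KQ) {κ : ℝ} (hκ : 0 < κ) :
    ∃ N₀ : ℕ, ∀ N ≥ N₀, ‖∑ n ∈ Finset.range N, e1 (P.eval (n : ℝ))‖ ≤ κ * N := by
  obtain ⟨D, hD, hden⟩ := common_den P.coeff (Finset.Ioc i P.natDegree)
    fun j hj => hrat j (Finset.mem_Ioc.1 hj).1
  have hDR : (0 : ℝ) < D := by exact_mod_cast hD
  -- the low part
  obtain ⟨A, hA⟩ : ∃ A : ℝ[X], A = ∑ j ∈ Finset.range (i + 1), monomial j (P.coeff j) := ⟨_, rfl⟩
  have hAc : ∀ k, A.coeff k = if k < i + 1 then P.coeff k else 0 := by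
    intro k
    rw [hA, finsetSum_coeff]
    simp only [coeff_monomial]
    rw [Finset.sum_ite_eq' (Finset.range (i + 1)) k]
    simp only [Finset.mem_range]
  have hAi : A.coeff i = P.coeff i := by rw [hAc, if_pos (by omega)]
  have hAd : A.natDegree = i := by
    apply le_antisymm
    · rw [natDegree_le_iff_coeff_eq_zero]
      intro k hk
      rw [hAc, if_neg (by omega)]
    · apply le_natDegree_of_ne_zero
      rw [hAi]
      exact hP.ne_zero
  have hi1 : i ≤ P.natDegree := by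
    apply le_natDegree_of_ne_zero
    exact hP.ne_zero
  have hAe : ∀ x : ℝ, A.eval x = ∑ j ∈ Finset.range (i + 1), P.coeff j * x ^ j := by
    intro x
    rw [hA, eval_finsetSum]
    exact Finset.sum_congr rfl fun j _ => by rw [eval_monomial]
  have hPe : ∀ x : ℝ, P.eval x = A.eval x +
      ∑ j ∈ Finset.Ioc i P.natDegree, P.coeff j * x ^ j := by
    intro x
    rw [eval_eq_sum_range, hAe, ← Finset.sum_range_add_sum_Ico _
      (show i + 1 ≤ P.natDegree + 1 by omega)]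
    congr 1
    refine Finset.sum_congr ?_ fun _ _ => rfl
    ext k
    rw [Finset.mem_Ico, Finset.mem_Ioc]
    omega
  refine residues (f := fun n => e1 (P.eval (n : ℝ))) (fun n => (e1_norm _).le) hD ?_ hκ
  intro r hr κ' hκ'
  -- the polynomial in the residue class
  obtain ⟨L, hL⟩ : ∃ L : ℝ[X], L = C (D : ℝ) * X + C (r : ℝ) := ⟨_, rfl⟩
  have hLd : L.natDegree = 1 := by
    rw [hL]
    exact natDegree_linear hDR.ne'
  have hLl : L.leadingCoeff = D := by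
    rw [hL]
    exact leadingCoeff_linear hDR.ne'
  obtain ⟨B, hB⟩ : ∃ B : ℝ[X], B = A.comp L + C (∑ j ∈ Finset.Ioc i P.natDegree,
      P.coeff j * (r : ℝ) ^ j) := ⟨_, rfl⟩
  obtain ⟨d, hd⟩ : ∃ d : ℕ, i = d + 1 := ⟨i - 1, by omega⟩
  have hBd : B.natDegree ≤ d + 1 := by
    rw [hB]
    refine (natDegree_add_le _ _).trans ?_
    rw [natDegree_C, natDegree_comp, hAd, hLd, mul_one, hd]
    simp
  have hBc : B.coeff (d + 1) = P.coeff i * (D : ℝ) ^ i := by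
    rw [hB, coeff_add, coeff_C, if_neg (by omega), add_zero]
    have h1 := coeff_comp_degree_mul_degree (p := A) (q := L) (by rw [hLd]; norm_num)
    rw [hAd, hLd, mul_one, hLl, leadingCoeff, hAd, hAi] at h1
    rw [← hd]
    exact h1
  have hBi : Irrational (B.coeff (d + 1)) := by
    rw [hBc, ← not_mem_KQ]
    intro hcon
    rw [← not_mem_KQ] at hP
    apply hP
    have h1 : (D : ℝ) ^ i ∈ KQ := pow_mem (natCast_mem KQ D) i
    have h2 := KQ.mul_mem hcon (KQ.inv_mem h1)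
    have h3 : P.coeff i * (D : ℝ) ^ i * ((D : ℝ) ^ i)⁻¹ = P.coeff i := by
      field_simp
    rwa [h3] at h2
  obtain ⟨N₀, hN₀⟩ := weyl_top B hBd hBi hκ'
  refine ⟨N₀, fun N hN => ?_⟩
  refine le_trans (le_of_eq ?_) (hN₀ N hN)
  congr 1
  refine Finset.sum_congr rfl fun m _ => ?_
  apply e1_eq_of_int
  rw [hPe, hB, eval_add, eval_C, eval_comp]
  have hLe : L.eval (m : ℝ) = ((D * m + r : ℕ) : ℝ) := by
    rw [hL]
    simp
  rw [hLe]
  have h1 : ∀ j ∈ Finset.Ioc i P.natDegree, ∃ z : ℤ,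
      P.coeff j * ((D * m + r : ℕ) : ℝ) ^ j - P.coeff j * (r : ℝ) ^ j = z := by
    intro j hj
    obtain ⟨z, hz⟩ := hden j hj
    have h2 : ((D * m + r : ℕ) : ℤ) - (r : ℤ) ∣ ((D * m + r : ℕ) : ℤ) ^ j - (r : ℤ) ^ j :=
      sub_dvd_pow_sub_pow _ _ _
    have h3 : ((D * m + r : ℕ) : ℤ) - (r : ℤ) = D * m := by push_cast; ring
    rw [h3] at h2
    obtain ⟨t, ht⟩ := h2
    refine ⟨z * (m * t), ?_⟩
    have ht' : ((D * m + r : ℕ) : ℝ) ^ j - (r : ℝ) ^ j = D * m * t := by exact_mod_cast ht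
    rw [← mul_sub, ht']
    push_cast
    rw [← hz]
    ring
  have h2 : ∃ z : ℤ, ∑ j ∈ Finset.Ioc i P.natDegree, P.coeff j * ((D * m + r : ℕ) : ℝ) ^ j -
      ∑ j ∈ Finset.Ioc i P.natDegree, P.coeff j * (r : ℝ) ^ j = z := by
    rw [← Finset.sum_sub_distrib]
    choose! g hg using h1
    refine ⟨∑ j ∈ Finset.Ioc i P.natDegree, g j, ?_⟩
    rw [Int.cast_sum]
    exact Finset.sum_congr rfl hg
  obtain ⟨z, hz⟩ := h2
  exact ⟨z, by linarith⟩

end Pool.Agent.K9h45.PL
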