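import Pool.Agent.H177R3.PerD
import Pool.Agent.K9h45.PL.Poly

/-! # White phases and polynomial patterns -/

set_option autoImplicit false

open Filter Topology Polynomial

namespace Pool.Agent.K9h45.PL

/-- the mean squares of a sequence without correlations -/
theorem VV_white {w : ℕ → ℂ} (hw : ∀ n, ‖w n‖ = 1)
    (hc : ∀ h : ℕ, 1 ≤ h → ∀ κ : ℝ, 0 < κ → ∃ N₀ : ℕ, ∀ N ≥ N₀,
      ‖∑ n ∈ Finset.range N, w (n + h) * (starRingEnd ℂ) (w n)‖ ≤ κ * N)
    {R : ℕ} (hR : 1 ≤ R) {ε : ℝ} (hε : 0 < ε) : ∀ᶠ N in atTop, |VV w R N - 1| < ε := by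
  have hR0 : (0 : ℝ) < R := by exact_mod_cast hR
  obtain ⟨κ, hκ⟩ : ∃ κ : ℝ, κ = ε / (2 * R) := ⟨_, rfl⟩
  have hκ0 : 0 < κ := by rw [hκ]; positivity
  obtain ⟨c, hcdef⟩ : ∃ c : ℕ → ℕ → ℕ → ℂ, c = fun i j N =>
    ∑ n ∈ Finset.Icc 1 N, w (n + i) * (starRingEnd ℂ) (w (n + j)) := ⟨_, rfl⟩
  have shift : ∀ (g : ℕ → ℂ) (j N : ℕ), ∑ n ∈ Finset.Icc 1 N, g (n + j) =
      ∑ m ∈ Finset.range (N + j + 1), g m - ∑ m ∈ Finset.range (j + 1), g m := by
    intro g j N
    have h1 : ∑ n ∈ Finset.Icc 1 N, g (n + j) = ∑ m ∈ Finset.Ico (1 + j) (N + 1 + j), g m := by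
      rw [← Finset.sum_Ico_add' g 1 (N + 1) j]
      refine Finset.sum_congr ?_ fun _ _ => rfl
      ext k
      rw [Finset.mem_Icc, Finset.mem_Ico]
      omega
    rw [h1, Finset.sum_Ico_eq_sub _ (by omega)]
    congr 2 <;> congr 1 <;> omega
  -- one correlation
  have one : ∀ i j : ℕ, j < i → ∀ᶠ N in atTop, ‖c i j N‖ ≤ κ * N := by
    intro i j hij
    obtain ⟨N₀, h1⟩ := hc (i - j) (by omega) (κ / 2) (by positivity)
    filter_upwards [eventually_ge_atTop N₀, eventually_ge_atTop 1,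
      tendsto_natCast_atTop_atTop.eventually_ge_atTop ((j + 1) * (κ / 2 + 1) / (κ / 2) : ℝ)]
      with N h2 h3 h4
    have h5 := shift (fun m => w (m + (i - j)) * (starRingEnd ℂ) (w m)) j N
    have h6 : c i j N = ∑ n ∈ Finset.Icc 1 N,
        (fun m => w (m + (i - j)) * (starRingEnd ℂ) (w m)) (n + j) := by
      rw [hcdef]
      refine Finset.sum_congr rfl fun n _ => ?_
      show _ = w (n + j + (i - j)) * _
      rw [show n + j + (i - j) = n + i by omega]
    rw [h6, h5]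
    refine (norm_sub_le _ _).trans ?_
    have h7 := h1 (N + j + 1) (by omega)
    have h8 : ‖∑ m ∈ Finset.range (j + 1), w (m + (i - j)) * (starRingEnd ℂ) (w m)‖ ≤ j + 1 := by
      refine (norm_sum_le _ _).trans ((Finset.sum_le_card_nsmul _ _ 1 fun k _ => ?_).trans ?_)
      · rw [norm_mul, RCLike.norm_conj, hw, hw, one_mul]
      · rw [Finset.card_range, nsmul_eq_mul, mul_one]
        push_cast
        exact le_rfl
    rw [div_le_iff₀ (by positivity)] at h4
    push_cast at h7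
    have h9 : κ / 2 * ((N : ℝ) + j + 1) = κ / 2 * N + κ / 2 * (j + 1) := by ring
    rw [h9] at h7
    have h10 : ((j : ℝ) + 1) * (κ / 2 + 1) = κ / 2 * (j + 1) + (j + 1) := by ring
    rw [h10] at h4
    linarith
  have symm : ∀ i j N : ℕ, ‖c i j N‖ = ‖c j i N‖ := by
    intro i j N
    have : c j i N = (starRingEnd ℂ) (c i j N) := by
      rw [hcdef, map_sum]
      refine Finset.sum_congr rfl fun n _ => ?_
      rw [map_mul, Complex.conj_conj, mul_comm]
    rw [this, RCLike.norm_conj]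
  have all : ∀ i j : ℕ, i ≠ j → ∀ᶠ N in atTop, ‖c i j N‖ ≤ κ * N := by
    intro i j hij
    rcases lt_or_gt_of_ne hij with h | h
    · filter_upwards [one j i h] with N h1
      rw [symm]
      exact h1
    · exact one i j h
  have diag : ∀ i N : ℕ, c i i N = N := by
    intro i N
    rw [hcdef]
    show ∑ n ∈ Finset.Icc 1 N, w (n + i) * (starRingEnd ℂ) (w (n + i)) = N
    have : ∀ n ∈ Finset.Icc 1 N, w (n + i) * (starRingEnd ℂ) (w (n + i)) = 1 := by
      intro n _
      rw [Complex.mul_conj, Complex.normSq_eq_norm_sq, hw]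
      simp
    rw [Finset.sum_congr rfl this]
    simp
  have expand : ∀ N : ℕ, ((∑ n ∈ Finset.Icc 1 N, ‖∑ i ∈ Finset.range R, w (n + i)‖ ^ 2 : ℝ) : ℂ) =
      ∑ i ∈ Finset.range R, ∑ j ∈ Finset.range R, c i j N := by
    intro N
    rw [Complex.ofReal_sum, hcdef]
    have h1 : ∀ n : ℕ, ((‖∑ i ∈ Finset.range R, w (n + i)‖ ^ 2 : ℝ) : ℂ) =
        ∑ i ∈ Finset.range R, ∑ j ∈ Finset.range R, w (n + i) * (starRingEnd ℂ) (w (n + j)) := by
      intro n
      rw [← Complex.normSq_eq_norm_sq, ← Complex.mul_conj, map_sum, Finset.sum_mul_sum]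
    rw [Finset.sum_congr rfl fun n _ => h1 n, Finset.sum_comm]
    refine Finset.sum_congr rfl fun i _ => ?_
    rw [Finset.sum_comm]
  have hall : ∀ᶠ N in atTop, ∀ i ∈ Finset.range R, ∀ j ∈ Finset.range R, i ≠ j →
      ‖c i j N‖ ≤ κ * N := by
    rw [Filter.eventually_all_finset]
    intro i _
    rw [Filter.eventually_all_finset]
    intro j _
    by_cases hij : i = j
    · exact Filter.Eventually.of_forall fun N h => absurd hij h
    · filter_upwards [all i j hij] with N h1 _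
      exact h1
  filter_upwards [hall, eventually_ge_atTop 1] with N h1 h2
  have hN0 : (0 : ℝ) < N := by exact_mod_cast h2
  have h3 : ‖∑ i ∈ Finset.range R, ∑ j ∈ Finset.range R, c i j N - R * N‖ ≤
      R * (R * (κ * N)) := by
    have h4 : (R * N : ℂ) = ∑ i ∈ Finset.range R, ∑ j ∈ Finset.range R,
        if i = j then (N : ℂ) else 0 := by
      rw [Finset.sum_congr rfl (g := fun _ => (N : ℂ))]
      · simp
      · intro i hi
        rw [Finset.sum_ite_eq, if_pos hi]
    rw [h4, ← Finset.sum_sub_distrib]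
    refine (norm_sum_le _ _).trans ((Finset.sum_le_card_nsmul _ _ (R * (κ * N))
      fun i hi => ?_).trans ?_)
    · rw [← Finset.sum_sub_distrib]
      refine (norm_sum_le _ _).trans ((Finset.sum_le_card_nsmul _ _ (κ * N)
        fun j hj => ?_).trans ?_)
      · by_cases hij : i = j
        · subst hij
          rw [if_pos rfl, diag, sub_self, norm_zero]
          positivity
        · rw [if_neg hij, sub_zero]
          exact h1 i hi j hj hij
      · rw [Finset.card_range, nsmul_eq_mul]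
    · rw [Finset.card_range, nsmul_eq_mul]
  rw [← expand] at h3
  have h5 : (R * N : ℂ) = ((R * N : ℝ) : ℂ) := by push_cast; ring
  rw [h5, ← Complex.ofReal_sub, Complex.norm_real, Real.norm_eq_abs] at h3
  have h6 : VV w R N - 1 = (∑ n ∈ Finset.Icc 1 N, ‖∑ i ∈ Finset.range R, w (n + i)‖ ^ 2 - R * N) /
      (N * R) := by
    unfold VV
    field_simp
  rw [h6, abs_div, abs_of_pos (by positivity : (0 : ℝ) < N * R), div_lt_iff₀ (by positivity)]
  refine lt_of_le_of_lt h3 ?_
  rw [hκ]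
  have h7 : (R : ℝ) * (R * (ε / (2 * R) * N)) = ε / 2 * (N * R) := by
    field_simp
  rw [h7]
  have : 0 < ε * (N * R) := by positivity
  linarith

/-- the irrational coefficient of the correlations -/
lemma sumTaylor_irr (P : ℝ[X]) {i : ℕ} (hP : Irrational (P.coeff i))
    (hrat : ∀ j, i < j → P.coeff j ∈ KQ) {h : ℕ} (hh : 1 ≤ h) :
    Irrational ((∑ a ∈ Finset.range h, taylor (a : ℝ) P).coeff i) ∧
    ∀ j, i < j → (∑ a ∈ Finset.range h, taylor (a : ℝ) P).coeff j ∈ KQ := by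
  have hcoef : ∀ a : ℕ, ∀ j, ∃ q ∈ (if i < j + 1 then KQ else ⊤ : Subfield ℝ),
      (taylor (a : ℝ) P).coeff j = P.coeff j + q := by
    intro a j
    rw [taylor_coeff, eval_eq_sum_range, Finset.sum_range_succ', hasseDeriv_coeff]
    refine ⟨∑ k ∈ Finset.range (hasseDeriv j P).natDegree,
      (hasseDeriv j P).coeff (k + 1) * (a : ℝ) ^ (k + 1), ?_, ?_⟩
    · split_ifs with hij
      · refine KQ.sum_mem fun k _ => ?_
        refine KQ.mul_mem ?_ (pow_mem (natCast_mem KQ a) _)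
        rw [hasseDeriv_coeff]
        exact KQ.mul_mem (natCast_mem KQ _) (hrat _ (by omega))
      · exact Subfield.mem_top _
    · simp [add_comm]
  rw [finsetSum_coeff]
  constructor
  · choose q hq1 hq2 using fun a => hcoef a i
    have h1 : ∑ a ∈ Finset.range h, (taylor (a : ℝ) P).coeff i =
        h * P.coeff i + ∑ a ∈ Finset.range h, q a := by
      rw [Finset.sum_congr rfl fun a _ => hq2 a, Finset.sum_add_distrib, Finset.sum_const,
        Finset.card_range, nsmul_eq_mul]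
    have h2 : ∑ a ∈ Finset.range h, q a ∈ KQ := by
      refine KQ.sum_mem fun a _ => ?_
      have := hq1 a
      rwa [if_pos (by omega)] at this
    rw [h1, ← not_mem_KQ]
    intro h3
    have h4 := KQ.sub_mem h3 h2
    rw [add_sub_cancel_right, mem_KQ, irrational_natCast_mul_iff] at h4
    exact h4 ⟨by omega, hP⟩
  · intro j hj
    rw [finsetSum_coeff]
    refine KQ.sum_mem fun a _ => ?_
    obtain ⟨q, hq1, hq2⟩ := hcoef a j
    rw [if_pos (by omega)] at hq1
    rw [hq2]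
    exact KQ.add_mem (hrat j hj) hq1

/-- polynomial phases have no correlations -/
theorem poly_white (θ : ℝ) (Q : ℝ[X]) {i : ℕ} (hi : 1 ≤ i) (hP : Irrational (θ * Q.coeff i))
    (hrat : ∀ j, i < j → θ * Q.coeff j ∈ KQ) (h : ℕ) (hh : 1 ≤ h) (κ : ℝ) (hκ : 0 < κ) :
    ∃ N₀ : ℕ, ∀ N ≥ N₀, ‖∑ n ∈ Finset.range N, PP θ (fun j => Q.eval (j : ℝ)) (n + h) *
      (starRingEnd ℂ) (PP θ (fun j => Q.eval (j : ℝ)) n)‖ ≤ κ * N := by
  obtain ⟨h1, h2⟩ := sumTaylor_irr (C θ * Q) (i := i) (by rw [coeff_C_mul]; exact hP)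
    (fun j hj => by rw [coeff_C_mul]; exact hrat j hj) hh
  obtain ⟨N₀, h3⟩ := weyl_gen _ hi h1 h2 hκ
  refine ⟨N₀, fun N hN => ?_⟩
  refine le_trans (le_of_eq ?_) (h3 N hN)
  congr 1
  refine Finset.sum_congr rfl fun n _ => ?_
  unfold PP
  rw [e1_conj, ← e1_add, Finset.sum_range_add]
  congr 1
  rw [eval_finsetSum, mul_add, add_neg_eq_iff_eq_add, add_comm, Finset.mul_sum]
  congr 1
  refine Finset.sum_congr rfl fun a _ => ?_
  rw [taylor_eval, eval_mul, eval_C]
  push_cast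
  rfl

end Pool.Agent.K9h45.PL
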