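import Pool.Agent.K9h45.PL.AH
import Pool.Agent.K9h45.PL.Poly2

/-! # The theorems in terms of indices -/

set_option autoImplicit false

open MeasureTheory Set Filter Topology Polynomial

namespace Pool.Agent.K9h45.PL

open Pool.Agent.Y749.Rig
open Pool.Agent.Y749.AH
open SG (ord NZ zmult ZS)

/-- the set of the indices `1 ≤ j ≤ N` in `B` is small compared with `N` -/
def Sp (l : Filter ℕ) (B : ℕ → Prop) : Prop :=
  Tendsto (fun N : ℕ => ({j : ℕ | 1 ≤ j ∧ j ≤ N ∧ B j}.ncard : ℝ) / N) l (𝓝 0)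

lemma Sp.ev {l : Filter ℕ} (hl : l ≤ atTop) {B : ℕ → Prop} (h : Sp l B) {η : ℝ} (hη : 0 < η) :
    ∀ᶠ N : ℕ in l, ({j : ℕ | 1 ≤ j ∧ j ≤ N ∧ B j}.ncard : ℝ) ≤ η * N := by
  filter_upwards [(tendsto_order.1 h).2 η hη, hl (eventually_ge_atTop 1)] with N h1 h2
  have h3 : (0 : ℝ) < N := by exact_mod_cast h2
  rw [div_lt_iff₀ h3] at h1
  exact h1.le

open Classical in
lemma ncard_eq (B : ℕ → Prop) (N : ℕ) :
    {j : ℕ | 1 ≤ j ∧ j ≤ N ∧ B j}.ncard = ((Finset.Ioc 0 N).filter B).card := by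
  rw [← Set.ncard_coe_finset]
  congr 1
  ext j
  rw [Finset.mem_coe, Finset.mem_filter, Finset.mem_Ioc]
  exact ⟨fun h => ⟨⟨h.1, h.2.1⟩, h.2.2⟩, fun h => ⟨h.1.1, h.1.2, h.2⟩⟩

lemma map_le {l : Filter ℕ} (hl : l ≤ atTop) : l.map ord ≤ atTop :=
  (map_mono hl).trans SG.ord_tendsto

open Classical in
lemma Sp.height {l : Filter ℕ} (hl : l ≤ atTop) {B : ℕ → Prop} (h : Sp l B) {η : ℝ} (hη : 0 < η) :
    ∀ᶠ T in l.map ord, (((Finset.Ioc 0 (NZ T)).filter B).card : ℝ) ≤ η * nT T ∧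
      (((Finset.Ioc 0 (NZ T)).filter B).card : ℝ) ≤ η * NZ T := by
  rw [Filter.eventually_map]
  obtain ⟨δ, hδ⟩ : ∃ δ : ℝ, δ = min (1 / 2) (η / 4) := ⟨_, rfl⟩
  have hδ0 : 0 < δ := by rw [hδ]; exact lt_min (by norm_num) (by positivity)
  have hδ1 : δ ≤ 1 / 2 := by rw [hδ]; exact min_le_left _ _
  have hδ2 : δ ≤ η / 4 := by rw [hδ]; exact min_le_right _ _
  filter_upwards [h.ev hl (show 0 < η / 4 by positivity), hl (ord_asymp hδ0)] with N h1 h2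
  obtain ⟨h3, h4, h5⟩ := h2
  rw [ncard_eq] at h1
  have hN0 : (0 : ℝ) ≤ N := Nat.cast_nonneg N
  have hsub : (Finset.Ioc 0 (NZ (ord N))).filter B ⊆
      (Finset.Ioc 0 N).filter B ∪ Finset.Ioc N (NZ (ord N)) := by
    intro j hj
    rw [Finset.mem_filter, Finset.mem_Ioc] at hj
    rw [Finset.mem_union, Finset.mem_filter, Finset.mem_Ioc, Finset.mem_Ioc]
    by_cases hjN : j ≤ N
    · exact Or.inl ⟨⟨hj.1.1, hjN⟩, hj.2⟩
    · exact Or.inr ⟨by omega, hj.1.2⟩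
  have h6 := (Finset.card_le_card hsub).trans (Finset.card_union_le _ _)
  rw [Nat.card_Ioc] at h6
  have h7 : (((Finset.Ioc 0 (NZ (ord N))).filter B).card : ℝ) ≤
      (((Finset.Ioc 0 N).filter B).card : ℝ) + (NZ (ord N) - N) := by
    rw [← Nat.cast_sub h5]
    exact_mod_cast h6
  have h8 : (((Finset.Ioc 0 (NZ (ord N))).filter B).card : ℝ) ≤ η / 2 * N := by
    have : δ * N ≤ η / 4 * N := by gcongr
    linarith
  have h9 : (1 / 2 : ℝ) * N ≤ nT (ord N) := by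
    have := (abs_le.1 h3).1
    have : δ * N ≤ 1 / 2 * N := by gcongr
    linarith
  have h10 : (N : ℝ) ≤ NZ (ord N) := by exact_mod_cast h5
  constructor
  · have := mul_le_mul_of_nonneg_left h9 hη.le
    linarith
  · have := mul_le_mul_of_nonneg_left h10 hη.le
    have : 0 ≤ η * N := by positivity
    linarith

/-- almost all spacings (along `l`) are near `a j + s ℤ` -/
def Fol (l : Filter ℕ) (s : ℝ) (a : ℕ → ℝ) : Prop := ∀ ε : ℝ, 0 < ε →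
  Sp l (fun j => ∀ k : ℤ, ε ≤ |dj j - (a j + s * k)|)

/-- almost all spacings (along `l`) are near `{1/2, 1, 3/2, ...}` -/
def AHN (l : Filter ℕ) : Prop := ∀ ε : ℝ, 0 < ε →
  Sp l (fun j => ∀ k : ℕ, 1 ≤ k → ε ≤ |dj j - k / 2|)

lemma Fol.near {l : Filter ℕ} (hl : l ≤ atTop) {s : ℝ} (hs : 0 < s) {a : ℕ → ℝ} (h : Fol l s a)
    (k : ℕ) : NearL (l.map ord) (k / s) a := by
  classical
  intro ε η hε hη
  obtain ⟨ε₁, hε₁⟩ : ∃ ε₁ : ℝ, ε₁ = ε / (2 * Real.pi * (k / s + 1)) := ⟨_, rfl⟩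
  have hpi := Real.pi_pos
  have hks : 0 ≤ (k : ℝ) / s := by positivity
  have hε₁0 : 0 < ε₁ := by rw [hε₁]; positivity
  filter_upwards [(h ε₁ hε₁0).height hl hη] with T hT
  refine le_trans ?_ hT.1
  have hsub : (Finset.Ioc 0 (NZ T)).filter (fun j => ε < ‖e1 (k / s * (dj j - a j)) - 1‖) ⊆
      (Finset.Ioc 0 (NZ T)).filter (fun j => ∀ k : ℤ, ε₁ ≤ |dj j - (a j + s * k)|) := by
    intro j hj
    rw [Finset.mem_filter] at hj ⊢
    refine ⟨hj.1, fun m => ?_⟩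
    by_contra hcon
    push Not at hcon
    have h1 : (k : ℝ) / s * (dj j - a j) =
        k / s * (dj j - (a j + s * m)) + ((k * m : ℤ) : ℝ) := by
      push_cast
      field_simp
      ring
    have h2 := hj.2
    rw [h1, e1_add, e1_int, mul_one] at h2
    have h3 := e1_one_norm (k / s * (dj j - (a j + s * m)))
    rw [abs_mul, abs_of_nonneg hks] at h3
    have h4 : 2 * Real.pi * ((k : ℝ) / s * |dj j - (a j + s * m)|) ≤ ε := by
      calc 2 * Real.pi * ((k : ℝ) / s * |dj j - (a j + s * m)|) ≤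
          2 * Real.pi * (((k : ℝ) / s + 1) * ε₁) := by
            gcongr
            linarith
        _ = ε := by
            rw [hε₁]
            field_simp
    linarith
  exact_mod_cast Finset.card_le_card hsub

lemma AHN.height {l : Filter ℕ} (hl : l ≤ atTop) (h : AHN l) : AH2 (l.map ord) := by
  classical
  intro ε hε
  rw [Metric.tendsto_nhds]
  intro η hη
  filter_upwards [(h ε hε).height hl (show 0 < η / 2 by positivity),
    (map_le hl) (eventually_ge_atTop 0)] with T hT hT0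
  rw [Real.dist_eq, sub_zero, abs_of_nonneg (by positivity)]
  have e : (Pool.Agent.Y763.AH.BT 2 ε T).card =
      ((Finset.Ioc 0 (NZ T)).filter (fun j => ∀ k : ℕ, 1 ≤ k → ε ≤ |dj j - k / 2|)).card := by
    unfold Pool.Agent.Y763.AH.BT Pool.Agent.Y763.AH.Bad
    congr 1
    refine Finset.filter_congr fun j _ => ?_
    have h1 : H177.Lat.del j = dj j := by
      unfold H177.Lat.del dj gt
      rw [sub_div]
    rw [h1]
  rw [e]
  by_cases hN : NZ T = 0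
  · rw [hN]
    simp [hη]
  · have hN0 : (0 : ℝ) < NZ T := by exact_mod_cast Nat.pos_of_ne_zero hN
    rw [div_lt_iff₀ hN0]
    have := hT.2
    have : 0 < η * NZ T := by positivity
    linarith

lemma near_self {l : Filter ℝ} (hl : l ≤ atTop) (θ : ℝ) : NearL l θ dj := by
  classical
  intro ε η hε hη
  filter_upwards [hl (eventually_ge_atTop 10)] with T hT
  rw [Finset.filter_false_of_mem]
  · have := nT_pos hT
    rw [Finset.card_empty, Nat.cast_zero]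
    positivity
  · intro j _
    rw [sub_self, mul_zero, e1_zero, sub_self, norm_zero]
    exact not_lt.2 hε.le

lemma gt_zero : gt 0 = 0 := by
  have : ord 0 = 0 := by
    unfold SG.ord
    have : {t : ℝ | 0 ≤ NZ t} = Set.univ := by
      ext t
      simp
    rw [this, Real.sInf_univ]
  unfold gt
  rw [this]
  simp

lemma PP_self (θ : ℝ) : PP θ dj = fun n => e1 (θ * gt n) := by
  funext n
  unfold PP dj
  rw [Finset.sum_range_sub, gt_zero, sub_zero]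

lemma Law.mono {l l' : Filter ℝ} {θ c : ℝ} (h : Law l θ c) (hl : l' ≤ l) : Law l' θ c := by
  intro ε hε
  obtain ⟨K, hK, h1⟩ := h ε hε
  exact ⟨K, hK, fun r hr => hl (h1 r hr)⟩

theorem pat_MS (RH : RiemannHypothesis) {l : Filter ℕ} (hl : l ≤ atTop) {θ c : ℝ} (hc : 0 ≤ c)
    (hlaw : Law (l.map ord) θ c) {a : ℕ → ℝ} (ha : NearL (l.map ord) θ a) : MS l (PP θ a) c :=
  to_idx hl (PP_norm θ a) hc fun _ hε => pat_law RH (map_le hl) hc hlaw ha hε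

/-- (1) -/
theorem main1 (RH : RiemannHypothesis) {θ : ℝ} (hθ : 0 < θ) (hθ1 : θ < 1) :
    MS atTop (fun n => e1 (θ * gt n)) θ := by
  rw [← PP_self]
  exact pat_MS RH le_rfl hθ.le ((law01 RH hθ hθ1).mono (map_le le_rfl))
    (near_self (map_le le_rfl) θ)

/-- (2) -/
theorem main2 (RH : RiemannHypothesis) {l : Filter ℕ} (hl : l ≤ atTop) {s : ℝ} {a : ℕ → ℝ}
    (h : Fol l s a) {k : ℕ} (hk : 1 ≤ k) (hks : (k : ℝ) < s) : MS l (PP (k / s) a) (k / s) := by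
  have hk1 : (1 : ℝ) ≤ k := by exact_mod_cast hk
  have hs : 0 < s := by linarith
  have hθ : 0 < (k : ℝ) / s := by positivity
  exact pat_MS RH hl hθ.le ((law01 RH hθ ((div_lt_one hs).2 hks)).mono (map_le hl))
    (h.near hl hs k)

lemma HH_eq {θ : ℝ} (hθ : 0 < θ) (hθ2 : θ < 2) : HH θ = min θ (2 - θ) := by
  unfold HH
  rw [abs_of_pos hθ, abs_of_pos (by linarith)]

/-- (3) -/
theorem main3 (RH : RiemannHypothesis) {l : Filter ℕ} (hl : l ≤ atTop) (h : AHN l) {θ : ℝ}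
    (hθ : 0 < θ) (hθ2 : θ < 2) : MS l (fun n => e1 (θ * gt n)) (min θ (2 - θ)) := by
  rw [← PP_self, ← HH_eq hθ hθ2]
  exact pat_MS RH hl (HH_nonneg θ) (lawAH RH (map_le hl) (h.height hl) hθ hθ2)
    (near_self (map_le hl) θ)

theorem main3' (RH : RiemannHypothesis) {l : Filter ℕ} (hl : l ≤ atTop) (h : AHN l) {s : ℝ}
    (hs : 0 < s) {a : ℕ → ℝ} (ha : Fol l s a) {k : ℕ} (hk : 1 ≤ k) (hks : (k : ℝ) < 2 * s) :
    MS l (PP (k / s) a) (min (k / s) (2 - k / s)) := by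
  have hk1 : (1 : ℝ) ≤ k := by exact_mod_cast hk
  have hθ : 0 < (k : ℝ) / s := by positivity
  have hθ2 : (k : ℝ) / s < 2 := by rw [div_lt_iff₀ hs]; exact hks
  rw [← HH_eq hθ hθ2]
  exact pat_MS RH hl (HH_nonneg _) (lawAH RH (map_le hl) (h.height hl) hθ hθ2) (ha.near hl hs k)

/-- a sequence of `N` along which a family of sets is sparse -/
lemma seq_sparse {B : ℝ → ℕ → Prop} (hB : ∀ ε ε' j, ε ≤ ε' → B ε' j → B ε j)
    (hcon : ¬ ∃ ε : ℝ, 0 < ε ∧ ∀ᶠ N : ℕ in atTop,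
      ε * N ≤ ({j : ℕ | 1 ≤ j ∧ j ≤ N ∧ B ε j}.ncard : ℝ)) :
    ∃ g : ℕ → ℕ, Tendsto g atTop atTop ∧ ∀ ε : ℝ, 0 < ε → Sp (Filter.map g atTop) (B ε) := by
  push Not at hcon
  have h1 : ∀ m : ℕ, ∃ N : ℕ, m + 1 ≤ N ∧ ({j : ℕ | 1 ≤ j ∧ j ≤ N ∧
      B (1 / ((m : ℝ) + 1)) j}.ncard : ℝ) < 1 / ((m : ℝ) + 1) * N := by
    intro m
    have h2 := hcon (1 / ((m : ℝ) + 1)) (by positivity)
    obtain ⟨N, h3, h4⟩ := (Filter.frequently_atTop.1 h2) (m + 1)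
    exact ⟨N, h3, h4⟩
  choose g hg1 hg2 using h1
  have hg : Tendsto g atTop atTop :=
    tendsto_atTop_mono (fun m => (Nat.le_succ m).trans (hg1 m)) tendsto_id
  refine ⟨g, hg, fun ε hε => ?_⟩
  unfold Sp
  rw [Filter.tendsto_map'_iff]
  have h3 : Tendsto (fun m : ℕ => 1 / ((m : ℝ) + 1)) atTop (𝓝 0) :=
    tendsto_one_div_add_atTop_nhds_zero_nat
  refine squeeze_zero' (Filter.Eventually.of_forall fun m => by
    simp only [Function.comp]; positivity) ?_ h3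
  filter_upwards [(tendsto_order.1 h3).2 ε hε] with m hm
  simp only [Function.comp]
  have hN0 : (0 : ℝ) < g m := by
    have := hg1 m
    exact_mod_cast (by omega : 0 < g m)
  rw [div_le_iff₀ hN0]
  refine le_trans ?_ (hg2 m).le
  have hfin : {j : ℕ | 1 ≤ j ∧ j ≤ g m ∧ B (1 / ((m : ℝ) + 1)) j}.Finite :=
    (Set.finite_Iic (g m)).subset fun j hj => hj.2.1
  exact Nat.cast_le.2 (Set.ncard_le_ncard
    (fun j hj => ⟨hj.1, hj.2.1, hB _ _ j hm.le hj.2.2⟩) hfin)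

/-- (4) -/
theorem main4 (RH : RiemannHypothesis) {s : ℝ} {a : ℕ → ℝ} {k : ℕ} (hk : 1 ≤ k)
    (hks : (k : ℝ) < s) {δ : ℝ} (hδ : 0 < δ)
    (hV : ∀ R₀ : ℕ, ∃ R : ℕ, R₀ ≤ R ∧ ∀ᶠ N in atTop, δ ≤ |VV (PP (k / s) a) R N - k / s|) :
    ∃ ε : ℝ, 0 < ε ∧ ∀ᶠ N : ℕ in atTop,
      ε * N ≤ ({j : ℕ | 1 ≤ j ∧ j ≤ N ∧ ∀ m : ℤ, ε ≤ |dj j - (a j + s * m)|}.ncard : ℝ) := by
  by_contra hcon
  obtain ⟨g, hg, hF⟩ := seq_sparse (B := fun ε j => ∀ m : ℤ, ε ≤ |dj j - (a j + s * m)|)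
    (fun ε ε' j h1 h2 m => h1.trans (h2 m)) hcon
  obtain ⟨R₀, h4⟩ := main2 RH hg hF hk hks δ hδ
  obtain ⟨R, hR, h5⟩ := hV R₀
  have h6 := h4 R hR
  rw [Filter.eventually_map] at h6
  obtain ⟨m, h7, h8⟩ := (h6.and (hg.eventually h5)).exists
  exact absurd h7 (not_lt.2 h8)

/-- (6) -/
theorem main6 (RH : RiemannHypothesis) {θ : ℝ} (hθ : 0 < θ) (hθ2 : θ < 2) {δ : ℝ} (hδ : 0 < δ)
    (hV : ∀ R₀ : ℕ, ∃ R : ℕ, R₀ ≤ R ∧ ∀ᶠ N in atTop,
      δ ≤ |VV (fun n => e1 (θ * gt n)) R N - min θ (2 - θ)|) :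
    ∃ ε : ℝ, 0 < ε ∧ ∀ᶠ N : ℕ in atTop,
      ε * N ≤ ({j : ℕ | 1 ≤ j ∧ j ≤ N ∧ ∀ k : ℕ, 1 ≤ k → ε ≤ |dj j - k / 2|}.ncard : ℝ) := by
  by_contra hcon
  obtain ⟨g, hg, hF⟩ := seq_sparse (B := fun ε j => ∀ k : ℕ, 1 ≤ k → ε ≤ |dj j - k / 2|)
    (fun ε ε' j h1 h2 k hk => h1.trans (h2 k hk)) hcon
  obtain ⟨R₀, h4⟩ := main3 RH hg hF hθ hθ2 δ hδ
  obtain ⟨R, hR, h5⟩ := hV R₀
  have h6 := h4 R hR
  rw [Filter.eventually_map] at h6
  obtain ⟨m, h7, h8⟩ := (h6.and (hg.eventually h5)).exists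
  exact absurd h7 (not_lt.2 h8)

lemma int_aux {p : ℝ} {D : ℕ} (q r j : ℕ) {z : ℤ} (hz : (D : ℝ) * p = z) :
    ∃ z' : ℤ, p * (((D * q + r : ℕ) : ℝ) ^ j - (r : ℝ) ^ j) = z' := by
  have h2 : ((D * q + r : ℕ) : ℤ) - (r : ℤ) ∣ ((D * q + r : ℕ) : ℤ) ^ j - (r : ℤ) ^ j :=
    sub_dvd_pow_sub_pow _ _ _
  have h3 : ((D * q + r : ℕ) : ℤ) - (r : ℤ) = D * q := by push_cast; ring
  rw [h3] at h2
  obtain ⟨t, ht⟩ := h2
  refine ⟨z * (q * t), ?_⟩
  have ht' : ((D * q + r : ℕ) : ℝ) ^ j - (r : ℝ) ^ j = D * q * t := by exact_mod_cast ht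
  rw [ht']
  push_cast
  rw [← hz]
  ring

lemma poly_periodic (θ : ℝ) (Q : ℝ[X]) (hrat : ∀ j, 1 ≤ j → θ * Q.coeff j ∈ KQ) :
    ∃ D : ℕ, 1 ≤ D ∧ ∀ n : ℕ, ∃ z : ℤ,
      θ * (Q.eval (n : ℝ) - Q.eval ((n % D : ℕ) : ℝ)) = z := by
  obtain ⟨D, hD, hden⟩ := common_den (fun j => θ * Q.coeff j) (Finset.Icc 1 Q.natDegree)
    fun j hj => hrat j (Finset.mem_Icc.1 hj).1
  refine ⟨D, hD, fun n => ?_⟩
  obtain ⟨r, hr⟩ : ∃ r : ℕ, r = n % D := ⟨_, rfl⟩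
  obtain ⟨q, hq⟩ : ∃ q : ℕ, q = n / D := ⟨_, rfl⟩
  have hn : n = D * q + r := by rw [hr, hq]; exact (Nat.div_add_mod n D).symm
  rw [← hr]
  have h1 : ∀ j ∈ Finset.range (Q.natDegree + 1), ∃ z : ℤ,
      θ * (Q.coeff j * (n : ℝ) ^ j - Q.coeff j * (r : ℝ) ^ j) = z := by
    intro j hj
    rcases Nat.eq_zero_or_pos j with hj0 | hj0
    · subst hj0
      exact ⟨0, by simp⟩
    obtain ⟨z, hz⟩ := hden j (Finset.mem_Icc.2 ⟨hj0, by
      have := Finset.mem_range.1 hj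
      omega⟩)
    obtain ⟨z', hz'⟩ := int_aux (p := θ * Q.coeff j) q r j hz
    refine ⟨z', ?_⟩
    rw [← hz', ← hn]
    ring
  choose! g hg using h1
  refine ⟨∑ j ∈ Finset.range (Q.natDegree + 1), g j, ?_⟩
  rw [eval_eq_sum_range, eval_eq_sum_range, ← Finset.sum_sub_distrib, Finset.mul_sum,
    Int.cast_sum]
  exact Finset.sum_congr rfl hg

/-- (5) -/
theorem main5 (RH : RiemannHypothesis) {s : ℝ} (hs : 1 < s) (Q : ℝ[X]) :
    ∃ ε : ℝ, 0 < ε ∧ ∀ᶠ N : ℕ in atTop,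
      ε * N ≤ ({j : ℕ | 1 ≤ j ∧ j ≤ N ∧
        ∀ m : ℤ, ε ≤ |dj j - (Q.eval (j : ℝ) + s * m)|}.ncard : ℝ) := by
  classical
  have hs0 : 0 < s := by linarith
  obtain ⟨θ, hθ⟩ : ∃ θ : ℝ, θ = 1 / s := ⟨_, rfl⟩
  have hθ0 : 0 < θ := by rw [hθ]; positivity
  have hθ1 : θ < 1 := by rw [hθ, div_lt_one hs0]; exact hs
  by_cases hex : ∃ i, 1 ≤ i ∧ Irrational (θ * Q.coeff i)
  · -- white phases
    have hfin : ∀ i, 1 ≤ i ∧ Irrational (θ * Q.coeff i) → i ≤ Q.natDegree := by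
      intro i hi
      apply le_natDegree_of_ne_zero
      intro h0
      apply hi.2.ne_zero
      rw [h0, mul_zero]
    obtain ⟨i, hi, hmax⟩ : ∃ i, (1 ≤ i ∧ Irrational (θ * Q.coeff i)) ∧
        ∀ j, i < j → θ * Q.coeff j ∈ KQ := by
      obtain ⟨i₀, hi₀⟩ := hex
      have hP := Nat.findGreatest_spec (P := fun i => 1 ≤ i ∧ Irrational (θ * Q.coeff i))
        (hfin i₀ hi₀) hi₀
      refine ⟨_, hP, fun j hj => ?_⟩
      rw [mem_KQ]
      intro hirr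
      have hj1 : 1 ≤ j := by omega
      have := Nat.le_findGreatest (P := fun i => 1 ≤ i ∧ Irrational (θ * Q.coeff i))
        (hfin j ⟨hj1, hirr⟩) ⟨hj1, hirr⟩
      omega
    have hδ : 0 < (1 - θ) / 2 := by linarith
    refine main4 RH (s := s) (a := fun j => Q.eval (j : ℝ)) (k := 1) le_rfl (by simpa using hs) hδ
      fun R₀ => ⟨max R₀ 1, le_max_left _ _, ?_⟩
    have e : ((1 : ℕ) : ℝ) / s = θ := by rw [hθ]; norm_num
    rw [e]
    filter_upwards [VV_white (PP_norm θ (fun j => Q.eval (j : ℝ)))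
      (poly_white θ Q hi.1 hi.2 hmax) (le_max_right R₀ 1) hδ] with N hN
    have h1 := abs_lt.1 hN
    rw [le_abs]
    left
    linarith
  · -- periodic patterns
    push Not at hex
    obtain ⟨D, hD, hz⟩ := poly_periodic θ Q fun j hj => mem_KQ.2 (hex j hj)
    obtain ⟨ε, hε, h⟩ := H177.Lat.periodic_one RH θ (fun n => Q.eval ((n % D : ℕ) : ℝ)) hθ0 hθ1.le
      D hD (fun n => by simp)
    refine ⟨ε, hε, ?_⟩
    filter_upwards [h] with N hN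
    refine hN.trans ?_
    have hfin : {j : ℕ | 1 ≤ j ∧ j ≤ N ∧
        ∀ m : ℤ, ε ≤ |dj j - (Q.eval (j : ℝ) + s * m)|}.Finite :=
      (Set.finite_Iic N).subset fun j hj => hj.2.1
    refine Nat.cast_le.2 (Set.ncard_le_ncard (fun j hj => ⟨hj.1, hj.2.1, fun m => ?_⟩) hfin)
    obtain ⟨z, hz⟩ := hz j
    have h1 := hj.2.2 (m + z)
    have h2 : H177.Lat.del j = dj j := by
      unfold H177.Lat.del dj gt
      rw [sub_div]
    rw [h2] at h1
    refine h1.trans (le_of_eq ?_)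
    congr 1
    have h3 : Q.eval (j : ℝ) - Q.eval ((j % D : ℕ) : ℝ) = z * s := by
      have h4 : θ * s = 1 := by rw [hθ]; field_simp
      calc Q.eval (j : ℝ) - Q.eval ((j % D : ℕ) : ℝ) =
          (θ * (Q.eval (j : ℝ) - Q.eval ((j % D : ℕ) : ℝ))) * s := by
            rw [mul_right_comm, h4, one_mul]
        _ = z * s := by rw [hz]
    have h5 : ((m + z : ℤ) : ℝ) / θ = s * m + z * s := by
      rw [hθ]
      push_cast
      field_simp
    rw [h5]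
    linarith

end Pool.Agent.K9h45.PL
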