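import Pool.Agent.K9h45.PL.Ana2
import Pool.Agent.K9h45.PL.Det3

/-! # The mean squares over windows of consecutive zeros -/

set_option autoImplicit false

open MeasureTheory Set Filter Topology

namespace Pool.Agent.K9h45.PL

open Pool.Agent.Y749.Rig
open Pool.Agent.Y749.AH
open SG (ord NZ zmult ZS)

/-- the normalised ordinates -/
noncomputable def pt (T : ℝ) (i : ℕ) : ℝ := ord i * Real.log T / (2 * Real.pi)

/-- `e(x)` -/
noncomputable def e1 (x : ℝ) : ℂ := Complex.exp ((2 * Real.pi * x : ℝ) * Complex.I)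

lemma e1_norm (x : ℝ) : ‖e1 x‖ = 1 := by
  unfold e1
  exact Complex.norm_exp_ofReal_mul_I _

lemma e1_add (x y : ℝ) : e1 (x + y) = e1 x * e1 y := by
  unfold e1
  rw [← Complex.exp_add]
  congr 1
  push_cast
  ring

lemma e1_conj (x : ℝ) : (starRingEnd ℂ) (e1 x) = e1 (-x) := by
  unfold e1
  rw [← Complex.exp_conj, map_mul, Complex.conj_I, Complex.conj_ofReal]
  congr 1
  push_cast
  ring

lemma e1_re (x : ℝ) : (e1 x).re = Real.cos (2 * Real.pi * x) := by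
  unfold e1
  exact Complex.exp_ofReal_mul_I_re _

lemma pt_xx (T : ℝ) (i j : ℕ) : pt T i - pt T j = xx T i j := by
  unfold pt xx
  ring

lemma pt_mon {T : ℝ} (hT : 1 ≤ T) (N : ℕ) : Mon (pt T) N := by
  intro i j h1 h2 _
  have := xx_nonneg hT h1 h2
  rw [← pt_xx] at this
  linarith

/-- mean squares and the pair measure -/
lemma Qw_eq (hRH : RiemannHypothesis) {T : ℝ} (hT : 10 ≤ T) (θ r : ℝ) :
    Qw (pt T) (NZ T) (fun i => e1 (θ * pt T i)) r = nT T * ∫ x, kk r θ x ∂(Mp T) := by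
  have hn := nT_pos hT
  rw [Mp_ix hRH hT (kk r θ)]
  rw [mul_div_cancel₀ _ hn.ne']
  unfold Qw
  refine Finset.sum_congr rfl fun i _ => Finset.sum_congr rfl fun j _ => ?_
  rw [e1_conj, ← e1_add, e1_re, ← pt_xx]
  unfold kk
  rw [mul_comm]
  congr 2
  ring

lemma Qw_one (hRH : RiemannHypothesis) {T : ℝ} (hT : 10 ≤ T) (r : ℝ) :
    Qw (pt T) (NZ T) (fun _ => 1) r = nT T * ∫ x, kk r 0 x ∂(Mp T) := by
  rw [← Qw_eq hRH hT 0 r]
  unfold Qw
  refine Finset.sum_congr rfl fun i _ => Finset.sum_congr rfl fun j _ => ?_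
  simp only [zero_mul]
  congr 2
  unfold e1
  simp

lemma Qw_zero (y : ℕ → ℝ) (N : ℕ) (z : ℕ → ℂ) : Qw y N z ((0 : ℕ) : ℝ) = 0 := by
  unfold Qw
  refine Finset.sum_eq_zero fun i _ => Finset.sum_eq_zero fun j _ => ?_
  rw [max_eq_left (by have := abs_nonneg (y i - y j); push_cast; linarith), mul_zero]

lemma vv_zero (y : ℕ → ℝ) (N : ℕ) (Y : ℝ) : vv y N Y ((0 : ℕ) : ℝ) = 0 := by
  unfold vv
  simp

lemma pt_large (r : ℝ) : ∀ᶠ T in atTop, ∀ i, 1 ≤ i → r ≤ pt T i := by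
  have h1 : 0 < ord 1 := SG.ord_pos le_rfl
  have hpi := Real.pi_pos
  filter_upwards [Real.tendsto_log_atTop.eventually_ge_atTop (|r| * (2 * Real.pi) / ord 1)] with T hT
    i hi
  have h2 : ord 1 ≤ ord i := SG.ord_mono le_rfl hi
  rw [div_le_iff₀ h1] at hT
  have h3 : 0 ≤ Real.log T := by
    have : 0 ≤ |r| * (2 * Real.pi) / ord 1 := by positivity
    by_contra hcon
    push Not at hcon
    have h5 : Real.log T * ord 1 < 0 := mul_neg_of_neg_of_pos hcon h1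
    have h6 : 0 ≤ |r| * (2 * Real.pi) := by positivity
    linarith
  unfold pt
  rw [le_div_iff₀ (by positivity)]
  have h4 := le_abs_self r
  calc r * (2 * Real.pi) ≤ |r| * (2 * Real.pi) := by gcongr
    _ ≤ Real.log T * ord 1 := hT
    _ ≤ Real.log T * ord i := by gcongr
    _ = _ := mul_comm _ _

lemma pt_le {T : ℝ} (hT : 10 ≤ T) {i : ℕ} (h1 : 1 ≤ i) (h2 : i ≤ NZ T) : pt T i ≤ nT T := by
  have hL := one_lt_log (show 3 ≤ T by linarith)
  have hpi := Real.pi_pos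
  unfold pt nT
  have := (SG.ord_le_iff h1 T).2 h2
  gcongr

/-- **the law for windows of consecutive zeros** (phases with the normalisation by `log T`) -/
theorem idx_law (hRH : RiemannHypothesis) {l : Filter ℝ} (hl : l ≤ atTop) {θ c : ℝ} (hc : 0 ≤ c)
    (hlaw : Law l θ c) {ε : ℝ} (hε : 0 < ε) : ∃ R₀ : ℕ, ∀ R : ℕ, R₀ ≤ R → ∀ᶠ T in l,
      |∑ m ∈ Finset.range (NZ T), ‖∑ i ∈ Finset.range R, e1 (θ * pt T (m + 1 + i))‖ ^ 2 -
        c * R * nT T| ≤ ε * R * nT T := by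
  -- the parameters
  obtain ⟨κ, hκ⟩ : ∃ κ : ℝ, κ = min 1 (ε / (70 * (c + 1))) := ⟨_, rfl⟩
  have hκ0 : 0 < κ := by rw [hκ]; exact lt_min one_pos (by positivity)
  have hκ1 : κ ≤ 1 := by rw [hκ]; exact min_le_left _ _
  have hκ2 : 70 * (c + 1) * κ ≤ ε := by
    have : κ ≤ ε / (70 * (c + 1)) := by rw [hκ]; exact min_le_right _ _
    rw [le_div_iff₀ (by positivity)] at this
    linarith
  obtain ⟨δ, hδ⟩ : ∃ δ : ℝ, δ = min (1 / 2) (κ * ε / (800 * (c + 1))) := ⟨_, rfl⟩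
  have hδ0 : 0 < δ := by rw [hδ]; exact lt_min (by norm_num) (by positivity)
  have hδ1 : δ ≤ 1 / 2 := by rw [hδ]; exact min_le_left _ _
  have hδ2 : 800 * (c + 1) * δ ≤ κ * ε := by
    have : δ ≤ κ * ε / (800 * (c + 1)) := by rw [hδ]; exact min_le_right _ _
    rw [le_div_iff₀ (by positivity)] at this
    linarith
  obtain ⟨ω, hω⟩ : ∃ ω : ℝ, ω = min 1 (min (ε / 10) (κ * δ ^ 2 * ε / 5000)) := ⟨_, rfl⟩
  have hω0 : 0 < ω := by
    rw [hω]; exact lt_min one_pos (lt_min (by positivity) (by positivity))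
  have hω1 : ω ≤ 1 := by rw [hω]; exact min_le_left _ _
  have hω2 : ω ≤ ε / 10 := by rw [hω]; exact (min_le_right _ _).trans (min_le_left _ _)
  have hω3 : 5000 * ω ≤ κ * δ ^ 2 * ε := by
    have : ω ≤ κ * δ ^ 2 * ε / 5000 := by
      rw [hω]; exact (min_le_right _ _).trans (min_le_right _ _)
    linarith
  obtain ⟨K, hK, h1⟩ := hlaw ω hω0
  obtain ⟨K', hK', h2⟩ := law0 hRH hω0
  -- the constant terms
  obtain ⟨B, hB⟩ : ∃ B : ℝ, B = K + 7 * K + (40 * K + 68 * (K' + 1)) / κ +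
      36 * (K' + 1) / (δ ^ 2 * κ) := ⟨_, rfl⟩
  have hB0 : 0 ≤ B := by rw [hB]; positivity
  obtain ⟨R₀, hR₀⟩ := exists_nat_gt (max (2 / δ) (10 * B / ε))
  refine ⟨R₀ + 1, fun R hR => ?_⟩
  have hRR : (R₀ : ℝ) < R := by exact_mod_cast (by omega : R₀ < R)
  have hR1 : 1 ≤ R := by omega
  have hRpos : (0 : ℝ) < R := by exact_mod_cast hR1
  have hRδ : 2 / δ < R := (le_max_left _ _).trans_lt (hR₀.trans hRR)
  have hRB : 10 * B / ε < R := (le_max_right _ _).trans_lt (hR₀.trans hRR)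
  rw [div_lt_iff₀ hδ0] at hRδ
  rw [div_lt_iff₀ hε] at hRB
  obtain ⟨L, hL⟩ : ∃ L : ℕ, L = ⌊δ * R⌋₊ := ⟨_, rfl⟩
  have hLle : (L : ℝ) ≤ δ * R := by rw [hL]; exact Nat.floor_le (by positivity)
  have hLge : δ * R < L + 1 := by rw [hL]; exact Nat.lt_floor_add_one _
  have hL1' : (1 : ℝ) < L := by
    have : (1 : ℝ) < δ * R - 0 := by linarith
    linarith
  have hL1 : 1 ≤ L := by
    have : (1 : ℝ) < L := hL1'
    exact_mod_cast this.le
  have hL2 : δ / 2 * R ≤ L := by linarith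
  have hLR : 2 * L ≤ R := by
    have : (2 : ℝ) * L ≤ R := by nlinarith
    exact_mod_cast this
  have hLpos : (0 : ℝ) < L := by linarith
  -- the events
  have ev1 : ∀ᶠ T in l, ∀ k ∈ Finset.Icc 1 R, |(∫ x, kk k θ x ∂(Mp T)) - c * k| ≤ ω * k + K := by
    rw [Filter.eventually_all_finset]
    intro k hk
    rw [Finset.mem_Icc] at hk
    exact h1 k (by exact_mod_cast hk.1)
  have ev2 : ∀ᶠ T in atTop, ∀ k ∈ Finset.Icc 1 (2 * R),
      ∫ x, kk k 0 x ∂(Mp T) ≤ (k : ℝ) ^ 2 + ω * k + K' := by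
    rw [Filter.eventually_all_finset]
    intro k hk
    rw [Finset.mem_Icc] at hk
    exact h2 k (by exact_mod_cast hk.1)
  obtain ⟨μ, hμ⟩ : ∃ μ : ℝ, μ = 1 / (8 * (R : ℝ) ^ 2) := ⟨_, rfl⟩
  have hμ0 : 0 < μ := by rw [hμ]; positivity
  filter_upwards [ev1, hl ev2, hl (N_asymp hμ0), hl (pt_large (2 * R)), hl (eventually_ge_atTop 10)]
    with T a1 a2 a3 a4 a5
  have hn := nT_pos a5
  have hN1 : (1 - μ) * nT T ≤ NZ T := a3.1
  have hmon := pt_mon (by linarith : 1 ≤ T) (NZ T)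
  have hyY : ∀ i, 1 ≤ i → i ≤ NZ T → pt T i ≤ nT T := fun i g1 g2 => pt_le a5 g1 g2
  -- the variance
  have hv : ∀ j : ℕ, j ≤ 2 * R → vv (pt T) (NZ T) (nT T) j ≤ (2 * ω * R + (K' + 1)) * nT T := by
    intro j hj
    rcases Nat.eq_zero_or_pos j with h0 | h0
    · subst h0
      rw [vv_zero]
      positivity
    · have hjR : (j : ℝ) ≤ 2 * R := by exact_mod_cast hj
      have hj0 : (0 : ℝ) < j := by exact_mod_cast h0
      have g1 := vv_eq hmon hj0.le hn.le (fun i g1 _ => hjR.trans (a4 i g1)) hyY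
      rw [Qw_one hRH a5] at g1
      have g2 := a2 j (Finset.mem_Icc.2 ⟨h0, hj⟩)
      have g3 := mul_le_mul_of_nonneg_left g2 hn.le
      have g4 : 2 * (j : ℝ) ^ 2 * ((1 - μ) * nT T) ≤ 2 * (j : ℝ) ^ 2 * NZ T := by gcongr
      have g5 : 2 * (j : ℝ) ^ 2 * μ ≤ 1 := by
        rw [hμ]
        have : (j : ℝ) ^ 2 ≤ 4 * (R : ℝ) ^ 2 := by nlinarith
        rw [mul_one_div, div_le_one (by positivity)]
        linarith
      have g6 : 2 * (j : ℝ) ^ 2 * μ * nT T ≤ 1 * nT T := mul_le_mul_of_nonneg_right g5 hn.le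
      have g7 : ω * j * nT T ≤ ω * (2 * R) * nT T := by gcongr
      have g8 : nT T * ((j : ℝ) ^ 2 + ω * j + K') = (j : ℝ) ^ 2 * nT T + ω * j * nT T + K' * nT T := by
        ring
      have g9 : 2 * (j : ℝ) ^ 2 * ((1 - μ) * nT T) =
          2 * (j : ℝ) ^ 2 * nT T - 2 * (j : ℝ) ^ 2 * μ * nT T := by ring
      have g10 : (2 * ω * R + (K' + 1)) * nT T = ω * (2 * R) * nT T + K' * nT T + 1 * nT T := by ring
      rw [g8] at g3
      rw [g9] at g4
      rw [g10]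
      linarith
  -- the mean squares of short windows
  have hq : ∀ k : ℕ, k ≤ 2 * L → Qw (pt T) (NZ T) (fun i => e1 (θ * pt T i)) k ≤
      ((c + 1) * (2 * L) + K) * nT T := by
    intro k hk
    rcases Nat.eq_zero_or_pos k with h0 | h0
    · subst h0
      rw [Qw_zero]
      positivity
    · rw [Qw_eq hRH a5]
      have g1 := (abs_le.1 (a1 k (Finset.mem_Icc.2 ⟨h0, by omega⟩))).2
      have hkL : (k : ℝ) ≤ 2 * L := by exact_mod_cast hk
      have hk0 : (0 : ℝ) < k := by exact_mod_cast h0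
      have g2 : ∫ x, kk k θ x ∂(Mp T) ≤ (c + 1) * (2 * L) + K := by
        have g3 : ω * k ≤ 1 * k := by gcongr
        have g4 : c * k ≤ c * (2 * L) := by gcongr
        linarith
      rw [mul_comm]
      exact mul_le_mul_of_nonneg_right g2 hn.le
  have hcmp := compare hmon (z := fun i => e1 (θ * pt T i)) (fun i => (e1_norm _).le) hR1 hL1 hLR
    hn.le (fun i g1 _ => by
      have := a4 i g1
      linarith) hyY hκ0 hκ1 hv hq
  obtain ⟨Q, hQ⟩ : ∃ Q : ℝ, Q = Qw (pt T) (NZ T) (fun i => e1 (θ * pt T i)) R := ⟨_, rfl⟩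
  rw [← hQ] at hcmp
  rw [Qw_eq hRH a5] at hQ
  obtain ⟨b1, b2⟩ := abs_le.1 (a1 R (Finset.mem_Icc.2 ⟨hR1, le_rfl⟩))
  have c1 : |Q - c * R * nT T| ≤ (ω * R + K) * nT T := by
    rw [hQ]
    have : nT T * (∫ x, kk R θ x ∂(Mp T)) - c * R * nT T =
        nT T * ((∫ x, kk R θ x ∂(Mp T)) - c * R) := by ring
    rw [this, abs_mul, abs_of_pos hn, mul_comm]
    exact mul_le_mul_of_nonneg_right (abs_le.2 ⟨b1, b2⟩) hn.le
  have c2 : Q ≤ ((c + 1) * R + K) * nT T := by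
    have := (abs_le.1 c1).2
    have h5 : ω * R * nT T ≤ 1 * R * nT T := by gcongr
    have h6 : (ω * R + K) * nT T = ω * R * nT T + K * nT T := by ring
    have h7 : ((c + 1) * R + K) * nT T = c * R * nT T + 1 * R * nT T + K * nT T := by ring
    rw [h6] at this
    rw [h7]
    linarith
  -- the error terms
  have d1 : 7 * κ * Q ≤ (ε / 10 * R + 7 * K) * nT T := by
    have g1 : 7 * κ * Q ≤ 7 * κ * (((c + 1) * R + K) * nT T) := by gcongr
    have g2 : 7 * κ * (c + 1) ≤ ε / 10 := by linarith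
    have g3 : 7 * κ * (c + 1) * (R * nT T) ≤ ε / 10 * (R * nT T) := by gcongr
    have g4 : κ * (K * nT T) ≤ 1 * (K * nT T) := by gcongr
    have g5 : 7 * κ * (((c + 1) * R + K) * nT T) =
        7 * κ * (c + 1) * (R * nT T) + 7 * (κ * (K * nT T)) := by ring
    have g6 : (ε / 10 * R + 7 * K) * nT T = ε / 10 * (R * nT T) + 7 * (1 * (K * nT T)) := by ring
    rw [g5] at g1
    rw [g6]
    linarith
  have d2 : (40 * (((c + 1) * (2 * L) + K) * nT T) + 68 * ((2 * ω * R + (K' + 1)) * nT T)) / κ ≤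
      (ε / 10 * R + 136 * ω / κ * R + (40 * K + 68 * (K' + 1)) / κ) * nT T := by
    have g1 : 80 * (c + 1) * L ≤ ε / 10 * R * κ := by
      have g2 : 80 * (c + 1) * L ≤ 80 * (c + 1) * (δ * R) := by gcongr
      have g3 : 80 * (c + 1) * δ * R ≤ κ * ε / 10 * R := by
        have : 80 * (c + 1) * δ ≤ κ * ε / 10 := by linarith
        gcongr
      linarith
    have g2 : 80 * (c + 1) * L / κ ≤ ε / 10 * R := by
      rw [div_le_iff₀ hκ0]
      exact g1
    have g3 : (40 * (((c + 1) * (2 * L) + K) * nT T) + 68 * ((2 * ω * R + (K' + 1)) * nT T)) / κ =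
        (80 * (c + 1) * L / κ + 136 * ω / κ * R + (40 * K + 68 * (K' + 1)) / κ) * nT T := by
      field_simp
      ring
    rw [g3]
    gcongr
  have d3 : 9 * (R : ℝ) ^ 2 / (L : ℝ) ^ 2 * ((2 * ω * R + (K' + 1)) * nT T) / κ ≤
      (72 * ω / (δ ^ 2 * κ) * R + 36 * (K' + 1) / (δ ^ 2 * κ)) * nT T := by
    have g1 : (R : ℝ) ^ 2 / (L : ℝ) ^ 2 ≤ 4 / δ ^ 2 := by
      rw [div_le_div_iff₀ (by positivity) (by positivity)]
      have : (δ / 2 * R) ^ 2 ≤ (L : ℝ) ^ 2 := pow_le_pow_left₀ (by positivity) hL2 2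
      nlinarith
    have g2 : 9 * (R : ℝ) ^ 2 / (L : ℝ) ^ 2 * ((2 * ω * R + (K' + 1)) * nT T) / κ =
        9 * ((R : ℝ) ^ 2 / (L : ℝ) ^ 2) * ((2 * ω * R + (K' + 1)) * nT T / κ) := by ring
    have g3 : (72 * ω / (δ ^ 2 * κ) * R + 36 * (K' + 1) / (δ ^ 2 * κ)) * nT T =
        9 * (4 / δ ^ 2) * ((2 * ω * R + (K' + 1)) * nT T / κ) := by
      field_simp
      ring
    rw [g2, g3]
    gcongr
  have d4 : 136 * ω / κ + 72 * ω / (δ ^ 2 * κ) ≤ ε / 10 := by
    have g1 : δ ^ 2 ≤ 1 / 4 := by nlinarith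
    have g2 : 136 * ω / κ ≤ 34 * ω / (δ ^ 2 * κ) := by
      rw [div_le_div_iff₀ (by positivity) (by positivity)]
      have : 136 * ω * (δ ^ 2 * κ) ≤ 136 * ω * (1 / 4 * κ) := by gcongr
      linarith
    have g3 : 106 * ω / (δ ^ 2 * κ) ≤ ε / 10 := by
      rw [div_le_iff₀ (by positivity)]
      nlinarith
    have g4 : 34 * ω / (δ ^ 2 * κ) + 72 * ω / (δ ^ 2 * κ) = 106 * ω / (δ ^ 2 * κ) := by ring
    linarith
  have d5 : (136 * ω / κ + 72 * ω / (δ ^ 2 * κ)) * (R * nT T) ≤ ε / 10 * (R * nT T) := by gcongr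
  have d6 : B * nT T ≤ ε / 10 * R * nT T := by
    have : B ≤ ε / 10 * R := by linarith
    gcongr
  have d7 : ω * R * nT T ≤ ε / 10 * R * nT T := by gcongr
  have hfin : |∑ m ∈ Finset.range (NZ T), ‖∑ i ∈ Finset.range R, e1 (θ * pt T (m + 1 + i))‖ ^ 2 -
      c * R * nT T| ≤ |∑ m ∈ Finset.range (NZ T), ‖∑ i ∈ Finset.range R,
      e1 (θ * pt T (m + 1 + i))‖ ^ 2 - Q| + |Q - c * R * nT T| := abs_sub_le _ _ _
  have hpos : 0 ≤ ε * R * nT T := by positivity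
  rw [hB] at d6
  have d8 : (K + 7 * K + (40 * K + 68 * (K' + 1)) / κ + 36 * (K' + 1) / (δ ^ 2 * κ)) * nT T =
      K * nT T + 7 * K * nT T + (40 * K + 68 * (K' + 1)) / κ * nT T +
        36 * (K' + 1) / (δ ^ 2 * κ) * nT T := by ring
  have d9 : (136 * ω / κ + 72 * ω / (δ ^ 2 * κ)) * (R * nT T) =
      136 * ω / κ * R * nT T + 72 * ω / (δ ^ 2 * κ) * R * nT T := by ring
  rw [d8] at d6
  rw [d9] at d5
  have d10 : (ε / 10 * R + 7 * K) * nT T = ε / 10 * R * nT T + 7 * K * nT T := by ring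
  have d11 : (ε / 10 * R + 136 * ω / κ * R + (40 * K + 68 * (K' + 1)) / κ) * nT T =
      ε / 10 * R * nT T + 136 * ω / κ * R * nT T + (40 * K + 68 * (K' + 1)) / κ * nT T := by ring
  have d12 : (72 * ω / (δ ^ 2 * κ) * R + 36 * (K' + 1) / (δ ^ 2 * κ)) * nT T =
      72 * ω / (δ ^ 2 * κ) * R * nT T + 36 * (K' + 1) / (δ ^ 2 * κ) * nT T := by ring
  have d13 : (ω * R + K) * nT T = ω * R * nT T + K * nT T := by ring
  rw [d10] at d1
  rw [d11] at d2
  rw [d12] at d3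
  rw [d13] at c1
  have d14 : ε / 10 * (R * nT T) = ε * R * nT T / 10 := by ring
  have d15 : ε / 10 * R * nT T = ε * R * nT T / 10 := by ring
  rw [d14] at d5
  rw [d15] at d1 d2 d6 d7
  linarith

end Pool.Agent.K9h45.PL
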