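import Pool.Agent.K9h45.PL.Idx
import Pool.Agent.Y763.AH.E

/-! # Patterns -/

set_option autoImplicit false

open MeasureTheory Set Filter Topology

namespace Pool.Agent.K9h45.PL

open Pool.Agent.Y749.Rig
open Pool.Agent.Y749.AH
open SG (ord NZ zmult ZS)

/-- the increments of two sequences of phases differ by this much -/
noncomputable def er (z p : ℕ → ℂ) (j : ℕ) : ℝ :=
  ‖z (j + 1) * (starRingEnd ℂ) (z j) - p (j + 1) * (starRingEnd ℂ) (p j)‖

lemma unit_conj {z : ℂ} (h : ‖z‖ = 1) : (starRingEnd ℂ) z * z = 1 := by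
  rw [mul_comm, Complex.mul_conj, Complex.normSq_eq_norm_sq, h]
  norm_num

lemma tele {z p : ℕ → ℂ} (hz : ∀ i, ‖z i‖ = 1) (hp : ∀ i, ‖p i‖ = 1) (n i : ℕ) :
    ‖z (n + i) * (starRingEnd ℂ) (z n) - p (n + i) * (starRingEnd ℂ) (p n)‖ ≤
      ∑ j ∈ Finset.range i, er z p (n + j) := by
  induction i with
  | zero =>
    rw [add_zero, mul_comm (z n), mul_comm (p n), unit_conj (hz n), unit_conj (hp n)]
    simp
  | succ i ih =>
    rw [Finset.sum_range_succ]
    obtain ⟨u, hu⟩ : ∃ u, u = z (n + i) * (starRingEnd ℂ) (z n) := ⟨_, rfl⟩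
    obtain ⟨v, hv⟩ : ∃ v, v = p (n + i) * (starRingEnd ℂ) (p n) := ⟨_, rfl⟩
    obtain ⟨a, ha⟩ : ∃ a, a = z (n + i + 1) * (starRingEnd ℂ) (z (n + i)) := ⟨_, rfl⟩
    obtain ⟨b, hb⟩ : ∃ b, b = p (n + i + 1) * (starRingEnd ℂ) (p (n + i)) := ⟨_, rfl⟩
    rw [← hu, ← hv] at ih
    have e1 : z (n + (i + 1)) * (starRingEnd ℂ) (z n) = a * u := by
      rw [ha, hu, ← add_assoc]
      linear_combination (-(z (n + i + 1) * (starRingEnd ℂ) (z n))) * unit_conj (hz (n + i))
    have e2 : p (n + (i + 1)) * (starRingEnd ℂ) (p n) = b * v := by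
      rw [hb, hv, ← add_assoc]
      linear_combination (-(p (n + i + 1) * (starRingEnd ℂ) (p n))) * unit_conj (hp (n + i))
    have na : ‖a‖ = 1 := by rw [ha, norm_mul, hz, Complex.norm_conj, hz, one_mul]
    have nv : ‖v‖ = 1 := by rw [hv, norm_mul, hp, Complex.norm_conj, hp, one_mul]
    rw [e1, e2]
    have e3 : a * u - b * v = a * (u - v) + (a - b) * v := by ring
    rw [e3]
    refine (norm_add_le _ _).trans ?_
    rw [norm_mul, norm_mul, na, nv, one_mul, mul_one]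
    have e4 : ‖a - b‖ = er z p (n + i) := by rw [ha, hb]; rfl
    rw [e4]
    linarith

/-- a window without large increments -/
lemma win_good {z p : ℕ → ℂ} (hz : ∀ i, ‖z i‖ = 1) (hp : ∀ i, ‖p i‖ = 1) {n R : ℕ} {ε : ℝ}
    (hε : 0 ≤ ε) (h : ∀ i, i < R → er z p (n + i) ≤ ε) :
    |‖∑ i ∈ Finset.range R, z (n + i)‖ ^ 2 - ‖∑ i ∈ Finset.range R, p (n + i)‖ ^ 2| ≤
      2 * (R : ℝ) ^ 3 * ε := by
  obtain ⟨S, hS⟩ : ∃ S, S = ∑ i ∈ Finset.range R, z (n + i) * (starRingEnd ℂ) (z n) := ⟨_, rfl⟩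
  obtain ⟨S', hS'⟩ : ∃ S', S' = ∑ i ∈ Finset.range R, p (n + i) * (starRingEnd ℂ) (p n) := ⟨_, rfl⟩
  have e1 : ‖S‖ = ‖∑ i ∈ Finset.range R, z (n + i)‖ := by
    rw [hS, ← Finset.sum_mul, norm_mul, Complex.norm_conj, hz, mul_one]
  have e2 : ‖S'‖ = ‖∑ i ∈ Finset.range R, p (n + i)‖ := by
    rw [hS', ← Finset.sum_mul, norm_mul, Complex.norm_conj, hp, mul_one]
  have h1 : ‖S - S'‖ ≤ R * (R * ε) := by
    rw [hS, hS', ← Finset.sum_sub_distrib]
    refine (norm_sum_le _ _).trans ?_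
    refine (Finset.sum_le_card_nsmul _ _ (R * ε) fun i hi => ?_).trans ?_
    · rw [Finset.mem_range] at hi
      refine (tele hz hp n i).trans ?_
      refine (Finset.sum_le_card_nsmul _ _ ε fun j hj => ?_).trans ?_
      · rw [Finset.mem_range] at hj
        exact h j (by omega)
      · rw [Finset.card_range, nsmul_eq_mul]
        have : (i : ℝ) ≤ R := by exact_mod_cast hi.le
        gcongr
    · rw [Finset.card_range, nsmul_eq_mul]
  have h2 : ‖S‖ ≤ R := by
    rw [e1]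
    refine (norm_sum_le _ _).trans ?_
    rw [Finset.sum_congr rfl (fun i _ => hz (n + i))]
    simp
  have h3 : ‖S'‖ ≤ R := by
    rw [e2]
    refine (norm_sum_le _ _).trans ?_
    rw [Finset.sum_congr rfl (fun i _ => hp (n + i))]
    simp
  rw [← e1, ← e2]
  have h4 : |‖S‖ - ‖S'‖| ≤ R * (R * ε) := (abs_norm_sub_norm_le S S').trans h1
  have e3 : ‖S‖ ^ 2 - ‖S'‖ ^ 2 = (‖S‖ - ‖S'‖) * (‖S‖ + ‖S'‖) := by ring
  rw [e3, abs_mul]
  have h5 : |‖S‖ + ‖S'‖| ≤ 2 * R := by
    rw [abs_of_nonneg (by positivity)]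
    linarith
  calc |‖S‖ - ‖S'‖| * |‖S‖ + ‖S'‖| ≤ (R * (R * ε)) * (2 * R) := by gcongr
    _ = _ := by ring

/-- the trivial bound -/
lemma win_triv {z p : ℕ → ℂ} (hz : ∀ i, ‖z i‖ = 1) (hp : ∀ i, ‖p i‖ = 1) (n R : ℕ) :
    |‖∑ i ∈ Finset.range R, z (n + i)‖ ^ 2 - ‖∑ i ∈ Finset.range R, p (n + i)‖ ^ 2| ≤
      (R : ℝ) ^ 2 := by
  have h : ∀ w : ℕ → ℂ, (∀ i, ‖w i‖ = 1) → ‖∑ i ∈ Finset.range R, w (n + i)‖ ^ 2 ≤ (R : ℝ) ^ 2 := by
    intro w hw
    apply pow_le_pow_left₀ (norm_nonneg _)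
    refine (norm_sum_le _ _).trans ?_
    rw [Finset.sum_congr rfl (fun i _ => hw (n + i))]
    simp
  have h1 := h z hz
  have h2 := h p hp
  rw [abs_le]
  constructor
  · have : 0 ≤ ‖∑ i ∈ Finset.range R, z (n + i)‖ ^ 2 := by positivity
    linarith
  · have : 0 ≤ ‖∑ i ∈ Finset.range R, p (n + i)‖ ^ 2 := by positivity
    linarith

/-- **comparison of two sequences of phases** -/
theorem pat_diff {z p : ℕ → ℂ} (hz : ∀ i, ‖z i‖ = 1) (hp : ∀ i, ‖p i‖ = 1) (N R : ℕ) {ε : ℝ}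
    (hε : 0 ≤ ε) :
    |∑ m ∈ Finset.range N, ‖∑ i ∈ Finset.range R, z (m + 1 + i)‖ ^ 2 -
      ∑ m ∈ Finset.range N, ‖∑ i ∈ Finset.range R, p (m + 1 + i)‖ ^ 2| ≤
      2 * (R : ℝ) ^ 3 * ε * N +
      (R : ℝ) ^ 3 * ((((Finset.Ioc 0 N).filter (fun j => ε < er z p j)).card : ℝ) + R) := by
  classical
  rw [← Finset.sum_sub_distrib]
  refine (Finset.abs_sum_le_sum_abs _ _).trans ?_
  obtain ⟨Bm, hBm⟩ : ∃ Bm : Finset ℕ, Bm =
      (Finset.range N).filter (fun m => ∃ i, i < R ∧ ε < er z p (m + 1 + i)) := ⟨_, rfl⟩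
  have h1 : ∀ m ∈ Finset.range N, |‖∑ i ∈ Finset.range R, z (m + 1 + i)‖ ^ 2 -
      ‖∑ i ∈ Finset.range R, p (m + 1 + i)‖ ^ 2| ≤ 2 * (R : ℝ) ^ 3 * ε +
      (R : ℝ) ^ 2 * (if m ∈ Bm then 1 else 0) := by
    intro m hm
    by_cases h : m ∈ Bm
    · rw [if_pos h]
      have := win_triv hz hp (m + 1) R
      have h2 : 0 ≤ 2 * (R : ℝ) ^ 3 * ε := by positivity
      linarith
    · rw [if_neg h]
      have h2 := win_good hz hp (n := m + 1) (R := R) hε (fun i hi => by
        by_contra hcon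
        push Not at hcon
        apply h
        rw [hBm, Finset.mem_filter]
        exact ⟨hm, i, hi, hcon⟩)
      linarith
  refine (Finset.sum_le_sum h1).trans ?_
  rw [Finset.sum_add_distrib, Finset.sum_const, Finset.card_range, nsmul_eq_mul, ← Finset.mul_sum]
  have h2 : ∑ m ∈ Finset.range N, (if m ∈ Bm then (1 : ℝ) else 0) = (Bm.card : ℝ) := by
    rw [Finset.sum_ite_mem]
    have : Finset.range N ∩ Bm = Bm := by
      rw [hBm]
      exact Finset.inter_eq_right.2 (Finset.filter_subset _ _)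
    rw [this]
    simp
  rw [h2]
  -- counting
  have h3 : Bm.card ≤ R * ((Finset.Ioc 0 (N + R)).filter (fun j => ε < er z p j)).card := by
    have h4 : Bm ⊆ (Finset.range R).biUnion (fun i =>
        (Finset.range N).filter (fun m => ε < er z p (m + 1 + i))) := by
      intro m hm
      rw [hBm, Finset.mem_filter] at hm
      obtain ⟨g1, i, g2, g3⟩ := hm
      rw [Finset.mem_biUnion]
      exact ⟨i, Finset.mem_range.2 g2, Finset.mem_filter.2 ⟨g1, g3⟩⟩
    refine (Finset.card_le_card h4).trans (Finset.card_biUnion_le.trans ?_)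
    refine (Finset.sum_le_card_nsmul _ _
      ((Finset.Ioc 0 (N + R)).filter (fun j => ε < er z p j)).card fun i hi => ?_).trans ?_
    · rw [Finset.mem_range] at hi
      refine Finset.card_le_card_of_injOn (fun m => m + 1 + i) ?_ ?_
      · intro m hm
        rw [Finset.mem_coe, Finset.mem_filter, Finset.mem_range] at hm
        rw [Finset.mem_coe, Finset.mem_filter, Finset.mem_Ioc]
        refine ⟨?_, hm.2⟩
        show 0 < m + 1 + i ∧ m + 1 + i ≤ N + R
        omega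
      · intro x _ y _ hxy
        have : x + 1 + i = y + 1 + i := hxy
        omega
    · rw [Finset.card_range, smul_eq_mul]
  have h4 : ((Finset.Ioc 0 (N + R)).filter (fun j => ε < er z p j)).card ≤
      ((Finset.Ioc 0 N).filter (fun j => ε < er z p j)).card + R := by
    have h5 : (Finset.Ioc 0 (N + R)).filter (fun j => ε < er z p j) ⊆
        (Finset.Ioc 0 N).filter (fun j => ε < er z p j) ∪ Finset.Ioc N (N + R) := by
      intro j hj
      rw [Finset.mem_filter, Finset.mem_Ioc] at hj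
      rw [Finset.mem_union, Finset.mem_filter, Finset.mem_Ioc, Finset.mem_Ioc]
      by_cases h : j ≤ N
      · left; exact ⟨⟨hj.1.1, h⟩, hj.2⟩
      · right; exact ⟨by omega, hj.1.2⟩
    refine (Finset.card_le_card h5).trans ((Finset.card_union_le _ _).trans ?_)
    rw [Nat.card_Ioc]
    omega
  have h5 : (Bm.card : ℝ) ≤
      R * ((((Finset.Ioc 0 N).filter (fun j => ε < er z p j)).card : ℝ) + R) := by
    have := h3.trans (Nat.mul_le_mul_left R h4)
    exact_mod_cast this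
  have h6 := mul_le_mul_of_nonneg_left h5 (by positivity : (0 : ℝ) ≤ (R : ℝ) ^ 2)
  linarith

/-- few spacings for which the two normalisations differ -/
theorem norm_close {ε η : ℝ} (hε : 0 < ε) (hη : 0 < η) : ∀ᶠ T in atTop,
    (((Finset.Ioc 0 (NZ T)).filter (fun j => ε < |xx T (j + 1) j - dj j|)).card : ℝ) ≤
      η * nT T := by
  classical
  obtain ⟨κ, hκ, hκ1, he⟩ := Pool.Agent.Y763.AH.early (show 0 < η / 4 by positivity)
  obtain ⟨r, hr⟩ : ∃ r : ℝ, r = 4 / η := ⟨_, rfl⟩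
  have hr0 : 0 < r := by rw [hr]; positivity
  filter_upwards [he, cmp_close hκ hr0.le hε, eventually_ge_atTop 10,
    Pool.Agent.Y763.AH.nT_atTop.eventually_ge_atTop (4 / η)] with T h1 h2 h3 h4
  have hn := nT_pos h3
  have hL := one_lt_log (show 3 ≤ T by linarith)
  rw [div_le_iff₀ hη] at h4
  -- three sets
  obtain ⟨A, hA⟩ : ∃ A : Finset ℕ, A = Finset.Ioc 0 (NZ (κ * T)) := ⟨_, rfl⟩
  obtain ⟨B, hB⟩ : ∃ B : Finset ℕ, B = (Finset.Ico 1 (NZ T)).filter
    (fun j => r < xx T (j + 1) j) := ⟨_, rfl⟩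
  have hsub : (Finset.Ioc 0 (NZ T)).filter (fun j => ε < |xx T (j + 1) j - dj j|) ⊆
      A ∪ B ∪ {NZ T} := by
    intro j hj
    rw [Finset.mem_filter, Finset.mem_Ioc] at hj
    obtain ⟨⟨g1, g2⟩, g3⟩ := hj
    rw [Finset.mem_union, Finset.mem_union, Finset.mem_singleton]
    by_contra hcon
    push Not at hcon
    obtain ⟨⟨c1, c2⟩, c3⟩ := hcon
    have c4 : κ * T ≤ ord j := by
      by_contra hc
      push Not at hc
      apply c1
      rw [hA, Finset.mem_Ioc]
      exact ⟨g1, (SG.ord_le_iff (by omega) _).1 hc.le⟩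
    have c5 : xx T (j + 1) j ≤ r := by
      by_contra hc
      push Not at hc
      apply c2
      rw [hB, Finset.mem_filter, Finset.mem_Ico]
      exact ⟨⟨by omega, by omega⟩, hc⟩
    have c6 : (j + 1) ∈ II T := by
      unfold II
      rw [Finset.mem_Ioc]
      omega
    have := h2 (j + 1) j (by omega) (by omega) c6 c4 c5
    unfold dj at g3
    linarith
  have hcA : (A.card : ℝ) ≤ η / 4 * nT T := by
    rw [hA, Nat.card_Ioc, Nat.sub_zero]
    exact h1
  have hcB : (B.card : ℝ) ≤ η / 4 * nT T := by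
    have g1 : (B.card : ℝ) * r ≤ ∑ j ∈ B, xx T (j + 1) j := by
      rw [← nsmul_eq_mul]
      apply Finset.card_nsmul_le_sum
      intro j hj
      rw [hB, Finset.mem_filter] at hj
      exact hj.2.le
    have g2 : ∑ j ∈ B, xx T (j + 1) j ≤ ∑ j ∈ Finset.Ico 1 (NZ T), xx T (j + 1) j := by
      rw [hB]
      apply Finset.sum_le_sum_of_subset_of_nonneg (Finset.filter_subset _ _)
      intro j hj _
      rw [Finset.mem_Ico] at hj
      exact xx_nonneg (by linarith) (by omega) (by omega)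
    have g3 : ∑ j ∈ Finset.Ico 1 (NZ T), xx T (j + 1) j ≤ nT T := by
      rcases Nat.lt_or_ge 1 (NZ T) with h | h
      · have e1 : ∑ j ∈ Finset.Ico 1 (NZ T), xx T (j + 1) j = pt T (NZ T) - pt T 1 := by
          simp_rw [← pt_xx]
          exact Finset.sum_Ico_sub _ h.le
        rw [e1]
        have e2 := pt_le h3 (by omega : 1 ≤ NZ T) le_rfl
        have e3 : 0 ≤ pt T 1 := by
          unfold pt
          have := SG.ord_pos (le_refl 1)
          have := Real.pi_pos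
          positivity
        linarith
      · rw [Finset.Ico_eq_empty_of_le h, Finset.sum_empty]
        exact hn.le
    have g4 : (B.card : ℝ) * r ≤ nT T := g1.trans (g2.trans g3)
    rw [hr, mul_div_assoc', div_le_iff₀ hη] at g4
    linarith
  have hc1 : (1 : ℝ) ≤ η / 4 * nT T := by linarith
  have hcard := (Finset.card_le_card hsub).trans ((Finset.card_union_le _ _).trans
    (Nat.add_le_add_right (Finset.card_union_le A B) _))
  rw [Finset.card_singleton] at hcard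
  have hcard' : (((Finset.Ioc 0 (NZ T)).filter (fun j => ε < |xx T (j + 1) j - dj j|)).card : ℝ) ≤
      A.card + B.card + 1 := by exact_mod_cast hcard
  have : 0 < η * nT T := by positivity
  linarith

end Pool.Agent.K9h45.PL
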